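import Pool.Agent.V1161.Trick

/-!
Averages of the distance to zero over the units.
-/

namespace Pool.Agent.V1161

open Finset Pool.Agent.H916R2 Pool.Agent.Y2

/-- the distance to zero -/
def nd (d : ℕ) (a : ZMod d) : ℕ := a.valMinAbs.natAbs

lemma nd_eq {d : ℕ} [NeZero d] (a : ZMod d) : nd d a = min a.val (d - a.val) :=
  ZMod.valMinAbs_natAbs_eq_min a

lemma nd_sub {d : ℕ} (a b : ZMod d) : nd d (a - b) ≤ nd d a + nd d b := by
  unfold nd
  rw [sub_eq_add_neg]
  refine le_trans (ZMod.natAbs_valMinAbs_add_le a (-b)) ?_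
  refine le_trans (Int.natAbs_add_le _ _) ?_
  rw [ZMod.natAbs_valMinAbs_neg]

lemma nd_zero (d : ℕ) : nd d 0 = 0 := by unfold nd; simp

lemma nd_pos {d : ℕ} [NeZero d] {a : ZMod d} (h : a ≠ 0) : 0 < nd d a := by
  rw [nd_eq]
  have h1 := ZMod.val_lt a
  have h2 : a.val ≠ 0 := fun h' => h ((ZMod.val_eq_zero a).mp h')
  omega

lemma two_nd_lt {d : ℕ} [NeZero d] (hd : d % 2 = 1) (a : ZMod d) : 2 * nd d a + 1 ≤ d := by
  rw [nd_eq]
  have h1 := ZMod.val_lt a
  omega

/-- the sawtooth, the sign and the distance -/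
lemma saw_nd {d : ℕ} [NeZero d] (hd : d % 2 = 1) (x : ℕ) :
    saw (x : ZMod d) = th d x * (d - 2 * (nd d (x : ZMod d) : ℤ)) := by
  by_cases h : d ∣ x
  · rw [(ZMod.natCast_eq_zero_iff x d).mpr h, saw_zero, th_zero h, zero_mul]
  · rw [saw_val x h, nd_eq, ZMod.val_natCast, th, if_neg h]
    have h1 : x % d < d := Nat.mod_lt _ (Nat.pos_of_ne_zero (NeZero.ne d))
    split_ifs with h2
    · rw [min_eq_left (by omega)]; ring
    · rw [min_eq_right (by omega), Nat.cast_sub h1.le]; ring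

/-- the sum over a subgroup of odd prime order -/
lemma sum_min : ∀ k : ℕ, ∑ t ∈ range (2 * k + 1), min t (2 * k + 1 - t) = k * (k + 1) := by
  intro k
  have h1 : 2 * k + 1 = (k + 1) + k := by ring
  have h2 : ∑ t ∈ range (2 * k + 1), min t (2 * k + 1 - t) =
      ∑ t ∈ range ((k + 1) + k), min t (2 * k + 1 - t) := by rw [← h1]
  rw [h2, Finset.sum_range_add]
  have h3 : ∑ x ∈ range (k + 1), min x (2 * k + 1 - x) = ∑ x ∈ range (k + 1), x :=
    sum_congr rfl fun x hx => by
      have := mem_range.mp hx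
      exact min_eq_left (by omega)
  have h4 : ∑ x ∈ range k, min (k + 1 + x) (2 * k + 1 - (k + 1 + x)) =
      ∑ x ∈ range k, (k - 1 - x + 1) :=
    sum_congr rfl fun x hx => by
      have := mem_range.mp hx
      rw [min_eq_right (by omega)]
      omega
  rw [h3, h4, Finset.sum_range_reflect (fun x => x + 1) k]
  have h5 := Finset.sum_range_id_mul_two (k + 1)
  have h6 : ∑ x ∈ range (k + 1), x = ∑ x ∈ range k, (x + 1) := by
    rw [Finset.sum_range_succ']; simp
  rw [← h6]
  have h7 : (k + 1) * (k + 1 - 1) = k * (k + 1) := by rw [Nat.add_sub_cancel]; ring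
  omega

lemma four_sum_min {r : ℕ} (hr : r % 2 = 1) :
    4 * ∑ t ∈ range r, min t (r - t) = (r - 1) * (r + 1) := by
  obtain ⟨k, rfl⟩ : ∃ k, r = 2 * k + 1 := ⟨r / 2, by omega⟩
  rw [sum_min, Nat.add_sub_cancel]
  ring

/-- the average over the units for an element of prime order -/
lemma aver_prime {d r : ℕ} [NeZero d] (hd : d % 2 = 1) (hr : r.Prime) (hrd : r ∣ d)
    (c : ZMod d) (hc : (r : ZMod d) * c = 0) (hc0 : c ≠ 0) :
    4 * r * ∑ u : (ZMod d)ˣ, nd d ((u : ZMod d) * c) = (r + 1) * (d * Nat.totient d) := by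
  have hd0 : d ≠ 0 := NeZero.ne d
  obtain ⟨g, hg⟩ := hrd
  have hr2 := hr.two_le
  have hrodd : r % 2 = 1 := by
    have h1 := hd
    rw [hg, ← Nat.odd_iff, Nat.odd_mul] at h1
    exact Nat.odd_iff.mp h1.1
  have hg0 : 0 < g := Nat.pos_of_ne_zero (by rintro rfl; rw [mul_zero] at hg; exact hd0 hg)
  set G : ℕ → ℕ := fun i => nd d ((i * g : ℕ) : ZMod d) with hG
  have hGper : ∀ i, G (i % r) = G i := by
    intro i
    rw [hG]
    simp only
    congr 1
    rw [ZMod.natCast_eq_natCast_iff, hg]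
    exact Nat.ModEq.mul_right' g (Nat.mod_modEq i r)
  have hGsum : 4 * ∑ t ∈ range r, G t = g * ((r - 1) * (r + 1)) := by
    have h1 : ∀ t ∈ range r, G t = g * min t (r - t) := by
      intro t ht
      have ht' := mem_range.mp ht
      have h2 : t * g < d := by
        rw [hg]; exact Nat.mul_lt_mul_of_pos_right ht' hg0
      rw [hG]
      simp only
      rw [nd_eq, ZMod.val_natCast, Nat.mod_eq_of_lt h2, mul_comm g]
      have h3 : d - t * g = (r - t) * g := by rw [Nat.sub_mul, ← hg]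
      rw [h3, Nat.mul_min_mul_right]
    rw [sum_congr rfl h1, ← mul_sum, ← four_sum_min hrodd]
    ring
  -- elements killed by `r`
  have hker : ∀ x : ZMod d, (r : ZMod d) * x = 0 → x ≠ 0 →
      ∃ k, Nat.Coprime k r ∧ x = ((k * g : ℕ) : ZMod d) := by
    intro x hx hx0
    have h1 : d ∣ r * x.val := by
      rw [← ZMod.natCast_eq_zero_iff]
      push_cast
      rw [ZMod.natCast_zmod_val]
      exact hx
    have h2 : g ∣ x.val :=
      Nat.dvd_of_mul_dvd_mul_left hr.pos ((dvd_of_eq hg.symm).trans h1)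
    obtain ⟨k, hk⟩ := h2
    refine ⟨k, ?_, ?_⟩
    · rw [Nat.coprime_comm, Nat.Prime.coprime_iff_not_dvd hr]
      rintro ⟨w, hw⟩
      apply hx0
      rw [← ZMod.natCast_zmod_val x, ZMod.natCast_eq_zero_iff, hk, hw, hg]
      exact ⟨w, by ring⟩
    · rw [mul_comm k g, ← hk, ZMod.natCast_zmod_val]
  have hfib : ∀ u : (ZMod d)ˣ, 4 * ∑ t ∈ range r, nd d ((t : ZMod d) * ((u : ZMod d) * c)) =
      g * ((r - 1) * (r + 1)) := by
    intro u
    obtain ⟨k, hk, hx⟩ := hker ((u : ZMod d) * c) (by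
      rw [← mul_assoc, mul_comm (r : ZMod d), mul_assoc, hc, mul_zero]) (by
      intro h
      exact hc0 ((Units.mul_right_eq_zero u).mp h))
    rw [hx, ← hGsum, ← sum_range_mul hr.pos G hGper hk]
    congr 1
    refine sum_congr rfl fun t _ => ?_
    rw [hG]
    simp only
    congr 1
    push_cast
    ring
  set S := ∑ u : (ZMod d)ˣ, nd d ((u : ZMod d) * c) with hS
  have hrow : ∀ t ∈ range r, ∑ u : (ZMod d)ˣ, nd d ((t : ZMod d) * ((u : ZMod d) * c)) =
      if t = 0 then 0 else S := by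
    intro t ht
    have ht' := mem_range.mp ht
    split_ifs with h0
    · rw [h0]
      apply sum_eq_zero
      intro u _
      rw [Nat.cast_zero, zero_mul, nd_zero]
    · have htr : Nat.Coprime t r := by
        rw [Nat.coprime_comm, Nat.Prime.coprime_iff_not_dvd hr]
        intro h
        have := Nat.le_of_dvd (Nat.pos_of_ne_zero h0) h
        omega
      obtain ⟨w, hw, hwt⟩ := lift_coprime (Dvd.intro g hg.symm) hd0 htr
      have hwc : (w : ZMod d) * c = (t : ZMod d) * c := by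
        obtain ⟨k, _, hck⟩ := hker c hc hc0
        rw [hck, ← Nat.cast_mul, ← Nat.cast_mul, ZMod.natCast_eq_natCast_iff, hg]
        have h1 : w * k ≡ t * k [MOD r] := hwt.mul_right k
        have h2 := Nat.ModEq.mul_right' g h1
        rw [mul_assoc, mul_assoc] at h2
        exact h2
      rw [hS]
      refine Fintype.sum_equiv (Equiv.mulLeft (ZMod.unitOfCoprime w hw)) _ _ fun u => ?_
      congr 1
      rw [Equiv.coe_mulLeft, Units.val_mul, ZMod.coe_unitOfCoprime]
      calc (t : ZMod d) * ((u : ZMod d) * c) = u * ((t : ZMod d) * c) := by ring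
        _ = u * ((w : ZMod d) * c) := by rw [hwc]
        _ = w * u * c := by ring
  have htot : 4 * ((r - 1) * S) = Nat.totient d * (g * ((r - 1) * (r + 1))) := by
    have h1 : ∑ t ∈ range r, ∑ u : (ZMod d)ˣ, nd d ((t : ZMod d) * ((u : ZMod d) * c)) =
        (r - 1) * S := by
      rw [sum_congr rfl hrow]
      obtain ⟨k, rfl⟩ : ∃ k, r = k + 1 := ⟨r - 1, by omega⟩
      rw [sum_range_succ']
      simp
    rw [← h1, sum_comm, mul_sum, sum_congr rfl fun u _ => hfib u, sum_const, smul_eq_mul,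
      Finset.card_univ, ZMod.card_units_eq_totient]
  have hr1 : 0 < r - 1 := by omega
  have h4 : 4 * S = Nat.totient d * (g * (r + 1)) := by
    apply Nat.eq_of_mul_eq_mul_left hr1
    calc (r - 1) * (4 * S) = 4 * ((r - 1) * S) := by ring
      _ = _ := by rw [htot]; ring
  calc 4 * r * S = r * (4 * S) := by ring
    _ = r * (Nat.totient d * (g * (r + 1))) := by rw [h4]
    _ = (r + 1) * ((r * g) * Nat.totient d) := by ring
    _ = _ := by rw [← hg]

/-- the average over the units for an arbitrary element -/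
lemma aver {d : ℕ} [NeZero d] (hd : d % 2 = 1) (b : ZMod d) (hb : b ≠ 0) :
    ∃ r : ℕ, r.Prime ∧ r ∣ d ∧
      (r + 1) * (d * Nat.totient d) ≤ 8 * r * ∑ u : (ZMod d)ˣ, nd d ((u : ZMod d) * b) := by
  have hd0 : d ≠ 0 := NeZero.ne d
  set D := addOrderOf b with hD
  have hDd : D ∣ d := by
    have h1 := addOrderOf_dvd_card (x := b)
    rwa [ZMod.card] at h1
  have hD1 : D ≠ 1 := by
    rw [hD, Ne, AddMonoid.addOrderOf_eq_one_iff]
    exact hb
  obtain ⟨r, hr, hrD⟩ := Nat.exists_prime_and_dvd hD1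
  obtain ⟨e, he⟩ := hrD
  have hD0 : D ≠ 0 := fun h => by rw [h] at hDd; exact hd0 (zero_dvd_iff.mp hDd)
  have hrd : r ∣ d := (Dvd.intro e he.symm).trans hDd
  have hr2 := hr.two_le
  have hrodd : r % 2 = 1 := by
    obtain ⟨w, hw⟩ := hrd
    have h1 := hd
    rw [hw, ← Nat.odd_iff, Nat.odd_mul] at h1
    exact Nat.odd_iff.mp h1.1
  have hcast : ∀ n : ℕ, (n : ZMod d) * b = 0 ↔ D ∣ n := by
    intro n
    rw [← nsmul_eq_mul]
    exact (addOrderOf_dvd_iff_nsmul_eq_zero).symm
  refine ⟨r, hr, hrd, ?_⟩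
  -- the multiplier
  obtain ⟨ε, hε, hεc⟩ : ∃ ε : ℕ, Nat.Coprime ε r ∧ Nat.Coprime (1 + ε * e) D := by
    by_cases h1 : r ∣ 1 + e
    · refine ⟨r - 1, ?_, ?_⟩
      · have := coprime_m_sub_one hr.ne_zero
        exact this
      · apply Nat.coprime_of_dvd
        intro p hp h2 h3
        rw [he] at h3
        rcases (Nat.Prime.dvd_mul hp).mp h3 with h4 | h4
        · have h5 : p = r := (Nat.prime_dvd_prime_iff_eq hp hr).mp h4
          subst h5
          have h6 : p ∣ (1 + (p - 1) * e) + (1 + e) := dvd_add h2 h1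
          have h7 : (1 + (p - 1) * e) + (1 + e) = 2 + p * e := by
            obtain ⟨k, rfl⟩ : ∃ k, p = k + 1 := ⟨p - 1, by omega⟩
            rw [Nat.add_sub_cancel]; ring
          rw [h7] at h6
          have h8 : p ∣ 2 := (Nat.dvd_add_left (Dvd.intro e rfl)).mp h6
          have h9 := Nat.le_of_dvd (by norm_num) h8
          have h10 : p = 2 := by omega
          omega
        · have h5 : p ∣ 1 := (Nat.dvd_add_left (h4.mul_left _)).mp h2
          exact hp.one_lt.ne' (Nat.dvd_one.mp h5)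
    · refine ⟨1, Nat.coprime_one_left r, ?_⟩
      rw [one_mul]
      apply Nat.coprime_of_dvd
      intro p hp h2 h3
      rw [he] at h3
      rcases (Nat.Prime.dvd_mul hp).mp h3 with h4 | h4
      · have h5 : p = r := (Nat.prime_dvd_prime_iff_eq hp hr).mp h4
        subst h5
        exact h1 h2
      · have h5 : p ∣ 1 := (Nat.dvd_add_left h4).mp h2
        exact hp.one_lt.ne' (Nat.dvd_one.mp h5)
  obtain ⟨κ, hκ, hκD⟩ := lift_coprime hDd hd0 hεc
  set c : ZMod d := ((ε * e : ℕ) : ZMod d) * b with hc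
  have hκb : (κ : ZMod d) * b - b = c := by
    have h1 : ((κ : ZMod d) - ((1 + ε * e : ℕ) : ZMod d)) * b = 0 := by
      have h2 : (D : ℤ) ∣ (κ : ℤ) - ((1 + ε * e : ℕ) : ℤ) := (Nat.modEq_iff_dvd.mp hκD.symm)
      have h3 : (((κ : ℤ) - ((1 + ε * e : ℕ) : ℤ) : ℤ) : ZMod d) * b = 0 := by
        obtain ⟨w, hw⟩ := h2
        rw [hw]
        push_cast
        have h4 := (hcast D).mpr dvd_rfl
        rw [mul_comm (D : ZMod d), mul_assoc, h4, mul_zero]
      push_cast at h3 ⊢
      exact h3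
    rw [hc]
    push_cast at h1 ⊢
    linear_combination h1
  have hc1 : (r : ZMod d) * c = 0 := by
    rw [hc, ← mul_assoc, ← Nat.cast_mul, hcast, he]
    exact ⟨ε, by ring⟩
  have hc2 : c ≠ 0 := by
    rw [hc, Ne, hcast, he]
    intro h
    have he0 : 0 < e := Nat.pos_of_ne_zero (by rintro rfl; rw [mul_zero] at he; exact hD0 he)
    have h1 : r ∣ ε := Nat.dvd_of_mul_dvd_mul_right he0 h
    have h2 : r ∣ Nat.gcd ε r := Nat.dvd_gcd h1 dvd_rfl
    rw [hε] at h2
    exact hr.one_lt.ne' (Nat.dvd_one.mp h2)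
  have h1 := aver_prime hd hr hrd c hc1 hc2
  have h2 : ∑ u : (ZMod d)ˣ, nd d ((u : ZMod d) * c) ≤
      2 * ∑ u : (ZMod d)ˣ, nd d ((u : ZMod d) * b) := by
    have h3 : ∑ u : (ZMod d)ˣ, nd d ((u : ZMod d) * ((κ : ZMod d) * b)) =
        ∑ u : (ZMod d)ˣ, nd d ((u : ZMod d) * b) := by
      refine Fintype.sum_equiv (Equiv.mulLeft (ZMod.unitOfCoprime κ hκ)) _ _ fun u => ?_
      congr 1
      rw [Equiv.coe_mulLeft, Units.val_mul, ZMod.coe_unitOfCoprime]
      ring
    rw [two_mul]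
    nth_rewrite 1 [← h3]
    rw [← sum_add_distrib]
    apply sum_le_sum
    intro u _
    rw [← hκb, mul_sub]
    exact nd_sub _ _
  rw [← h1]
  calc 4 * r * ∑ u : (ZMod d)ˣ, nd d ((u : ZMod d) * c) ≤
      4 * r * (2 * ∑ u : (ZMod d)ˣ, nd d ((u : ZMod d) * b)) := Nat.mul_le_mul_left _ h2
    _ = _ := by ring

end Pool.Agent.V1161
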