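import Pool.Agent.V1161.Excl

/-!
Relations with at most eight entries of odd degree: the part prime to the largest prime factor.
-/

namespace Pool.Agent.V1161

open Finset Pool.Agent.H916R2 Pool.Agent.Y2

lemma cases8 {q d m : ℕ} {A1 A2 : Multiset ℕ} (H : Setting q d m A1 A2) (hq11 : 11 ≤ q)
    (hcard : Multiset.card A1 + Multiset.card A2 ≤ 8)
    (hev : (Multiset.card A1 + Multiset.card A2) % 2 = 0) (hA2 : ∀ b ∈ A2, ¬ d ∣ b)
    (hmax : ∀ r : ℕ, r.Prime → r ∣ m → r ≤ q) :
    (∀ z, Nat.Coprime z d → Pool.Agent.Y2.ST d A1 z = 0) ∨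
    (¬ q ∣ d ∧ ∃ y, ¬ d ∣ y ∧ d ∣ 3 * y ∧
      ((q = 13 ∧ (∀ z, Nat.Coprime z d → SW d A1 z = 6 * saw ((z * y : ℕ) : ZMod d)) ∧
          ∀ z, Nat.Coprime z d → SW d A2 z = 0) ∨
        (q = 11 ∧ (∀ z, Nat.Coprime z d → SW d A1 z = 5 * saw ((z * y : ℕ) : ZMod d)) ∧
          Multiset.card A2 ≤ 3 ∧
          ∀ z, Nat.Coprime z d → SW d A2 z = - saw ((z * y : ℕ) : ZMod d)))) := by
  obtain ⟨h, s, T, D⟩ := exists_data H
  have hd0 := H.hd
  have hN : NeZero d := ⟨hd0⟩
  have hdo := H.dodd
  have hqo := H.qodd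
  have hnz := Setting.nz_le (d := d) (A1 := A1)
  have hnz8 : (nz d A1 : ℤ) ≤ 8 := by
    have : nz d A1 ≤ 8 := by omega
    exact_mod_cast this
  have hh5 : 5 ≤ h := by
    rcases D.hh with ⟨h1, _⟩ | ⟨h1, _⟩ <;> omega
  have hh5z : (5 : ℤ) ≤ h := by exact_mod_cast hh5
  have hTb : ∀ z, Nat.Coprime z d → |T z| ≤ 1 := by
    intro z hz
    have h1 := D.hT z hz
    have h2 := (ST_bound A1 hz).1
    rw [← h1, abs_mul, Nat.abs_cast] at h2
    by_contra hcon
    push Not at hcon
    nlinarith
  by_cases hT0 : T 1 % 2 = 0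
  · left
    intro z hz
    have h1 := hTb z hz
    have h2 := D.hpar z hz
    rw [abs_le] at h1
    have h3 : T z = 0 := by omega
    rw [← D.hT z hz, h3, mul_zero]
  right
  have hT1 : ∀ z, Nat.Coprime z d → T z = 1 ∨ T z = -1 := by
    intro z hz
    have h1 := hTb z hz
    have h2 := D.hpar z hz
    rw [abs_le] at h1
    omega
  have hz1 := Nat.coprime_one_left d
  -- the number of entries
  have hnh : h ≤ nz d A1 ∧ (nz d A1 - h) % 2 = 0 := by
    obtain ⟨h2, h3⟩ := ST_bound A1 hz1
    rw [← D.hT 1 hz1] at h2 h3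
    have h4 : h ≤ nz d A1 := by
      rcases hT1 1 hz1 with h5 | h5 <;> rw [h5] at h2
      · rw [mul_one, Nat.abs_cast] at h2
        exact_mod_cast h2
      · rw [mul_neg, mul_one, abs_neg, Nat.abs_cast] at h2
        exact_mod_cast h2
    refine ⟨h4, ?_⟩
    rcases hT1 1 hz1 with h5 | h5 <;> rw [h5] at h3 <;> omega
  obtain ⟨hnh1, hnh2⟩ := hnh
  have hnd : ¬ q ∣ d := by
    rcases D.hh with ⟨h1, _⟩ | ⟨_, h1⟩
    · omega
    · exact h1
  have h2h : 2 * h = q - 1 := by
    rcases D.hh with ⟨_, h1⟩ | ⟨h1, _⟩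
    · exact absurd h1 hnd
    · exact h1
  have hqc : Nat.Coprime q d := (Nat.Prime.coprime_iff_not_dvd H.hq).mpr hnd
  have hq1 : ((q : ℤ) - 1) = 2 * h := by
    have : q = 2 * h + 1 := by omega
    rw [this]; push_cast; ring
  have hhz : (h : ℤ) ≠ 0 := by omega
  have hq3 : q = 11 ∨ q = 13 ∨ q = 17 := by
    have h1 : q ≤ 17 := by omega
    have h2 := H.hq
    interval_cases q
    all_goals first
      | (exfalso; revert h2; norm_num; done)
      | (exfalso; omega)
      | simp
  -- the exceptional case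
  rcases trick H D hT1 with ⟨y, hyd, hs, hTy⟩ | hII
  swap
  · exfalso
    refine no_exc H D hT1 hII ?_
    rcases hq3 with rfl | rfl | rfl
    · have h5 : h = 5 := by omega
      have h6 : nz d A1 = 5 ∨ nz d A1 = 7 := by omega
      rcases h6 with h6 | h6
      · left; omega
      · right
        refine ⟨by omega, ?_⟩
        intro r hr hrd
        have h7 := hmax r hr (hrd.trans (Dvd.intro_left _ H.hqd))
        have h8 : r ≠ 11 := by rintro rfl; exact hnd hrd
        rw [h6]
        interval_cases r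
        all_goals first
          | omega
          | (exfalso; revert hr; norm_num; done)
    · have h5 : h = 6 := by omega
      have h6 : nz d A1 = 6 ∨ nz d A1 = 8 := by omega
      rcases h6 with h6 | h6
      · left; omega
      · right
        refine ⟨by omega, ?_⟩
        intro r hr hrd
        rw [h6]
        omega
    · left; omega
  -- the relations
  have hTT : ∀ u, Nat.Coprime u d →
      2 * Pool.Agent.Y2.ST d A2 (q * u) = T u - T (q * u) := by
    intro u hu
    have h1 := H.relT hnd hu
    rw [← D.hT u hu, ← D.hT _ (Nat.Coprime.mul_left hqc hu), hq1] at h1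
    apply mul_left_cancel₀ hhz
    linear_combination h1
  have hSS : ∀ u, Nat.Coprime u d →
      2 * SW d A2 (q * u) = s u - s (q * u) := by
    intro u hu
    have h1 := H.rel1 hnd hu
    rw [← D.hs u hu, ← D.hs _ (Nat.Coprime.mul_left hqc hu), hq1] at h1
    apply mul_left_cancel₀ hhz
    linear_combination h1
  have hnA2 : nz d A2 = Multiset.card A2 := nz_eq_card hA2
  have hpar2 : ∀ z, Nat.Coprime z d →
      (Pool.Agent.Y2.ST d A2 z - Multiset.card A2) % 2 = 0 := by
    intro z hz
    have := (ST_bound A2 hz).2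
    rwa [hnA2] at this
  -- all units are multiples of `q`
  have hqu : ∀ z, Nat.Coprime z d → ∃ u, Nat.Coprime u d ∧ q * u ≡ z [MOD d] := by
    intro t ht
    obtain ⟨u, _, hu⟩ := Nat.exists_mul_mod_eq_of_coprime t hqc hd0
    have hu' : q * u ≡ t [MOD d] := hu
    refine ⟨u, ?_, hu'⟩
    have h3 : Nat.Coprime (q * u) d := by
      have : Nat.gcd (q * u) d = Nat.gcd t d := hu'.gcd_eq
      rw [Nat.Coprime, this]; exact ht
    exact Nat.Coprime.coprime_mul_left h3
  have hSWy : ∀ z, Nat.Coprime z d → SW d A1 z = h * saw ((z * y : ℕ) : ZMod d) := by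
    intro z hz
    rw [← D.hs z hz, hs z hz]
  rcases Nat.even_or_odd (Multiset.card A2) with he | ho
  · -- even
    have he' := Nat.even_iff.mp he
    have hTe : ∀ u, Nat.Coprime u d → T (q * u) = T u := by
      intro u hu
      have h1 := hTT u hu
      have h2 := hpar2 _ (Nat.Coprime.mul_left hqc hu)
      have h3 := hT1 u hu
      have h4 := hT1 _ (Nat.Coprime.mul_left hqc hu)
      omega
    have hmod : q * y ≡ y [MOD d] := by
      apply th_inj hdo
      intro z hz
      have h1 := hTe z hz
      rw [hTy z hz, hTy _ (Nat.Coprime.mul_left hqc hz)] at h1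
      rw [← h1]
      congr 1; ring
    have hdvd : d ∣ (q - 1) * y := by
      apply dvd_of_modEq
      have : q - 1 + 1 = q := by omega
      rw [this]; exact hmod
    have hSW2 : ∀ z, Nat.Coprime z d → SW d A2 z = 0 := by
      intro z hz
      obtain ⟨u, hu, hzu⟩ := hqu z hz
      have h1 := hSS u hu
      have hquc := Nat.Coprime.mul_left hqc hu
      rw [hs u hu, hs _ hquc, SW_congr A2 hzu] at h1
      have h2 : saw ((q * u * y : ℕ) : ZMod d) = saw ((u * y : ℕ) : ZMod d) := by
        apply saw_per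
        have h3 := hmod.mul_left u
        have e : q * u * y = u * (q * y) := by ring
        rw [e]; exact h3
      rw [h2, sub_self] at h1
      omega
    rcases hq3 with rfl | rfl | rfl
    · exfalso
      have h5y : d ∣ 5 * y := dvd_odd_mul (k := 1) hdo (by norm_num : 2 = 2 ^ 1) (by
        rw [← mul_assoc]; exact hdvd)
      exact hyd (integrality H hnd h2h hSWy Nat.prime_five le_rfl h5y)
    · refine ⟨hnd, y, hyd, ?_, Or.inl ⟨rfl, ?_, hSW2⟩⟩
      · exact dvd_odd_mul (k := 2) hdo (by norm_num : 4 = 2 ^ 2) (by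
          rw [← mul_assoc]; exact hdvd)
      · intro z hz
        rw [hSWy z hz]
        have : h = 6 := by omega
        rw [this]; norm_num
    · exfalso
      exact hyd (dvd_odd_mul (k := 4) hdo (by norm_num : 16 = 2 ^ 4) hdvd)
  · -- odd
    have ho' := Nat.odd_iff.mp ho
    have hTe : ∀ u, Nat.Coprime u d → T (q * u) = - T u := by
      intro u hu
      have h1 := hTT u hu
      have h2 := hpar2 _ (Nat.Coprime.mul_left hqc hu)
      have h3 := hT1 u hu
      have h4 := hT1 _ (Nat.Coprime.mul_left hqc hu)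
      omega
    have hmod : d ∣ q * y + y := by
      apply th_inj_neg hdo
      intro z hz
      have h1 := hTe z hz
      rw [hTy z hz, hTy _ (Nat.Coprime.mul_left hqc hz)] at h1
      rw [← h1]
      congr 1; ring
    have hdvd : d ∣ (q + 1) * y := by
      have : (q + 1) * y = q * y + y := by ring
      rw [this]; exact hmod
    rcases hq3 with rfl | rfl | rfl
    · refine ⟨hnd, y, hyd, ?_, Or.inr ⟨rfl, ?_, by omega, ?_⟩⟩
      · exact dvd_odd_mul (k := 2) hdo (by norm_num : 4 = 2 ^ 2) (by
          rw [← mul_assoc]; exact hdvd)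
      · intro z hz
        rw [hSWy z hz]
        have : h = 5 := by omega
        rw [this]; norm_num
      · intro z hz
        obtain ⟨u, hu, hzu⟩ := hqu z hz
        have h1 := hSS u hu
        have hquc := Nat.Coprime.mul_left hqc hu
        rw [hs u hu, hs _ hquc, SW_congr A2 hzu] at h1
        have h2 : saw ((u * y : ℕ) : ZMod d) = - saw ((11 * u * y : ℕ) : ZMod d) := by
          rw [← saw_neg]
          congr 1
          have h4 : ((u * (11 * y + y) : ℕ) : ZMod d) = 0 := by
            rw [ZMod.natCast_eq_zero_iff]; exact hmod.mul_left u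
          push_cast at h4 ⊢
          linear_combination h4
        have h3 : saw ((z * y : ℕ) : ZMod d) = saw ((11 * u * y : ℕ) : ZMod d) :=
          (saw_per _ _ (hzu.mul_right y)).symm
        rw [h2] at h1
        rw [h3]
        omega
    · exfalso
      have h7y : d ∣ 7 * y := dvd_odd_mul (k := 1) hdo (by norm_num : 2 = 2 ^ 1) (by
        rw [← mul_assoc]; exact hdvd)
      exact hyd (integrality H hnd h2h hSWy (by norm_num : Nat.Prime 7) (by norm_num) h7y)
    · exfalso; omega

end Pool.Agent.V1161
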