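import Pool.Agent.V1161.CaseE
import Pool.Agent.Y2.Fourfold
import Pool.Agent.Y2.Cv.EvenH2

/-!
Hodge characters with at most eight entries of odd degree.
-/

namespace Pool.Agent.V1161

open Finset Pool.Agent.H916R2 Pool.Agent.Y2 Pool.Agent.Y2.Cv

/-- the relations of the good levels are killed -/
def Kills2 (m : ℕ) {Q : Type} [AddCommGroup Q] (C : ZMod (2 * m) → Q) : Prop :=
  ∀ l e : ℕ, l * e = m → GoodDegree2 (2 * e) → ∀ A : Multiset ℕ,
    (∀ t, Nat.Coprime t e → SW e A t = 0) →
      (A.map fun a : ℕ => C ((2 * (l * a) : ℕ) : ZMod (2 * m))).sum = 0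

lemma Kills2.comp {q d m : ℕ} (hqd : q * d = m) {Q : Type} [AddCommGroup Q]
    {C : ZMod (2 * m) → Q} (h : Kills2 m C) :
    Kills2 d (fun b : ZMod (2 * d) => C (iota q b)) := by
  intro l e hle hg A hrel
  rw [← h (q * l) e (by rw [mul_assoc, hle, hqd]) hg A hrel]
  congr 1
  apply Multiset.map_congr rfl
  intro a _
  change C (iota q ((2 * (l * a) : ℕ) : ZMod (2 * d))) = _
  rw [iota_natCast (by rw [← hqd]; ring)]
  congr 2; ring

lemma kills2_cQ {m : ℕ} (hm : m ≠ 0) :
    Kills2 m (cQ (2 * m) (SurfaceOrCurveProduct (2 * m))) := by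
  intro l e hle hg A hrel
  have he : e ≠ 0 := by rintro rfl; rw [mul_zero] at hle; exact hm hle.symm
  have h1 := killsC_cQ (m := 2 * m) (by omega) l (2 * e) (by rw [← hle]; ring) (by omega) hg
    (A.map fun x => 2 * x) (by
      intro t ht
      rw [SW_lmul (by omega) rfl, hrel t (Nat.Coprime.coprime_mul_left_right ht), mul_zero])
  rw [Multiset.map_map] at h1
  rw [← h1]
  congr 1
  apply Multiset.map_congr rfl
  intro x _
  simp only [Function.comp_apply]
  congr 2; ring

/-- the largest prime factor of a bad odd number -/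
lemma bad_max {m : ℕ} (hodd : m % 2 = 1) (hg : ¬ GoodDegree2 (2 * m)) :
    ∃ q, q.Prime ∧ q ∣ m ∧ 11 ≤ q ∧ ∀ r : ℕ, r.Prime → r ∣ m → r ≤ q := by
  have hm : m ≠ 0 := by rintro rfl; simp at hodd
  have hex : ∃ q, q.Prime ∧ q ∣ m ∧ 11 ≤ q := by
    by_contra hcon
    push Not at hcon
    apply hg
    right; right; right; right; right; left
    refine ⟨?_, Or.inl ?_⟩
    · rintro ⟨w, hw⟩
      omega
    · intro p hp hpm
      rcases (Nat.Prime.dvd_mul hp).mp hpm with h | h
      · exact Or.inl ((Nat.prime_dvd_prime_iff_eq hp Nat.prime_two).mp h)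
      · have h1 := hcon p hp h
        have h2 := hp.two_le
        interval_cases p
        all_goals first
          | (exfalso; revert hp; norm_num; done)
          | simp
  obtain ⟨q0, hq0, hq0m, hq011⟩ := hex
  have hne : m.primeFactors.Nonempty := ⟨q0, Nat.mem_primeFactors.mpr ⟨hq0, hq0m, hm⟩⟩
  have hmem := m.primeFactors.max'_mem hne
  rw [Nat.mem_primeFactors] at hmem
  have hle : ∀ r : ℕ, r.Prime → r ∣ m → r ≤ m.primeFactors.max' hne := fun r hr hrm =>
    Finset.le_max' _ _ (Nat.mem_primeFactors.mpr ⟨hr, hrm, hm⟩)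
  exact ⟨_, hmem.1, hmem.2.1, le_trans hq011 (hle q0 hq0 hq0m), hle⟩

lemma checkL (e : ℕ) [NeZero e] (E : List ℕ) (w : ℕ) (n : ℤ) (h : ∀ t : ZMod e,
    t.val.gcd e = 1 →
      (E.map fun x : ℕ => saw (t * (x : ZMod e))).sum = n * saw ((t.val * w : ℕ) : ZMod 3))
    (h3 : 3 ∣ e) :
    ∀ t, Nat.Coprime t e → SW e (E : Multiset ℕ) t = n * saw ((t * w : ℕ) : ZMod 3) := by
  intro t ht
  have h1 := h (t : ZMod e) (by
    rw [ZMod.val_natCast, ← Nat.gcd_rec, Nat.gcd_comm]; exact ht)
  have h2 : saw ((t * w : ℕ) : ZMod 3) = saw (((t : ZMod e).val * w : ℕ) : ZMod 3) := by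
    apply saw_per
    rw [ZMod.val_natCast]
    exact ((Nat.mod_modEq t e).symm.of_dvd h3).mul_right w
  rw [h2, ← h1]
  unfold SW
  rw [Multiset.map_coe, Multiset.sum_coe]
  push_cast
  rfl

set_option maxRecDepth 100000 in
/-- the multisets of level 39 -/
lemma exists_L13 (w : ℕ) (hw : w = 1 ∨ w = 2) :
    ∃ E : Multiset ℕ, (∀ x ∈ E, ¬ 13 ∣ x) ∧ (∀ t, Nat.Coprime t 39 → SW 39 E t = 0) ∧
      ∀ z, Nat.Coprime z 3 → SW 3 E z = 6 * saw ((z * w : ℕ) : ZMod 3) := by
  rcases hw with rfl | rfl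
  · refine ⟨([1, 7, 16, 22, 34, 37] : List ℕ), ?_, ?_, checkL 3 _ 1 6 (by decide +kernel) dvd_rfl⟩
    · intro x hx
      simp only [Multiset.mem_coe, List.mem_cons, List.not_mem_nil, or_false] at hx
      omega
    · intro t ht
      have := checkL 39 ([1, 7, 16, 22, 34, 37] : List ℕ) 1 0 (by decide +kernel)
        (by norm_num) t ht
      rw [this, zero_mul]
  · refine ⟨([38, 32, 23, 17, 5, 2] : List ℕ), ?_, ?_, checkL 3 _ 2 6 (by decide +kernel) dvd_rfl⟩
    · intro x hx
      simp only [Multiset.mem_coe, List.mem_cons, List.not_mem_nil, or_false] at hx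
      omega
    · intro t ht
      have := checkL 39 ([38, 32, 23, 17, 5, 2] : List ℕ) 1 0 (by decide +kernel)
        (by norm_num) t ht
      rw [this, zero_mul]

set_option maxRecDepth 100000 in
/-- the multisets of level 33 -/
lemma exists_L11 (w : ℕ) (hw : w = 1 ∨ w = 2) :
    ∃ E : Multiset ℕ, (∀ x ∈ E, ¬ 11 ∣ x) ∧
      (∀ t, Nat.Coprime t 33 → SW 33 E t = 11 * saw ((t * w : ℕ) : ZMod 3)) ∧
      ∀ z, Nat.Coprime z 3 → SW 3 E z = 5 * saw ((z * w : ℕ) : ZMod 3) := by
  rcases hw with rfl | rfl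
  · refine ⟨([1, 4, 16, 25, 31] : List ℕ), ?_, checkL 33 _ 1 11 (by decide +kernel) (by norm_num),
      checkL 3 _ 1 5 (by decide +kernel) dvd_rfl⟩
    intro x hx
    simp only [Multiset.mem_coe, List.mem_cons, List.not_mem_nil, or_false] at hx
    omega
  · refine ⟨([32, 29, 17, 8, 2] : List ℕ), ?_, checkL 33 _ 2 11 (by decide +kernel) (by norm_num),
      checkL 3 _ 2 5 (by decide +kernel) dvd_rfl⟩
    intro x hx
    simp only [Multiset.mem_coe, List.mem_cons, List.not_mem_nil, or_false] at hx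
    omega

lemma good78v : GoodDegree2 (2 * 39) := good78'

lemma good66v : GoodDegree2 (2 * 33) := good66'

theorem eight_zero : ∀ m : ℕ, m % 2 = 1 → ∀ A : Multiset ℕ, Multiset.card A ≤ 8 →
    (∀ a ∈ A, ¬ m ∣ a) → (∀ t, Nat.Coprime t m → SW m A t = 0) →
    ∀ (Q : Type) [AddCommGroup Q] (C : ZMod (2 * m) → Q), OddDist C → Kills2 m C →
      (A.map fun a : ℕ => C ((2 * a : ℕ) : ZMod (2 * m))).sum = 0 := by
  intro m
  induction m using Nat.strong_induction_on with
  | _ m ih =>
  intro hodd A hcard hA hrel Q _ C hC hK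
  have hm : m ≠ 0 := by rintro rfl; simp at hodd
  have hN : NeZero m := ⟨hm⟩
  by_cases hg : GoodDegree2 (2 * m)
  · have h1 := hK 1 m (one_mul m) hg A hrel
    simpa only [one_mul] using h1
  have hev := card_even hodd hA hrel
  have hcC : OddDist (fun b : ZMod m => C (iota 2 b)) := hC.comp_iota rfl
  have hcv : ∀ a : ℕ, C (iota 2 (a : ZMod m)) = C ((2 * a : ℕ) : ZMod (2 * m)) := by
    intro a; rw [iota_natCast rfl]
  obtain ⟨q, hq, ⟨d, hd'⟩, hq11, hmax⟩ := bad_max hodd hg
  have hqd : q * d = m := hd'.symm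
  have H := mkSetting hq hqd hodd A hrel
  have hd0 := H.hd
  have hdo := H.dodd
  have hc1 := card_split q A
  have hdm : d < m := by
    rw [← hqd]
    have h4 : 0 < d := Nat.pos_of_ne_zero hd0
    nlinarith
  have hNd : NeZero (2 * d) := ⟨by omega⟩
  have hA2 := ndvd_split hqd hA
  -- induction
  have hIH : ∀ B : Multiset ℕ, Multiset.card B ≤ 8 → (∀ b ∈ B, ¬ d ∣ b) →
      (∀ t, Nat.Coprime t d → SW d B t = 0) →
      (B.map fun b : ℕ => C ((2 * (q * b) : ℕ) : ZMod (2 * m))).sum = 0 := by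
    intro B hB hBd hBrel
    have h5 := ih d hdm hdo B hB hBd hBrel Q (fun b : ZMod (2 * d) => C (iota q b))
      (hC.comp_iota (by rw [← hqd]; ring)) (hK.comp hqd)
    rw [← h5]
    congr 1
    apply Multiset.map_congr rfl
    intro b _
    rw [iota_natCast (by rw [← hqd]; ring)]
    congr 2; ring
  rcases cases8 H hq11 (by omega) (by omega) hA2 hmax with h0 | ⟨hnd, y, hyd, h3y, hcase⟩
  · -- vanishing signs
    obtain ⟨h1, h2⟩ := H.peel0 h0 (Or.inr (by
      have h3 : 11 * 10 ≤ q * (q - 1) := Nat.mul_le_mul hq11 (by omega)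
      omega))
    have h3 := h2 Q _ hcC
    have h4 : ((A.filter fun a => ¬ q ∣ a).map
        fun a : ℕ => C ((2 * a : ℕ) : ZMod (2 * m))).sum = 0 := by
      rw [← h3]
      congr 1
      apply Multiset.map_congr rfl
      intro a _
      exact (hcv a).symm
    rw [split_sum (q := q), h4, zero_add]
    exact hIH _ (by omega) hA2 h1
  -- elements of order three
  obtain ⟨l, hl⟩ := three_dvd_of h3y hyd
  have hl3 : l * 3 = d := by rw [hl]; ring
  have hl0 : 0 < l := Nat.pos_of_ne_zero (by rintro rfl; exact hd0 (by rw [hl]))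
  have hNdd : NeZero d := ⟨hd0⟩
  obtain ⟨w, hw, hyw⟩ : ∃ w, (w = 1 ∨ w = 2) ∧ y ≡ l * w [MOD d] := by
    obtain ⟨v, hv⟩ : l ∣ y := by
      rw [hl] at h3y
      exact Nat.dvd_of_mul_dvd_mul_left (by norm_num) h3y
    refine ⟨v % 3, ?_, ?_⟩
    · have h1 : ¬ 3 ∣ v := by
        rintro ⟨u, hu⟩
        exact hyd (by rw [hv, hu, hl]; exact ⟨u, by ring⟩)
      omega
    · rw [hv, ← hl3]
      exact Nat.ModEq.mul_left' l (Nat.mod_modEq v 3).symm
  have hsawy : ∀ z : ℕ, saw ((z * y : ℕ) : ZMod d) = l * saw ((z * w : ℕ) : ZMod 3) := by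
    intro z
    rw [← saw_mul_level hd0 hl3, saw_per _ _ (hyw.mul_left z)]
    congr 2; ring
  have hcop3 : ∀ z, Nat.Coprime z d → Nat.Coprime z 3 := fun z hz =>
    Nat.Coprime.coprime_dvd_right (Dvd.intro_left l hl3) hz
  have hcopd : ∀ t, Nat.Coprime t m → Nat.Coprime t d := fun t ht =>
    Nat.Coprime.coprime_dvd_right (Dvd.intro_left q hqd) ht
  have hlm : l * (q * 3) = m := by rw [← hqd, hl]; ring
  have hcopq : ∀ t, Nat.Coprime t m → Nat.Coprime t (q * 3) := fun t ht =>
    Nat.Coprime.coprime_dvd_right (Dvd.intro_left l hlm) ht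
  have hqc : Nat.Coprime q d := (Nat.Prime.coprime_iff_not_dvd hq).mpr hnd
  -- comparison
  have hcompare : ∀ (E : Multiset ℕ) (n : ℤ), (∀ x ∈ E, ¬ q ∣ x) →
      (∀ z, Nat.Coprime z d → SW d (A.filter fun a => ¬ q ∣ a) z =
        n * saw ((z * y : ℕ) : ZMod d)) →
      (∀ z, Nat.Coprime z 3 → SW 3 E z = n * saw ((z * w : ℕ) : ZMod 3)) →
      (∀ t, Nat.Coprime t m → SW m (A.filter fun a => ¬ q ∣ a) t = l * SW (q * 3) E t) →
      ((A.filter fun a => ¬ q ∣ a).map fun a : ℕ => C ((2 * a : ℕ) : ZMod (2 * m))).sum =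
        (E.map fun x : ℕ => C ((2 * (l * x) : ℕ) : ZMod (2 * m))).sum := by
    intro E n hE hE1 hE3 hEm
    have hcomp := kill2 hq (Dvd.intro d hqd) hm (factor_pos hq (Dvd.intro d hqd) hm (by omega))
      (A := A.filter fun a => ¬ q ∣ a) (B := E.map fun x => l * x)
      H.hA (by
        intro x hx h
        obtain ⟨x', hx', rfl⟩ := Multiset.mem_map.mp hx
        rcases (Nat.Prime.dvd_mul hq).mp h with h | h
        · exact hnd (by rw [hl]; exact h.mul_left 3)
        · exact hE x' hx' h) (by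
        intro j t ht
        rcases Nat.eq_zero_or_pos j with rfl | hj
        · rw [pow_zero, one_mul, hEm t ht, SW_lmul hm hlm]
        · obtain ⟨i, rfl⟩ : ∃ i, j = i + 1 := ⟨j - 1, by omega⟩
          have hc : Nat.Coprime (q ^ i * t) d := Nat.Coprime.mul_left
            (Nat.Coprime.pow_left _ hqc) (hcopd t ht)
          rw [show q ^ (i + 1) * t = q * (q ^ i * t) by ring, SW_level hm hqd, SW_level hm hqd,
            hE1 _ hc, SW_lmul hd0 hl3, hE3 _ (hcop3 _ hc), hsawy]
          ring) Q _ hcC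
    have e2 : ((A.filter fun a => ¬ q ∣ a).map
        fun a : ℕ => C ((2 * a : ℕ) : ZMod (2 * m))).sum =
        ((A.filter fun a => ¬ q ∣ a).map fun a : ℕ => C (iota 2 (a : ZMod m))).sum := by
      congr 1
      apply Multiset.map_congr rfl
      intro a _
      exact (hcv a).symm
    rw [e2, hcomp, Multiset.map_map]
    congr 1
    apply Multiset.map_congr rfl
    intro x _
    simp only [Function.comp_apply]
    exact hcv (l * x)
  rw [split_sum (q := q)]
  rcases hcase with ⟨hq13, hA1, hS2⟩ | ⟨hq11', hA1, hc3, hS2⟩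
  · subst hq13
    obtain ⟨E, hE1, hE2, hE3⟩ := exists_L13 w hw
    have h1 := hcompare E 6 hE1 hA1 hE3 (by
      intro t ht
      have h2 := H.hrel t ht
      rw [hS2 t (hcopd t ht), mul_zero, add_zero] at h2
      rw [h2, hE2 t (hcopq t ht), mul_zero])
    rw [h1, hK l 39 hlm good78v E hE2, zero_add]
    exact hIH _ (by omega) hA2 hS2
  · subst hq11'
    obtain ⟨E, hE1, hE2, hE3⟩ := exists_L11 w hw
    have h1 := hcompare E 5 hE1 hA1 hE3 (by
      intro t ht
      have h2 := H.hrel t ht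
      rw [hS2 t (hcopd t ht), hsawy] at h2
      rw [hE2 t (hcopq t ht)]
      have e11 : ((11 : ℕ) : ℤ) = 11 := rfl
      rw [e11] at h2
      linear_combination h2)
    have h2 := hIH (((A.filter fun a => 11 ∣ a).map fun a => a / 11) + {y})
      (by rw [Multiset.card_add, Multiset.card_singleton]; omega)
      (by
        intro b hb
        rcases Multiset.mem_add.mp hb with hb | hb
        · exact hA2 b hb
        · rw [Multiset.mem_singleton] at hb
          rw [hb]; exact hyd)
      (by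
        intro t ht
        rw [SW_add, hS2 t ht]
        unfold SW
        simp)
    rw [Multiset.map_add, Multiset.sum_add, Multiset.map_singleton,
      Multiset.sum_singleton] at h2
    -- the relation of level 33
    have h3 := hK l 33 hlm good66v (E + {11 * (3 - w)}) (by
      intro t ht
      rw [SW_add, hE2 t ht]
      have h4 : SW 33 {11 * (3 - w)} t = - (11 * saw ((t * w : ℕ) : ZMod 3)) := by
        unfold SW
        rw [Multiset.map_singleton, Multiset.sum_singleton]
        have h5 := saw_mul_level (m := 33) (d := 3) (q := 11) (by norm_num) (by norm_num)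
          (t * (3 - w))
        have h6 : t * (11 * (3 - w)) = 11 * (t * (3 - w)) := by ring
        rw [h6, h5]
        have h7 : ((t * (3 - w) : ℕ) : ZMod 3) = - ((t * w : ℕ) : ZMod 3) := by
          have h8 : ((t * w + t * (3 - w) : ℕ) : ZMod 3) = 0 := by
            rw [ZMod.natCast_eq_zero_iff]
            rcases hw with rfl | rfl
            · exact ⟨t, by norm_num; ring⟩
            · exact ⟨t, by norm_num; ring⟩
          rw [Nat.cast_add] at h8
          exact eq_neg_of_add_eq_zero_right h8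
        rw [h7, saw_neg]
        push_cast
        ring
      rw [h4]
      ring)
    rw [Multiset.map_add, Multiset.sum_add, Multiset.map_singleton,
      Multiset.sum_singleton] at h3
    have h4 : ((2 * (l * (11 * (3 - w))) : ℕ) : ZMod (2 * m)) =
        - ((2 * (11 * y) : ℕ) : ZMod (2 * m)) := by
      have h5 : 11 * y ≡ 11 * (l * w) [MOD m] := by
        have := Nat.ModEq.mul_left' 11 hyw
        rwa [hqd] at this
      have h6 : ((2 * (11 * y) : ℕ) : ZMod (2 * m)) = ((2 * (11 * (l * w)) : ℕ) : ZMod (2 * m)) :=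
        (ZMod.natCast_eq_natCast_iff _ _ _).mpr (Nat.ModEq.mul_left' 2 h5)
      rw [h6]
      have h7 : ((2 * (l * (11 * (3 - w))) + 2 * (11 * (l * w)) : ℕ) : ZMod (2 * m)) = 0 := by
        rw [ZMod.natCast_eq_zero_iff, ← hqd, hl]
        rcases hw with rfl | rfl
        · exact ⟨1, by norm_num; ring⟩
        · exact ⟨1, by norm_num; ring⟩
      rw [Nat.cast_add] at h7
      exact eq_neg_of_add_eq_zero_left h7
    rw [h4, hC.neg] at h3
    have h5 : (E.map fun x : ℕ => C ((2 * (l * x) : ℕ) : ZMod (2 * m))).sum =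
        C ((2 * (11 * y) : ℕ) : ZMod (2 * m)) := by
      have := h3
      rwa [← sub_eq_add_neg, sub_eq_zero] at this
    rw [h1, h5, add_comm]
    exact h2

/-- **Hodge characters with at most eight entries of odd degree.** -/
theorem main_eight {m : ℕ} (hodd : m % 2 = 1) (s : Multiset (ZMod m)) (hs : IsHodge m s)
    (hcard : Multiset.card s ≤ 8) (hne : s ≠ 0) :
    Generated (2 * m) (SurfaceOrCurveProduct (2 * m))
      (s.map fun a => ((2 * a.val : ℕ) : ZMod (2 * m))) := by
  have hm : m ≠ 0 := by rintro rfl; simp at hodd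
  have hN : NeZero m := ⟨hm⟩
  have hN' : NeZero (2 * m) := ⟨by omega⟩
  have hiota : (s.map fun a => ((2 * a.val : ℕ) : ZMod (2 * m))) =
      s.map (iota 2 : ZMod m → ZMod (2 * m)) := rfl
  have h2s := hs.iota (m := 2 * m) (k := 2) rfl
  have h1 := eight_zero m hodd (s.map ZMod.val) (by rwa [Multiset.card_map]) (by
    intro a ha h
    obtain ⟨b, hb', rfl⟩ := Multiset.mem_map.mp ha
    have h3 := (ZMod.natCast_eq_zero_iff b.val m).mpr h
    rw [ZMod.natCast_zmod_val] at h3
    exact hs.1 (h3 ▸ hb')) (fun t ht => saw_rel s hs t ht) _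
    (cQ (2 * m) (SurfaceOrCurveProduct (2 * m))) cQ_oddDist (kills2_cQ hm)
  rw [Multiset.map_map] at h1
  have h2 : ((s.map fun a => ((2 * a.val : ℕ) : ZMod (2 * m))).map
      (cQ (2 * m) (SurfaceOrCurveProduct (2 * m)))).sum = 0 := by
    rw [Multiset.map_map]
    exact h1
  rw [cQ_sum, QuotientAddGroup.eq_zero_iff] at h2
  rw [hiota] at h2 ⊢
  exact generated_of_mem_LL base_good base_neg h2s.1 h2s.2.1 (by
    intro h
    rw [Multiset.map_eq_zero] at h
    exact hne h) h2

end Pool.Agent.V1161
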