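import Pool.Agent.V1161.Aver

/-!
The exceptional case is impossible for few entries.
-/

namespace Pool.Agent.V1161

open Finset Pool.Agent.H916R2 Pool.Agent.Y2

lemma aver_sum {d : ℕ} [NeZero d] (hd : d % 2 = 1) (B : Multiset ℕ) (hB : ∀ b ∈ B, ¬ d ∣ b)
    (n : ℕ) (hn : ∀ r : ℕ, r.Prime → r ∣ d → 8 * r ≤ n * (r + 1)) :
    Multiset.card B * (d * Nat.totient d) ≤
      n * ∑ u : (ZMod d)ˣ, (B.map fun b : ℕ => nd d ((u : ZMod d) * (b : ZMod d))).sum := by
  induction B using Multiset.induction_on with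
  | empty => simp
  | cons b B ih =>
    have h1 := ih fun x hx => hB x (Multiset.mem_cons_of_mem hx)
    have hb : (b : ZMod d) ≠ 0 := by
      rw [Ne, ZMod.natCast_eq_zero_iff]
      exact hB b (Multiset.mem_cons_self b B)
    obtain ⟨r, hr, hrd, h2⟩ := aver hd (b : ZMod d) hb
    have h3 := hn r hr hrd
    set X := ∑ u : (ZMod d)ˣ, nd d ((u : ZMod d) * (b : ZMod d)) with hX
    have h4 : d * Nat.totient d ≤ n * X := by
      have hr0 : 0 < 8 * r := by have := hr.pos; omega
      apply Nat.le_of_mul_le_mul_left _ hr0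
      calc 8 * r * (d * Nat.totient d) ≤ n * (r + 1) * (d * Nat.totient d) :=
            Nat.mul_le_mul_right _ h3
        _ = n * ((r + 1) * (d * Nat.totient d)) := by ring
        _ ≤ n * (8 * r * X) := Nat.mul_le_mul_left _ h2
        _ = _ := by ring
    have h5 : ∑ u : (ZMod d)ˣ, ((b ::ₘ B).map fun b : ℕ => nd d ((u : ZMod d) * (b : ZMod d))).sum =
        X + ∑ u : (ZMod d)ˣ, (B.map fun b : ℕ => nd d ((u : ZMod d) * (b : ZMod d))).sum := by
      rw [hX, ← sum_add_distrib]
      refine sum_congr rfl fun u _ => ?_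
      rw [Multiset.map_cons, Multiset.sum_cons]
    rw [h5, Multiset.card_cons, mul_add, add_mul, one_mul]
    omega

lemma excl {d : ℕ} [NeZero d] (hd : d % 2 = 1) (B : Multiset ℕ) (hB : ∀ b ∈ B, ¬ d ∣ b)
    (hn0 : 0 < Multiset.card B)
    (hr : ∀ r : ℕ, r.Prime → r ∣ d → 8 * r ≤ Multiset.card B * (r + 1))
    (hlt : ∀ z, Nat.Coprime z d →
      (B.map fun b : ℕ => nd d ((z * b : ℕ) : ZMod d)).sum < d) : False := by
  have h1 := aver_sum hd B hB _ hr
  have h2 : d * Nat.totient d ≤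
      ∑ u : (ZMod d)ˣ, (B.map fun b : ℕ => nd d ((u : ZMod d) * (b : ZMod d))).sum :=
    Nat.le_of_mul_le_mul_left h1 hn0
  have hd0 : 0 < d := Nat.pos_of_ne_zero (NeZero.ne d)
  have h3 : ∑ u : (ZMod d)ˣ, (B.map fun b : ℕ => nd d ((u : ZMod d) * (b : ZMod d))).sum ≤
      ∑ _u : (ZMod d)ˣ, (d - 1) := by
    apply sum_le_sum
    intro u _
    have h4 := hlt (u : ZMod d).val (ZMod.val_coe_unit_coprime u)
    have h5 : (B.map fun b : ℕ => nd d ((u : ZMod d) * (b : ZMod d))) =
        B.map fun b : ℕ => nd d (((u : ZMod d).val * b : ℕ) : ZMod d) := by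
      apply Multiset.map_congr rfl
      intro b _
      congr 1
      push_cast
      rw [ZMod.natCast_zmod_val]
    rw [h5]
    omega
  rw [sum_const, Finset.card_univ, ZMod.card_units_eq_totient, smul_eq_mul] at h3
  have h4 : 0 < Nat.totient d := Nat.totient_pos.mpr hd0
  have h5 : Nat.totient d * (d - 1) < d * Nat.totient d := by
    rw [mul_comm d]
    exact Nat.mul_lt_mul_of_pos_left (by omega) h4
  omega

/-- the sum of signs and of distances -/
lemma SW_nd {d : ℕ} [NeZero d] (hd : d % 2 = 1) (B : Multiset ℕ) (z : ℕ) :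
    SW d B z = d * Pool.Agent.Y2.ST d B z -
      2 * (B.map fun b => th d (z * b) * (nd d ((z * b : ℕ) : ZMod d) : ℤ)).sum := by
  unfold SW Pool.Agent.Y2.ST
  induction B using Multiset.induction_on with
  | empty => simp
  | cons b B ih =>
    simp only [Multiset.map_cons, Multiset.sum_cons]
    rw [ih, saw_nd hd (z * b)]
    ring

lemma sum_nd_le {d : ℕ} [NeZero d] (hd : d % 2 = 1) (e : ℤ) (he : e = 1 ∨ e = -1)
    (B : Multiset ℕ) (z : ℕ) (hB : ∀ b ∈ B, ¬ d ∣ z * b) :
    2 * ((B.map fun b => (nd d ((z * b : ℕ) : ZMod d) : ℤ)).sum -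
      e * (B.map fun b => th d (z * b) * (nd d ((z * b : ℕ) : ZMod d) : ℤ)).sum) ≤
      (d - 1) * (Multiset.card B - e * ST d B z) := by
  unfold Pool.Agent.Y2.ST
  induction B using Multiset.induction_on with
  | empty => simp
  | cons b B ih =>
    have h1 := ih fun x hx => hB x (Multiset.mem_cons_of_mem hx)
    simp only [Multiset.map_cons, Multiset.sum_cons, Multiset.card_cons]
    have h2 := th_cases (hB b (Multiset.mem_cons_self b B))
    have h3 := two_nd_lt hd ((z * b : ℕ) : ZMod d)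
    have h4 : 2 * (nd d ((z * b : ℕ) : ZMod d) : ℤ) ≤ d - 1 := by omega
    push_cast at h1 ⊢
    rcases he with rfl | rfl <;> rcases h2 with h2 | h2 <;> rw [h2] <;> push_cast at h4 <;>
      linarith

lemma SW_filt (d : ℕ) (A : Multiset ℕ) (z : ℕ) :
    SW d A z = SW d (A.filter fun a => ¬ d ∣ a) z := by
  unfold SW
  induction A using Multiset.induction_on with
  | empty => simp
  | cons a A ih =>
    by_cases h : d ∣ a
    · rw [Multiset.filter_cons_of_neg (p := fun a => ¬ d ∣ a) _ (by simpa using h),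
        Multiset.map_cons, Multiset.sum_cons, ih,
        (ZMod.natCast_eq_zero_iff (z * a) d).mpr (h.mul_left z), saw_zero, zero_add]
    · rw [Multiset.filter_cons_of_pos (p := fun a => ¬ d ∣ a) _ h, Multiset.map_cons,
        Multiset.sum_cons, Multiset.map_cons, Multiset.sum_cons, ih]

/-- The exceptional case is impossible. -/
lemma no_exc {q d m : ℕ} {A1 A2 : Multiset ℕ} (H : Setting q d m A1 A2) {h : ℕ} {s T : ℕ → ℤ}
    (D : Data q d A1 h s T) (hT1 : ∀ z, Nat.Coprime z d → T z = 1 ∨ T z = -1)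
    (hII : ∀ z, Nat.Coprime z d → s z = d * T z)
    (hn : nz d A1 = h ∨ (nz d A1 = h + 2 ∧
      ∀ r : ℕ, r.Prime → r ∣ d → 8 * r ≤ nz d A1 * (r + 1))) : False := by
  have hd0 := H.hd
  have hN : NeZero d := ⟨hd0⟩
  have hdo := H.dodd
  have hdz : (0 : ℤ) < d := by exact_mod_cast Nat.pos_of_ne_zero hd0
  have hh := D.hpos H
  set B := A1.filter fun a => ¬ d ∣ a with hBdef
  have hcB : Multiset.card B = nz d A1 := rfl
  have hB : ∀ b ∈ B, ¬ d ∣ b := fun b hb => (Multiset.mem_filter.mp hb).2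
  have hSTB : ∀ z, ST d B z = ST d A1 z := fun z => (ST_filter d A1).symm
  have hSWB : ∀ z, SW d B z = SW d A1 z := fun z => (SW_filt d A1 z).symm
  have hmain : ∀ z, Nat.Coprime z d →
      2 * (B.map fun b => (nd d ((z * b : ℕ) : ZMod d) : ℤ)).sum ≤ (d - 1) * (nz d A1 - h) := by
    intro z hz
    have h1 : (B.map fun b => th d (z * b) * (nd d ((z * b : ℕ) : ZMod d) : ℤ)).sum = 0 := by
      have h2 := SW_nd hdo B z
      rw [hSWB, hSTB, ← D.hs z hz, ← D.hT z hz, hII z hz] at h2
      linarith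
    have h2 := sum_nd_le hdo (T z) (hT1 z hz) B z (fun b hb => by
      rw [dvd_coprime_mul hz]; exact hB b hb)
    rw [h1, mul_zero, sub_zero, hSTB, ← D.hT z hz, hcB] at h2
    have h3 : T z * (h * T z) = h := by
      rcases hT1 z hz with h | h <;> rw [h] <;> ring
    rw [h3] at h2
    exact h2
  have hcast : ∀ z, (B.map fun b => (nd d ((z * b : ℕ) : ZMod d) : ℤ)).sum =
      (((B.map fun b => nd d ((z * b : ℕ) : ZMod d)).sum : ℕ) : ℤ) := by
    intro z
    rw [Nat.cast_multiset_sum, Multiset.map_map]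
    rfl
  rcases hn with hn | ⟨hn, hr⟩
  · obtain ⟨b, hb⟩ := Multiset.card_pos_iff_exists_mem.mp (by omega : 0 < Multiset.card B)
    have h1 := hmain 1 (Nat.coprime_one_left d)
    rw [hn, sub_self, mul_zero, hcast] at h1
    have h2 : nd d ((1 * b : ℕ) : ZMod d) ≤
        (B.map fun b => nd d ((1 * b : ℕ) : ZMod d)).sum :=
      Multiset.single_le_sum (fun x _ => Nat.zero_le x) _
        (Multiset.mem_map_of_mem (fun b => nd d ((1 * b : ℕ) : ZMod d)) hb)
    have h3 : 0 < nd d ((1 * b : ℕ) : ZMod d) := by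
      apply nd_pos
      rw [Ne, ZMod.natCast_eq_zero_iff, one_mul]
      exact hB b hb
    omega
  · refine excl hdo B hB (by omega) hr ?_
    intro z hz
    have h1 := hmain z hz
    have h2 : (((h + 2 : ℕ) : ℤ) - h) = 2 := by push_cast; ring
    rw [hn, hcast, h2] at h1
    omega

end Pool.Agent.V1161
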