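import Pool.Agent.V1161.Psi

/-!
The general form of the integrality: the element `y` is killed by three.
-/

namespace Pool.Agent.V1161

open Finset Pool.Agent.H916R2 Pool.Agent.Y2

/-- the good components -/
def GC (r e X : ℕ) : Prop :=
  X = 0 ∨ (∃ f, f < e ∧ (5 ≤ r ∨ f + 2 ≤ e) ∧ 2 * X + r ^ f = r ^ e) ∨
    (r = 3 ∧ X = 2 * 3 ^ (e - 1))

lemma pow_bound {r e f : ℕ} (hr3 : 3 ≤ r) (hf : f < e) (h : 5 ≤ r ∨ f + 2 ≤ e) :
    5 * r ^ f ≤ r ^ e ∧ (r ^ e = r * r ^ (e - 1)) ∧ r ^ f ≤ r ^ (e - 1) ∧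
      (r = 3 → 3 * r ^ f ≤ r ^ (e - 1)) := by
  obtain ⟨k, rfl⟩ : ∃ k, e = f + 1 + k := ⟨e - (f + 1), by omega⟩
  have hr0 : 0 < r := by omega
  have h1 : r ^ f ≤ r ^ (f + 1 + k - 1) := Nat.pow_le_pow_right hr0 (by omega)
  refine ⟨?_, ?_, h1, ?_⟩
  · rcases h with h | h
    · calc 5 * r ^ f ≤ r * r ^ f := Nat.mul_le_mul_right _ h
        _ = r ^ (f + 1) := by ring
        _ ≤ _ := Nat.pow_le_pow_right hr0 (by omega)
    · obtain ⟨l, rfl⟩ : ∃ l, k = l + 1 := ⟨k - 1, by omega⟩
      calc 5 * r ^ f ≤ (r * r) * r ^ f := Nat.mul_le_mul_right _ (by nlinarith)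
        _ = r ^ (f + 2) := by ring
        _ ≤ _ := Nat.pow_le_pow_right hr0 (by omega)
  · have : f + 1 + k = (f + 1 + k - 1) + 1 := by omega
    nth_rewrite 1 [this]
    rw [pow_succ, mul_comm]
  · intro h3
    have h4 : f + 2 ≤ f + 1 + k := by
      rcases h with h | h
      · omega
      · exact h
    obtain ⟨l, rfl⟩ : ∃ l, k = l + 1 := ⟨k - 1, by omega⟩
    calc 3 * r ^ f = r * r ^ f := by rw [h3]
      _ = r ^ (f + 1) := by ring
      _ ≤ _ := Nat.pow_le_pow_right hr0 (by omega)

lemma GC_TT {r m x : ℕ} (hr3 : 3 ≤ r)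
    (h : GC r (m.factorization r) (x % r ^ (m.factorization r))) : TT r m x := by
  unfold TT
  rcases h with h | ⟨f, hf, h1, h2⟩ | ⟨h1, h2⟩
  · exact Or.inl h
  · right
    obtain ⟨h3, h4, h5, h6⟩ := pow_bound hr3 hf h1
    set X := x % r ^ (m.factorization r)
    set P := r ^ (m.factorization r)
    set P' := r ^ (m.factorization r - 1)
    set p := r ^ f
    by_cases hr : r = 3
    · have := h6 hr
      rw [hr] at h4
      have hp : 0 < p := pow_pos (by omega) f
      omega
    · have h7 : 4 * P' ≤ P := by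
        rw [h4]; exact Nat.mul_le_mul_right _ (by omega)
      have hp : 0 < P' := pow_pos (by omega) _
      have h8 : P' * 5 ≤ P ∨ r = 4 := by
        by_cases h : r = 4
        · exact Or.inr h
        · left
          rw [h4, mul_comm]; exact Nat.mul_le_mul_right _ (by omega)
      omega
  · right
    rw [h2, h1]
    have : 0 < 3 ^ (m.factorization r - 1) := pow_pos (by norm_num) _
    rw [h1] at this
    omega

/-- negation -/
lemma GC_TT_neg {r m x x' : ℕ} (hr3 : 3 ≤ r)
    (hx : r ^ (m.factorization r) ∣ x + x')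
    (h : x % r ^ (m.factorization r) = 0 ∨ (∃ f, f < m.factorization r ∧
      (5 ≤ r ∨ f + 2 ≤ m.factorization r) ∧
      2 * (x % r ^ (m.factorization r)) + r ^ f = r ^ (m.factorization r))) : TT r m x' := by
  unfold TT
  have hP : 0 < r ^ (m.factorization r) := pow_pos (by omega) _
  have hX := Nat.mod_lt x hP
  have hX' := Nat.mod_lt x' hP
  have hsum : r ^ (m.factorization r) ∣ x % r ^ (m.factorization r) +
      x' % r ^ (m.factorization r) := by
    rw [← Nat.modEq_zero_iff_dvd] at hx ⊢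
    exact ((Nat.mod_modEq _ _).add (Nat.mod_modEq _ _)).trans hx
  obtain ⟨c, hc⟩ := hsum
  rcases h with h | ⟨f, hf, h1, h2⟩
  · left
    rw [h, zero_add] at hc
    by_contra hne
    have hc0 : c ≠ 0 := by rintro rfl; rw [mul_zero] at hc; exact hne hc
    have : r ^ (m.factorization r) * 1 ≤ r ^ (m.factorization r) * c :=
      Nat.mul_le_mul_left _ (Nat.one_le_iff_ne_zero.mpr hc0)
    omega
  · right
    obtain ⟨h3, h4, h5, h6⟩ := pow_bound hr3 hf h1
    have hp : 0 < r ^ f := pow_pos (by omega) f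
    have h7 : 3 * r ^ (m.factorization r - 1) ≤ r ^ (m.factorization r) := by
      rw [h4]; exact Nat.mul_le_mul_right _ hr3
    generalize x % r ^ (m.factorization r) = X at *
    generalize x' % r ^ (m.factorization r) = X' at *
    generalize r ^ (m.factorization r) = P at *
    generalize r ^ (m.factorization r - 1) = P' at *
    generalize r ^ f = p at *
    have hc2 : c < 2 := by
      by_contra hcon
      push Not at hcon
      have : P * 2 ≤ P * c := Nat.mul_le_mul_left _ hcon
      omega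
    interval_cases c
    · omega
    · omega

/-- the third case -/
lemma GC_neg_three {m x x' : ℕ} (he : 0 < m.factorization 3)
    (hx : 3 ^ (m.factorization 3) ∣ x + x')
    (h : x % 3 ^ (m.factorization 3) = 2 * 3 ^ (m.factorization 3 - 1)) :
    x' % 3 ^ (m.factorization 3) = 3 ^ (m.factorization 3 - 1) := by
  have hP : 0 < 3 ^ (m.factorization 3) := pow_pos (by omega) _
  have hX' := Nat.mod_lt x' hP
  have h4 : 3 ^ (m.factorization 3) = 3 * 3 ^ (m.factorization 3 - 1) := by
    obtain ⟨k, hk⟩ : ∃ k, m.factorization 3 = k + 1 := ⟨m.factorization 3 - 1, by omega⟩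
    rw [hk, Nat.add_sub_cancel, pow_succ, mul_comm]
  have hsum : 3 ^ (m.factorization 3) ∣ x % 3 ^ (m.factorization 3) +
      x' % 3 ^ (m.factorization 3) := by
    rw [← Nat.modEq_zero_iff_dvd] at hx ⊢
    exact ((Nat.mod_modEq _ _).add (Nat.mod_modEq _ _)).trans hx
  obtain ⟨c, hc⟩ := hsum
  rw [h] at hc
  generalize x' % 3 ^ (m.factorization 3) = X' at *
  generalize 3 ^ (m.factorization 3) = P at *
  generalize 3 ^ (m.factorization 3 - 1) = P' at *
  have hc2 : c < 2 := by
    by_contra hcon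
    push Not at hcon
    have : P * 2 ≤ P * c := Nat.mul_le_mul_left _ hcon
    omega
  interval_cases c
  · omega
  · omega

/-- the triple -/
lemma GC_TT_three {r m x x' : ℕ} (hr3 : 3 ≤ r) (he : 0 < m.factorization r)
    (hx : r ^ (m.factorization r) ∣ 3 * x + x')
    (h : GC r (m.factorization r) (x % r ^ (m.factorization r))) : TT r m x' := by
  unfold TT
  have hP : 0 < r ^ (m.factorization r) := pow_pos (by omega) _
  have hX := Nat.mod_lt x hP
  have hX' := Nat.mod_lt x' hP
  have hsum : r ^ (m.factorization r) ∣ 3 * (x % r ^ (m.factorization r)) +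
      x' % r ^ (m.factorization r) := by
    rw [← Nat.modEq_zero_iff_dvd] at hx ⊢
    exact (((Nat.mod_modEq _ _).mul_left 3).add (Nat.mod_modEq _ _)).trans hx
  obtain ⟨c, hc⟩ := hsum
  rcases h with h | ⟨f, hf, h1, h2⟩ | ⟨h1, h2⟩
  · left
    rw [h, mul_zero, zero_add] at hc
    by_contra hne
    have hc0 : c ≠ 0 := by rintro rfl; rw [mul_zero] at hc; exact hne hc
    have : r ^ (m.factorization r) * 1 ≤ r ^ (m.factorization r) * c :=
      Nat.mul_le_mul_left _ (Nat.one_le_iff_ne_zero.mpr hc0)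
    omega
  · right
    obtain ⟨h3, h4, h5, h6⟩ := pow_bound hr3 hf h1
    have hp : 0 < r ^ f := pow_pos (by omega) f
    have h7 : 3 * r ^ (m.factorization r - 1) ≤ r ^ (m.factorization r) := by
      rw [h4]; exact Nat.mul_le_mul_right _ hr3
    clear h4
    generalize x % r ^ (m.factorization r) = X at *
    generalize x' % r ^ (m.factorization r) = X' at *
    generalize r ^ (m.factorization r) = P at *
    generalize r ^ (m.factorization r - 1) = P' at *
    generalize r ^ f = p at *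
    have hc2 : c < 3 := by
      by_contra hcon
      push Not at hcon
      have : P * 3 ≤ P * c := Nat.mul_le_mul_left _ hcon
      omega
    interval_cases c
    · omega
    · omega
    · omega
  · left
    subst h1
    have h4 : 3 ^ (m.factorization 3) = 3 * 3 ^ (m.factorization 3 - 1) := by
      obtain ⟨k, hk⟩ : ∃ k, m.factorization 3 = k + 1 := ⟨m.factorization 3 - 1, by omega⟩
      rw [hk, Nat.add_sub_cancel, pow_succ, mul_comm]
    rw [h2] at hc
    generalize x' % 3 ^ (m.factorization 3) = X' at *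
    generalize 3 ^ (m.factorization 3) = P at *
    generalize 3 ^ (m.factorization 3 - 1) = P' at *
    have hc2 : c < 3 := by
      by_contra hcon
      push Not at hcon
      have : P * 3 ≤ P * c := Nat.mul_le_mul_left _ hcon
      omega
    interval_cases c
    · omega
    · omega
    · omega

/-- every element can be moved to a good one by a number prime to `r` -/
lemma exists_GC {r : ℕ} (hr : r.Prime) (hr3 : 3 ≤ r) (hr4 : r ≠ 4) (e y : ℕ) :
    ∃ κ, Nat.Coprime κ r ∧ GC r e ((κ * y) % r ^ e) := by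
  set X := y % r ^ e with hX
  have hP : 0 < r ^ e := pow_pos hr.pos e
  have hXl : X < r ^ e := Nat.mod_lt _ hP
  by_cases hX0 : X = 0
  · refine ⟨1, Nat.coprime_one_left r, Or.inl ?_⟩
    rw [one_mul]; exact hX0
  obtain ⟨f, w, hw, hXw⟩ := Nat.exists_eq_pow_mul_and_not_dvd hX0 r hr.one_lt.ne'
  have hwpos : 0 < w := Nat.pos_of_ne_zero (by rintro rfl; exact hw (dvd_zero r))
  have hfe : f < e := by
    by_contra hcon
    push Not at hcon
    have h1 : r ^ e ≤ r ^ f := Nat.pow_le_pow_right hr.pos hcon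
    have h2 : r ^ f * 1 ≤ r ^ f * w := Nat.mul_le_mul_left _ hwpos
    omega
  obtain ⟨k, hk⟩ : ∃ k, e = f + (k + 1) := ⟨e - f - 1, by omega⟩
  have hwc : Nat.Coprime w (r ^ (k + 1)) :=
    Nat.Coprime.pow_right _ ((Nat.coprime_comm).mp ((Nat.Prime.coprime_iff_not_dvd hr).mpr hw))
  have hR : 1 < r ^ (k + 1) := Nat.one_lt_pow (by omega) hr.one_lt
  have hrodd : r ^ (k + 1) % 2 = 1 := by
    rw [← Nat.odd_iff]
    apply Odd.pow
    rcases hr.eq_two_or_odd' with h | h
    · omega
    · exact h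
  -- the target
  obtain ⟨v, hv, hvl, hvt⟩ : ∃ v, ¬ r ∣ v ∧ v < r ^ (k + 1) ∧
      ((5 ≤ r ∨ f + 2 ≤ e) ∧ 2 * v + 1 = r ^ (k + 1) ∨ r = 3 ∧ k = 0 ∧ v = 2) := by
    by_cases h : 5 ≤ r ∨ f + 2 ≤ e
    · refine ⟨(r ^ (k + 1) - 1) / 2, ?_, by omega, Or.inl ⟨h, by omega⟩⟩
      intro h1
      have h2 : r ∣ 2 * ((r ^ (k + 1) - 1) / 2) := h1.mul_left 2
      have h3 : r ∣ 2 * ((r ^ (k + 1) - 1) / 2) + 1 := by
        have : 2 * ((r ^ (k + 1) - 1) / 2) + 1 = r ^ (k + 1) := by omega
        rw [this]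
        exact dvd_pow_self r (by omega)
      have h4 : r ∣ 1 := (Nat.dvd_add_right h2).mp h3
      exact hr.one_lt.ne' (Nat.dvd_one.mp h4)
    · push Not at h
      have h3 : r = 3 := by omega
      have h4 : k = 0 := by omega
      subst h3 h4
      exact ⟨2, by omega, by norm_num, Or.inr ⟨rfl, rfl, rfl⟩⟩
  obtain ⟨κ, _, hκ⟩ := Nat.exists_mul_mod_eq_of_coprime v hwc (by omega)
  have hκ' : w * κ ≡ v [MOD r ^ (k + 1)] := hκ
  have hκr : Nat.Coprime κ r := by
    rw [Nat.coprime_comm, Nat.Prime.coprime_iff_not_dvd hr]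
    intro h1
    apply hv
    have h2 : w * κ ≡ v [MOD r] := hκ'.of_dvd (dvd_pow_self r (by omega))
    exact (h2.dvd_iff dvd_rfl).mp (h1.mul_left w)
  refine ⟨κ, hκr, ?_⟩
  have h1 : κ * y ≡ r ^ f * v [MOD r ^ e] := by
    have h2 : κ * y ≡ κ * X [MOD r ^ e] := (Nat.mod_modEq y (r ^ e)).symm.mul_left κ
    have h3 : κ * X = r ^ f * (w * κ) := by rw [hXw]; ring
    rw [h3] at h2
    have h4 := Nat.ModEq.mul_left' (r ^ f) hκ'
    rw [← pow_add, ← hk] at h4
    exact h2.trans h4
  have h2 : r ^ f * v < r ^ e := by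
    rw [hk, pow_add]
    exact Nat.mul_lt_mul_of_pos_left hvl (pow_pos hr.pos f)
  have h3 : (κ * y) % r ^ e = r ^ f * v := by
    have : (κ * y) % r ^ e = (r ^ f * v) % r ^ e := h1
    rw [this, Nat.mod_eq_of_lt h2]
  rw [h3]
  rcases hvt with ⟨h4, h5⟩ | ⟨h4, h5, h6⟩
  · right; left
    refine ⟨f, hfe, h4, ?_⟩
    rw [hk, pow_add, ← h5]
    ring
  · right; right
    refine ⟨h4, ?_⟩
    rw [h6, hk, h5, h4]
    have : f + (0 + 1) - 1 = f := by omega
    rw [this, mul_comm]

lemma factorization_eq {q d m r : ℕ} (hqd : q * d = m) (hm : m ≠ 0) (hq : q.Prime)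
    (hrq : r ≠ q) : m.factorization r = d.factorization r := by
  have hd : d ≠ 0 := by rintro rfl; rw [mul_zero] at hqd; exact hm hqd.symm
  rw [← hqd, Nat.factorization_mul hq.ne_zero hd, Finsupp.add_apply,
    hq.factorization, Finsupp.single_apply, if_neg (Ne.symm hrq), zero_add]

/-- a common multiplier -/
lemma exists_mult {q d m : ℕ} (hqd : q * d = m) (hm : m ≠ 0) (hmo : m % 2 = 1)
    (y : ℕ) : ∃ κ, Nat.Coprime κ m ∧ ∀ r ∈ PO q m,
      GC r (m.factorization r) ((κ * y) % r ^ (m.factorization r)) := by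
  have hd0 : d ≠ 0 := by rintro rfl; rw [mul_zero] at hqd; exact hm hqd.symm
  have hdm : d ∣ m := Dvd.intro_left _ hqd
  have hodd : ∀ r : ℕ, r.Prime → r ∣ m → 3 ≤ r ∧ r ≠ 4 := by
    intro r hr hrm
    have h2 := hr.two_le
    constructor
    · by_contra hcon
      have : r = 2 := by omega
      subst this
      omega
    · rintro rfl
      revert hr; norm_num
  have hex : ∀ r, ∃ κ, r.Prime → r ∣ m → Nat.Coprime κ r ∧
      GC r (m.factorization r) ((κ * y) % r ^ (m.factorization r)) := by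
    intro r
    by_cases h : r.Prime ∧ r ∣ m
    · obtain ⟨κ, h1, h2⟩ := exists_GC h.1 (hodd r h.1 h.2).1 (hodd r h.1 h.2).2
        (m.factorization r) y
      exact ⟨κ, fun _ _ => ⟨h1, h2⟩⟩
    · exact ⟨0, fun h1 h2 => absurd ⟨h1, h2⟩ h⟩
  choose κf hκf using hex
  obtain ⟨κ, hκ⟩ := Nat.chineseRemainderOfFinset κf (fun r => r ^ (m.factorization r))
    m.primeFactors (fun r hr => (pow_pos (Nat.prime_of_mem_primeFactors hr).pos _).ne') (by
      intro r hr s hs hrs
      exact Nat.Coprime.pow _ _ ((Nat.coprime_primes (Nat.prime_of_mem_primeFactors hr)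
        (Nat.prime_of_mem_primeFactors hs)).mpr hrs))
  have hpos : ∀ r : ℕ, r.Prime → r ∣ m → 0 < m.factorization r := fun r hr hrm =>
    hr.factorization_pos_of_dvd hm hrm
  refine ⟨κ, ?_, ?_⟩
  · apply Nat.coprime_of_dvd
    intro r hr h1 h2
    have h3 := hκ r (Nat.mem_primeFactors.mpr ⟨hr, h2, hm⟩)
    have h4 : κ ≡ κf r [MOD r] := h3.of_dvd (dvd_pow_self r (hpos r hr h2).ne')
    have h5 : r ∣ κf r := (h4.dvd_iff dvd_rfl).mp h1
    have h6 := (hκf r hr h2).1
    have h7 : r ∣ Nat.gcd (κf r) r := Nat.dvd_gcd h5 dvd_rfl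
    rw [h6] at h7
    exact hr.one_lt.ne' (Nat.dvd_one.mp h7)
  · intro r hrP
    obtain ⟨hr, hrm, _⟩ := PO_prime hrP
    have h3 := hκ r (Nat.mem_primeFactors.mpr ⟨hr, hrm, hm⟩)
    have h4 : (κ * y) % r ^ (m.factorization r) = (κf r * y) % r ^ (m.factorization r) :=
      h3.mul_right y
    rw [h4]
    exact (hκf r hr hrm).2

theorem exists_psi2 {q d m y : ℕ} (hq : q.Prime) (hqd : q * d = m) (hm : m ≠ 0)
    (hmo : m % 2 = 1) (hnd : ¬ q ∣ d) (h3y : ¬ d ∣ 3 * y) :
    ∃ κ, Nat.Coprime κ m ∧ ∃ C : ℕ → ℤ, TD q m (PO q m) C ∧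
      ((∑ i ∈ range q, C (κ * y + i * d)) -
        ∑ i ∈ range q, C ((m - 1) * (κ * y) + i * d)) % 2 = 1 := by
  have hd0 : d ≠ 0 := by rintro rfl; rw [mul_zero] at hqd; exact hm hqd.symm
  have hdm : d ∣ m := Dvd.intro_left _ hqd
  have hqm : q ∣ m := Dvd.intro _ hqd
  have hdo : d % 2 = 1 := by
    have h1 := hmo
    rw [← hqd, ← Nat.odd_iff, Nat.odd_mul] at h1
    exact Nat.odd_iff.mp h1.2
  obtain ⟨κ, hκ, hG⟩ := exists_mult hqd hm hmo y
  refine ⟨κ, hκ, ?_⟩
  set y' := κ * y with hy'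
  have h3y' : ¬ d ∣ 3 * y' := by
    intro h
    apply h3y
    have h1 : d ∣ κ * (3 * y) := by
      have : κ * (3 * y) = 3 * y' := by rw [hy']; ring
      rw [this]; exact h
    exact (dvd_coprime_mul (Nat.Coprime.coprime_dvd_right hdm hκ)).mp h1
  have hr3 : ∀ r ∈ PO q m, 3 ≤ r := by
    intro r hr
    obtain ⟨h1, h2, _⟩ := PO_prime hr
    have := h1.two_le
    by_contra hcon
    have : r = 2 := by omega
    subst this
    omega
  have hfac : ∀ r ∈ PO q m, 0 < m.factorization r := fun r hr =>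
    (PO_prime hr).1.factorization_pos_of_dvd hm (PO_prime hr).2.1
  have hpd : ∀ r ∈ PO q m, r ^ (m.factorization r) ∣ d := by
    intro r hr
    rw [factorization_eq hqd hm hq (PO_prime hr).2.2]
    exact Nat.ordProj_dvd d r
  have hTTd : ∀ r ∈ PO q m, ∀ x, TT r m x ↔ TT r d x := by
    intro r hr x
    unfold TT
    rw [factorization_eq hqd hm hq (PO_prime hr).2.2]
  -- the chosen lift
  obtain ⟨j0, hj0, hj0q⟩ : ∃ j0 < q, ¬ q ∣ y' + j0 * d := by
    have h1 := card_not_dvd hq hnd y'
    have h2 : 0 < ((range q).filter (fun i => ¬ q ∣ y' + i * d)).card := by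
      rw [h1]; have := hq.two_le; omega
    obtain ⟨j, hj⟩ := Finset.card_pos.mp h2
    rw [mem_filter, mem_range] at hj
    exact ⟨j, hj.1, hj.2⟩
  obtain ⟨C, hC, hCv⟩ := exists_td hq hqm hm
    (fun x => if x = (y' + j0 * d) % m then 1 else 0)
  refine ⟨C, hC, ?_⟩
  set Ψ : ℕ → ℤ := fun n => ∑ i ∈ range q, C (n + i * d) with hΨ
  have hT : TD q d (PO q d) Ψ := push_td hq hqd hm hC
  -- values
  have hval : ∀ n j, (∀ r ∈ PO q m, TT r m n) →
      C (n + j * d) = if n + j * d ≡ y' + j0 * d [MOD m] then 1 else 0 := by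
    intro n j hn
    by_cases hqx : q ∣ n + j * d
    · rw [hC.supp hqm _ hqx, if_neg]
      intro h
      exact hj0q (((h.of_dvd hqm).dvd_iff dvd_rfl).mp hqx)
    · rw [hCv _ hqx]
      · rfl
      · intro r hr
        have h1 := hn r hr
        have h2 : (n + j * d) % r ^ (m.factorization r) = n % r ^ (m.factorization r) := by
          have : n + j * d ≡ n + 0 [MOD r ^ (m.factorization r)] :=
            Nat.ModEq.add_left n ((Nat.modEq_zero_iff_dvd).mpr ((hpd r hr).mul_left j))
          exact this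
        unfold TT at h1 ⊢
        rw [h2]
        exact h1
  have hΨ1 : Ψ y' = 1 := by
    have h1 : Ψ y' = ∑ j ∈ range q, if j = j0 then (1 : ℤ) else 0 := by
      refine sum_congr rfl fun j hj => ?_
      rw [hval y' j fun r hr => GC_TT (hr3 r hr) (hG r hr)]
      have hiff : y' + j * d ≡ y' + j0 * d [MOD m] ↔ j = j0 := by
        constructor
        · intro h
          have h5 : j * d ≡ j0 * d [MOD q * d] := by
            rw [hqd]
            exact Nat.ModEq.add_left_cancel' _ h
          have h6 : j ≡ j0 [MOD q] := Nat.ModEq.mul_right_cancel' hd0 h5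
          exact Nat.ModEq.eq_of_lt_of_lt h6 (mem_range.mp hj) hj0
        · rintro rfl; rfl
      simp only [hiff]
    rw [h1, Finset.sum_ite_eq', if_pos (mem_range.mpr hj0)]
  have hΨ0 : ∀ n, (∀ r ∈ PO q m, TT r m n) → ¬ n ≡ y' [MOD d] → Ψ n = 0 := by
    intro n hn hny
    apply sum_eq_zero
    intro j _
    rw [hval n j hn, if_neg]
    intro h
    apply hny
    have h1 := h.of_dvd hdm
    have h2 : n + j * d ≡ n + 0 [MOD d] :=
      Nat.ModEq.add_left n ((Nat.modEq_zero_iff_dvd).mpr (Dvd.intro_left j rfl))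
    have h3 : y' + j0 * d ≡ y' + 0 [MOD d] :=
      Nat.ModEq.add_left y' ((Nat.modEq_zero_iff_dvd).mpr (Dvd.intro_left j0 rfl))
    exact h2.symm.trans (h1.trans h3)
  -- the negative
  set a := (m - 1) * y' with ha
  have hay : m ∣ y' + a := by rw [ha, m_sub_one hm]; exact Dvd.intro _ rfl
  have hayd : d ∣ y' + a := hdm.trans hay
  have hcase : (∀ r ∈ PO q m, TT r m a) ∨ (3 ∈ PO q m ∧ ¬ TT 3 m a ∧
      ∀ r ∈ PO q m, r ≠ 3 → TT r m a) := by
    by_cases hall : ∀ r ∈ PO q m, TT r m a
    · exact Or.inl hall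
    · right
      have hr : ∀ r ∈ PO q m, r ≠ 3 → TT r m a := by
        intro r hr hr3'
        apply GC_TT_neg (x := y') (hr3 r hr) ((hpd r hr).trans hayd)
        rcases hG r hr with h | h | h
        · exact Or.inl h
        · exact Or.inr h
        · exact absurd h.1 hr3'
      push Not at hall
      obtain ⟨r, hr1, hr2⟩ := hall
      have hr3' : r = 3 := by
        by_contra h
        exact hr2 (hr r hr1 h)
      subst hr3'
      exact ⟨hr1, hr2, hr⟩
  have hΨa : Ψ a = 0 := by
    rcases hcase with hall | ⟨h3, hn3, hr⟩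
    · apply hΨ0 a hall
      intro h
      have h1 : d ∣ 2 * y' := by
        rw [← Nat.modEq_zero_iff_dvd] at hayd ⊢
        have h2 : y' + a ≡ y' + y' [MOD d] := Nat.ModEq.add_left y' h
        rw [two_mul]
        exact h2.symm.trans hayd
      have h2 : d ∣ y' := dvd_odd_mul (k := 1) hdo (by norm_num : 2 = 2 ^ 1) h1
      exact h3y' (h2.mul_left 3)
    · have h3d : 3 ∣ d := ((hpd 3 h3).trans dvd_rfl).trans dvd_rfl |> fun h =>
        (dvd_pow_self 3 (hfac 3 h3).ne').trans h
      have h3PO : 3 ∈ PO q d := (PO_level hq hm hqd).mp h3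
      have hdist := hT.dist 3 h3PO a
      rw [sum_range_succ, sum_range_succ, sum_range_succ, sum_range_zero, zero_add, zero_mul,
        add_zero] at hdist
      have hshift : ∀ i, 0 < i → i < 3 → Ψ (a + i * (d / 3)) = 0 := by
        intro i hi0 hi3
        apply hΨ0
        · intro r hr1
          by_cases h : r = 3
          · subst h
            rw [hTTd 3 h3] at hn3 ⊢
            exact TT_shift hd0 Nat.prime_three h3d hn3 hi0 hi3
          · have h1 := hr r hr1 h
            have h2 : r ^ (m.factorization r) ∣ d / 3 := by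
              have h4 : r ^ (m.factorization r) ∣ 3 * (d / 3) := by
                rw [Nat.mul_div_cancel' h3d]; exact hpd r hr1
              apply Nat.Coprime.dvd_of_dvd_mul_left _ h4
              exact Nat.Coprime.pow_left _ ((Nat.coprime_primes (PO_prime hr1).1
                Nat.prime_three).mpr h)
            have h5 : (a + i * (d / 3)) % r ^ (m.factorization r) =
                a % r ^ (m.factorization r) := by
              have : a + i * (d / 3) ≡ a + 0 [MOD r ^ (m.factorization r)] :=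
                Nat.ModEq.add_left a ((Nat.modEq_zero_iff_dvd).mpr (h2.mul_left i))
              exact this
            unfold TT at h1 ⊢
            rw [h5]
            exact h1
        · intro h
          apply h3y'
          have h1 : 3 * (a + i * (d / 3)) ≡ 3 * y' [MOD d] := h.mul_left 3
          have h2 : 3 * (a + i * (d / 3)) = 3 * a + i * d := by
            have : 3 * (d / 3) = d := Nat.mul_div_cancel' h3d
            calc 3 * (a + i * (d / 3)) = 3 * a + i * (3 * (d / 3)) := by ring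
              _ = _ := by rw [this]
          rw [h2] at h1
          have h4 : 3 * a + i * d ≡ 3 * a + 0 [MOD d] :=
            Nat.ModEq.add_left _ ((Nat.modEq_zero_iff_dvd).mpr (Dvd.intro_left i rfl))
          have h5 : 3 * y' ≡ 3 * a [MOD d] := h1.symm.trans h4
          have h6 : 3 * y' + 3 * y' ≡ 3 * a + 3 * y' [MOD d] := h5.add_right _
          have h7 : d ∣ 3 * a + 3 * y' := by
            have : 3 * a + 3 * y' = 3 * (y' + a) := by ring
            rw [this]; exact hayd.mul_left 3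
          have h8 : d ∣ 2 * (3 * y') := by
            rw [two_mul, ← Nat.modEq_zero_iff_dvd]
            exact h6.trans ((Nat.modEq_zero_iff_dvd).mpr h7)
          exact dvd_odd_mul (k := 1) hdo (by norm_num : 2 = 2 ^ 1) h8
      have h3a : Ψ (3 * a) = 0 := by
        apply hΨ0
        · intro r hr1
          apply GC_TT_three (x := y') (hr3 r hr1) (hfac r hr1) _ (hG r hr1)
          have : 3 * y' + 3 * a = 3 * (y' + a) := by ring
          rw [this]
          exact ((hpd r hr1).trans hayd).mul_left 3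
        · intro h
          have h1 : 3 * y' + 3 * a ≡ 3 * y' + y' [MOD d] := Nat.ModEq.add_left _ h
          have h2 : d ∣ 3 * y' + 3 * a := by
            have : 3 * y' + 3 * a = 3 * (y' + a) := by ring
            rw [this]; exact hayd.mul_left 3
          have h4 : d ∣ 4 * y' := by
            have : 4 * y' = 3 * y' + y' := by ring
            rw [this, ← Nat.modEq_zero_iff_dvd]
            exact h1.symm.trans ((Nat.modEq_zero_iff_dvd).mpr h2)
          have h5 : d ∣ y' := dvd_odd_mul (k := 2) hdo (by norm_num : 4 = 2 ^ 2) h4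
          exact h3y' (h5.mul_left 3)
      rw [hshift 1 (by norm_num) (by norm_num), hshift 2 (by norm_num) (by norm_num), h3a] at hdist
      linarith
  change (Ψ y' - Ψ a) % 2 = 1
  rw [hΨ1, hΨa]
  norm_num

lemma even_value2 {q d m : ℕ} {A1 A2 : Multiset ℕ} (H : Setting q d m A1 A2) (hnd : ¬ q ∣ d)
    {h : ℕ} (h2 : 2 * h = q - 1) {y : ℕ}
    (hy : ∀ z, Nat.Coprime z d → SW d A1 z = h * saw ((z * y : ℕ) : ZMod d))
    {C : ℕ → ℤ} (hC : TD q m (PO q m) C) {κ : ℕ} (hκ : Nat.Coprime κ m) :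
    ((∑ i ∈ range q, C (κ * y + i * d)) -
      ∑ i ∈ range q, C ((m - 1) * (κ * y) + i * d)) % 2 = 0 := by
  have hPp' : ∀ r ∈ PO q m, r.Prime ∧ r ∣ m := fun r hr =>
    ⟨(PO_prime hr).1, (PO_prime hr).2.1⟩
  have hC' := hC.mul hPp' hκ
  have h1 := even_value H hnd h2 hy hC'
  have hκq : Nat.Coprime κ q := Nat.Coprime.coprime_dvd_right (Dvd.intro _ H.hqd) hκ
  have e1 : ∀ x, ∑ i ∈ range q, C (κ * (x + i * d)) = ∑ i ∈ range q, C (κ * x + i * d) := by
    intro x
    rw [← coset_mul H.hq.pos H.hqd hC.per hκq (κ * x)]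
    refine sum_congr rfl fun i _ => ?_
    congr 1; ring
  rw [e1, e1] at h1
  have e2 : κ * ((m - 1) * y) = (m - 1) * (κ * y) := by ring
  rw [e2] at h1
  exact h1

/-- **Integrality.** -/
theorem integrality2 {q d m : ℕ} {A1 A2 : Multiset ℕ} (H : Setting q d m A1 A2) (hmo : m % 2 = 1)
    (hnd : ¬ q ∣ d) {h : ℕ} (h2 : 2 * h = q - 1) {y : ℕ}
    (hy : ∀ z, Nat.Coprime z d → SW d A1 z = h * saw ((z * y : ℕ) : ZMod d)) : d ∣ 3 * y := by
  by_contra hdy
  obtain ⟨κ, hκ, C, hC, hodd⟩ := exists_psi2 H.hq H.hqd H.hm hmo hnd hdy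
  have := even_value2 H hnd h2 hy hC hκ
  omega

end Pool.Agent.V1161
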