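import Pool.Agent.V1161.WU
import Pool.Agent.V1161.Psi2
import Pool.Agent.V1161.Eight

/-!
Hodge characters with any number of entries.
-/

namespace Pool.Agent.V1161

open Finset Pool.Agent.H916R2 Pool.Agent.Y2 Pool.Agent.Y2.Cv

lemma casesG {q d m N : ℕ} {A1 A2 : Multiset ℕ} (H : Setting q d m A1 A2) (hmo : m % 2 = 1)
    (hqN : N + 2 ≤ q) (hcard : Multiset.card A1 ≤ N) :
    (∀ z, Nat.Coprime z d → Pool.Agent.Y2.ST d A1 z = 0) ∨
    (¬ q ∣ d ∧ ∃ h y, 2 * h = q - 1 ∧ h ≤ Multiset.card A1 ∧ ¬ d ∣ y ∧ d ∣ 3 * y ∧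
      (∀ z, Nat.Coprime z d → SW d A1 z = h * saw ((z * y : ℕ) : ZMod d)) ∧
      (q % 3 = 1 → ∀ z, Nat.Coprime z d → SW d A2 z = 0) ∧
      (q % 3 = 2 → ∀ z, Nat.Coprime z d → SW d A2 z = - saw ((z * y : ℕ) : ZMod d))) := by
  obtain ⟨h, s, T, D⟩ := exists_data H
  have hd0 := H.hd
  have hN : NeZero d := ⟨hd0⟩
  have hdo := H.dodd
  have hqo := H.qodd
  have hnz := Setting.nz_le (d := d) (A1 := A1)
  have hh0 := D.hpos H
  have h2h' : nz d A1 < 2 * h := by
    rcases D.hh with ⟨h1, _⟩ | ⟨h1, _⟩ <;> omega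
  have h2hz : (nz d A1 : ℤ) < 2 * h := by exact_mod_cast h2h'
  have hTb : ∀ z, Nat.Coprime z d → |T z| ≤ 1 := by
    intro z hz
    have h1 := D.hT z hz
    have h2 := (ST_bound A1 hz).1
    rw [← h1, abs_mul, Nat.abs_cast] at h2
    by_contra hcon
    push Not at hcon
    nlinarith
  by_cases hT0 : T 1 % 2 = 0
  · left
    intro z hz
    have h1 := hTb z hz
    have h2 := D.hpar z hz
    rw [abs_le] at h1
    have h3 : T z = 0 := by omega
    rw [← D.hT z hz, h3, mul_zero]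
  right
  have hT1 : ∀ z, Nat.Coprime z d → T z = 1 ∨ T z = -1 := by
    intro z hz
    have h1 := hTb z hz
    have h2 := D.hpar z hz
    rw [abs_le] at h1
    omega
  have hz1 := Nat.coprime_one_left d
  -- the number of entries
  have hnh1 : h ≤ nz d A1 := by
    obtain ⟨h2, h3⟩ := ST_bound A1 hz1
    rw [← D.hT 1 hz1] at h2 h3
    rcases hT1 1 hz1 with h5 | h5 <;> rw [h5] at h2
    · rw [mul_one, Nat.abs_cast] at h2
      exact_mod_cast h2
    · rw [mul_neg, mul_one, abs_neg, Nat.abs_cast] at h2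
      exact_mod_cast h2
  have hnd : ¬ q ∣ d := by
    rcases D.hh with ⟨h1, _⟩ | ⟨_, h1⟩
    · omega
    · exact h1
  have h2h : 2 * h = q - 1 := by
    rcases D.hh with ⟨_, h1⟩ | ⟨h1, _⟩
    · exact absurd h1 hnd
    · exact h1
  have hqc : Nat.Coprime q d := (Nat.Prime.coprime_iff_not_dvd H.hq).mpr hnd
  have hq1 : ((q : ℤ) - 1) = 2 * h := by
    have : q = 2 * h + 1 := by omega
    rw [this]; push_cast; ring
  have hhz : (h : ℤ) ≠ 0 := by omega
  -- the exceptional case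
  rcases trick H D hT1 with ⟨y, hyd, hs, hTy⟩ | hII
  swap
  · exact absurd (no_exc' H D hT1 hII h2h') (by simp)
  have hSWy : ∀ z, Nat.Coprime z d → SW d A1 z = h * saw ((z * y : ℕ) : ZMod d) := by
    intro z hz
    rw [← D.hs z hz, hs z hz]
  have h3y := integrality2 H hmo hnd h2h hSWy
  have hSS : ∀ u, Nat.Coprime u d →
      2 * SW d A2 (q * u) = s u - s (q * u) := by
    intro u hu
    have h1 := H.rel1 hnd hu
    rw [← D.hs u hu, ← D.hs _ (Nat.Coprime.mul_left hqc hu), hq1] at h1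
    apply mul_left_cancel₀ hhz
    linear_combination h1
  -- all units are multiples of `q`
  have hqu : ∀ z, Nat.Coprime z d → ∃ u, Nat.Coprime u d ∧ q * u ≡ z [MOD d] := by
    intro t ht
    obtain ⟨u, _, hu⟩ := Nat.exists_mul_mod_eq_of_coprime t hqc hd0
    have hu' : q * u ≡ t [MOD d] := hu
    refine ⟨u, ?_, hu'⟩
    have h3 : Nat.Coprime (q * u) d := by
      have : Nat.gcd (q * u) d = Nat.gcd t d := hu'.gcd_eq
      rw [Nat.Coprime, this]; exact ht
    exact Nat.Coprime.coprime_mul_left h3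
  refine ⟨hnd, h, y, h2h, le_trans hnh1 hnz, hyd, h3y, hSWy, ?_, ?_⟩
  · intro hq3 z hz
    obtain ⟨u, hu, hzu⟩ := hqu z hz
    have h1 := hSS u hu
    have hquc := Nat.Coprime.mul_left hqc hu
    rw [hs u hu, hs _ hquc, SW_congr A2 hzu] at h1
    have h2 : saw ((q * u * y : ℕ) : ZMod d) = saw ((u * y : ℕ) : ZMod d) := by
      congr 1
      rw [ZMod.natCast_eq_natCast_iff]
      obtain ⟨k, hk⟩ : ∃ k, q = 3 * k + 1 := ⟨q / 3, by omega⟩
      have e : q * u * y = u * y + (3 * y) * (k * u) := by rw [hk]; ring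
      rw [e]
      have : u * y + (3 * y) * (k * u) ≡ u * y + 0 [MOD d] :=
        Nat.ModEq.add_left _ ((Nat.modEq_zero_iff_dvd).mpr (h3y.mul_right _))
      exact this
    rw [h2, sub_self] at h1
    omega
  · intro hq3 z hz
    obtain ⟨u, hu, hzu⟩ := hqu z hz
    have h1 := hSS u hu
    have hquc := Nat.Coprime.mul_left hqc hu
    rw [hs u hu, hs _ hquc, SW_congr A2 hzu] at h1
    have h2 : saw ((u * y : ℕ) : ZMod d) = - saw ((q * u * y : ℕ) : ZMod d) := by
      rw [← saw_neg]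
      congr 1
      have h4 : ((u * y + q * u * y : ℕ) : ZMod d) = 0 := by
        rw [ZMod.natCast_eq_zero_iff]
        obtain ⟨k, hk⟩ : ∃ k, q = 3 * k + 2 := ⟨q / 3, by omega⟩
        have e : u * y + q * u * y = (3 * y) * ((k + 1) * u) := by rw [hk]; ring
        rw [e]
        exact h3y.mul_right _
      push_cast at h4 ⊢
      exact eq_neg_of_add_eq_zero_left h4
    have h3 : saw ((z * y : ℕ) : ZMod d) = saw ((q * u * y : ℕ) : ZMod d) :=
      (saw_per _ _ (hzu.mul_right y)).symm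
    rw [h2] at h1
    rw [h3]
    omega

/-- the data at level `3 * q` -/
def EData (q h : ℕ) : Prop :=
  ∀ w, w = 1 ∨ w = 2 → ∃ E : Multiset ℕ, (∀ x ∈ E, ¬ q ∣ x) ∧
    (∀ t, Nat.Coprime t (q * 3) → SW (q * 3) E t =
      (if q % 3 = 1 then 0 else (q : ℤ)) * saw ((t * w : ℕ) : ZMod 3)) ∧
    ∀ z, Nat.Coprime z 3 → SW 3 E z = h * saw ((z * w : ℕ) : ZMod 3)

lemma edata13 : EData 13 6 := by
  intro w hw
  obtain ⟨E, h1, h2, h3⟩ := exists_L13 w hw
  refine ⟨E, h1, ?_, h3⟩
  intro t ht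
  rw [if_pos (by norm_num), zero_mul]
  exact h2 t ht

lemma edata11 : EData 11 5 := by
  intro w hw
  obtain ⟨E, h1, h2, h3⟩ := exists_L11 w hw
  refine ⟨E, h1, ?_, h3⟩
  intro t ht
  rw [if_neg (by norm_num)]
  exact h2 t ht

set_option maxRecDepth 100000 in
lemma edata17 : EData 17 8 := by
  intro w hw
  rcases hw with rfl | rfl
  · refine ⟨([3, 10, 13, 16, 22, 28, 37, 43, 49] : List ℕ), ?_, ?_,
      checkL 3 _ 1 8 (by decide +kernel) dvd_rfl⟩
    · intro x hx
      simp only [Multiset.mem_coe, List.mem_cons, List.not_mem_nil, or_false] at hx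
      omega
    · rw [if_neg (by norm_num)]
      exact checkL 51 _ 1 17 (by decide +kernel) (by norm_num)
  · refine ⟨([48, 41, 38, 35, 29, 23, 14, 8, 2] : List ℕ), ?_, ?_,
      checkL 3 _ 2 8 (by decide +kernel) dvd_rfl⟩
    · intro x hx
      simp only [Multiset.mem_coe, List.mem_cons, List.not_mem_nil, or_false] at hx
      omega
    · rw [if_neg (by norm_num)]
      exact checkL 51 _ 2 17 (by decide +kernel) (by norm_num)

set_option maxRecDepth 100000 in
lemma edata19 : EData 19 9 := by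
  intro w hw
  rcases hw with rfl | rfl
  · refine ⟨([3, 7, 22, 25, 28, 34, 37, 40, 43, 46] : List ℕ), ?_, ?_,
      checkL 3 _ 1 9 (by decide +kernel) dvd_rfl⟩
    · intro x hx
      simp only [Multiset.mem_coe, List.mem_cons, List.not_mem_nil, or_false] at hx
      omega
    · rw [if_pos (by norm_num)]
      exact checkL 57 _ 1 0 (by decide +kernel) (by norm_num)
  · refine ⟨([54, 50, 35, 32, 29, 23, 20, 17, 14, 11] : List ℕ), ?_, ?_,
      checkL 3 _ 2 9 (by decide +kernel) dvd_rfl⟩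
    · intro x hx
      simp only [Multiset.mem_coe, List.mem_cons, List.not_mem_nil, or_false] at hx
      omega
    · rw [if_pos (by norm_num)]
      exact checkL 57 _ 2 0 (by decide +kernel) (by norm_num)

end Pool.Agent.V1161
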