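import Pool.Agent.V1161.G

/-!
The main induction for Hodge characters with at most `N` entries.
-/

namespace Pool.Agent.V1161

open Finset Pool.Agent.H916R2 Pool.Agent.Y2 Pool.Agent.Y2.Cv

/-- the condition on the degree -/
def Hyp (N m : ℕ) : Prop :=
  (∀ e, e ∣ m → (∀ r : ℕ, r.Prime → r ∣ e → r < N + 2) → GoodDegree2 (2 * e)) ∧
    (3 ∣ m → ∀ q : ℕ, q.Prime → q ∣ m → N + 2 ≤ q → 2 * N + 2 ≤ q ∨
      GoodDegree2 (2 * (q * 3)) ∧ ∃ h, 2 * h = q - 1 ∧ EData q h)

lemma Hyp.of_dvd {N m d : ℕ} (h : Hyp N m) (hd : d ∣ m) : Hyp N d :=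
  ⟨fun e he hr => h.1 e (he.trans hd) hr, fun h3 q hq hqd => h.2 (h3.trans hd) q hq (hqd.trans hd)⟩

theorem gen_zero (N : ℕ) (hN : 6 ≤ N) : ∀ m : ℕ, m % 2 = 1 → Hyp N m → ∀ A : Multiset ℕ,
    Multiset.card A ≤ N →
    (∀ a ∈ A, ¬ m ∣ a) → (∀ t, Nat.Coprime t m → SW m A t = 0) →
    ∀ (Q : Type) [AddCommGroup Q] (C : ZMod (2 * m) → Q), OddDist C → Kills2 m C →
      (A.map fun a : ℕ => C ((2 * a : ℕ) : ZMod (2 * m))).sum = 0 := by
  intro m
  induction m using Nat.strong_induction_on with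
  | _ m ih =>
  intro hodd hyp A hcard hA hrel Q _ C hC hK
  have hm : m ≠ 0 := by rintro rfl; simp at hodd
  have hNe : NeZero m := ⟨hm⟩
  by_cases hg : GoodDegree2 (2 * m)
  · have h1 := hK 1 m (one_mul m) hg A hrel
    simpa only [one_mul] using h1
  have hcC : OddDist (fun b : ZMod m => C (iota 2 b)) := hC.comp_iota rfl
  have hcv : ∀ a : ℕ, C (iota 2 (a : ZMod m)) = C ((2 * a : ℕ) : ZMod (2 * m)) := by
    intro a; rw [iota_natCast rfl]
  obtain ⟨q, hq, ⟨d, hd'⟩, hqN⟩ : ∃ q : ℕ, q.Prime ∧ q ∣ m ∧ N + 2 ≤ q := by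
    by_contra hcon
    push Not at hcon
    exact hg (hyp.1 m dvd_rfl hcon)
  have hqd : q * d = m := hd'.symm
  have H := mkSetting hq hqd hodd A hrel
  have hd0 := H.hd
  have hdo := H.dodd
  have hc1 := card_split q A
  have hdm : d < m := by
    rw [← hqd]
    have h4 : 0 < d := Nat.pos_of_ne_zero hd0
    nlinarith
  have hNd : NeZero (2 * d) := ⟨by omega⟩
  have hA2 := ndvd_split hqd hA
  have hypd : Hyp N d := hyp.of_dvd (Dvd.intro_left q hqd)
  -- induction
  have hIH : ∀ B : Multiset ℕ, Multiset.card B ≤ N → (∀ b ∈ B, ¬ d ∣ b) →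
      (∀ t, Nat.Coprime t d → SW d B t = 0) →
      (B.map fun b : ℕ => C ((2 * (q * b) : ℕ) : ZMod (2 * m))).sum = 0 := by
    intro B hB hBd hBrel
    have h5 := ih d hdm hdo hypd B hB hBd hBrel Q (fun b : ZMod (2 * d) => C (iota q b))
      (hC.comp_iota (by rw [← hqd]; ring)) (hK.comp hqd)
    rw [← h5]
    congr 1
    apply Multiset.map_congr rfl
    intro b _
    rw [iota_natCast (by rw [← hqd]; ring)]
    congr 2; ring
  rcases casesG H hodd hqN (by omega) with h0 | ⟨hnd, h, y, h2h, hhA, hyd, h3y, hSWy, hS1, hS2⟩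
  · -- vanishing signs
    obtain ⟨h1, h2⟩ := H.peel0 h0 (Or.inr (by
      have h3 : q * 2 ≤ q * (q - 1) := Nat.mul_le_mul_left q (by omega)
      omega))
    have h3 := h2 Q _ hcC
    have h4 : ((A.filter fun a => ¬ q ∣ a).map
        fun a : ℕ => C ((2 * a : ℕ) : ZMod (2 * m))).sum = 0 := by
      rw [← h3]
      congr 1
      apply Multiset.map_congr rfl
      intro a _
      exact (hcv a).symm
    rw [split_sum (q := q), h4, zero_add]
    exact hIH _ (by omega) hA2 h1
  -- elements of order three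
  obtain ⟨l, hl⟩ := three_dvd_of h3y hyd
  have h3m : 3 ∣ m := by rw [← hqd, hl]; exact ⟨q * l, by ring⟩
  obtain ⟨hgood, h', h2h', hE⟩ : GoodDegree2 (2 * (q * 3)) ∧ ∃ h, 2 * h = q - 1 ∧ EData q h := by
    rcases hyp.2 h3m q hq (Dvd.intro d hqd) hqN with h1 | h1
    · exfalso; omega
    · exact h1
  have hh' : h' = h := by omega
  subst hh'
  have hl3 : l * 3 = d := by rw [hl]; ring
  have hl0 : 0 < l := Nat.pos_of_ne_zero (by rintro rfl; exact hd0 (by rw [hl]))
  have hNdd : NeZero d := ⟨hd0⟩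
  obtain ⟨w, hw, hyw⟩ : ∃ w, (w = 1 ∨ w = 2) ∧ y ≡ l * w [MOD d] := by
    obtain ⟨v, hv⟩ : l ∣ y := by
      rw [hl] at h3y
      exact Nat.dvd_of_mul_dvd_mul_left (by norm_num) h3y
    refine ⟨v % 3, ?_, ?_⟩
    · have h1 : ¬ 3 ∣ v := by
        rintro ⟨u, hu⟩
        exact hyd (by rw [hv, hu, hl]; exact ⟨u, by ring⟩)
      omega
    · rw [hv, ← hl3]
      exact Nat.ModEq.mul_left' l (Nat.mod_modEq v 3).symm
  have hsawy : ∀ z : ℕ, saw ((z * y : ℕ) : ZMod d) = l * saw ((z * w : ℕ) : ZMod 3) := by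
    intro z
    rw [← saw_mul_level hd0 hl3, saw_per _ _ (hyw.mul_left z)]
    congr 2; ring
  have hcop3 : ∀ z, Nat.Coprime z d → Nat.Coprime z 3 := fun z hz =>
    Nat.Coprime.coprime_dvd_right (Dvd.intro_left l hl3) hz
  have hcopd : ∀ t, Nat.Coprime t m → Nat.Coprime t d := fun t ht =>
    Nat.Coprime.coprime_dvd_right (Dvd.intro_left q hqd) ht
  have hlm : l * (q * 3) = m := by rw [← hqd, hl]; ring
  have hcopq : ∀ t, Nat.Coprime t m → Nat.Coprime t (q * 3) := fun t ht =>
    Nat.Coprime.coprime_dvd_right (Dvd.intro_left l hlm) ht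
  have hqc : Nat.Coprime q d := (Nat.Prime.coprime_iff_not_dvd hq).mpr hnd
  obtain ⟨E, hE1, hE2, hE3⟩ := hE w hw
  -- comparison
  have hcompare :
      (∀ t, Nat.Coprime t m → SW m (A.filter fun a => ¬ q ∣ a) t = l * SW (q * 3) E t) →
      ((A.filter fun a => ¬ q ∣ a).map fun a : ℕ => C ((2 * a : ℕ) : ZMod (2 * m))).sum =
        (E.map fun x : ℕ => C ((2 * (l * x) : ℕ) : ZMod (2 * m))).sum := by
    intro hEm
    have hcomp := kill2 hq (Dvd.intro d hqd) hm (factor_pos hq (Dvd.intro d hqd) hm (by omega))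
      (A := A.filter fun a => ¬ q ∣ a) (B := E.map fun x => l * x)
      H.hA (by
        intro x hx h
        obtain ⟨x', hx', rfl⟩ := Multiset.mem_map.mp hx
        rcases (Nat.Prime.dvd_mul hq).mp h with h | h
        · exact hnd (by rw [hl]; exact h.mul_left 3)
        · exact hE1 x' hx' h) (by
        intro j t ht
        rcases Nat.eq_zero_or_pos j with rfl | hj
        · rw [pow_zero, one_mul, hEm t ht, SW_lmul hm hlm]
        · obtain ⟨i, rfl⟩ : ∃ i, j = i + 1 := ⟨j - 1, by omega⟩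
          have hc : Nat.Coprime (q ^ i * t) d := Nat.Coprime.mul_left
            (Nat.Coprime.pow_left _ hqc) (hcopd t ht)
          rw [show q ^ (i + 1) * t = q * (q ^ i * t) by ring, SW_level hm hqd, SW_level hm hqd,
            hSWy _ hc, SW_lmul hd0 hl3, hE3 _ (hcop3 _ hc), hsawy]
          ring) Q _ hcC
    have e2 : ((A.filter fun a => ¬ q ∣ a).map
        fun a : ℕ => C ((2 * a : ℕ) : ZMod (2 * m))).sum =
        ((A.filter fun a => ¬ q ∣ a).map fun a : ℕ => C (iota 2 (a : ZMod m))).sum := by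
      congr 1
      apply Multiset.map_congr rfl
      intro a _
      exact (hcv a).symm
    rw [e2, hcomp, Multiset.map_map]
    congr 1
    apply Multiset.map_congr rfl
    intro x _
    simp only [Function.comp_apply]
    exact hcv (l * x)
  rw [split_sum (q := q)]
  have hq3 : q % 3 = 1 ∨ q % 3 = 2 := by
    have : ¬ 3 ∣ q := by
      intro h
      have := (Nat.prime_dvd_prime_iff_eq Nat.prime_three hq).mp h
      omega
    omega
  rcases hq3 with hq3 | hq3
  · have hSA2 := hS1 hq3
    rw [if_pos hq3] at hE2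
    have h1 := hcompare (by
      intro t ht
      have h2 := H.hrel t ht
      rw [hSA2 t (hcopd t ht), mul_zero, add_zero] at h2
      rw [h2, hE2 t (hcopq t ht), zero_mul, mul_zero])
    rw [h1, hK l (q * 3) hlm hgood E (fun t ht => by rw [hE2 t ht, zero_mul]), zero_add]
    exact hIH _ (by omega) hA2 hSA2
  · have hSA2 := hS2 hq3
    rw [if_neg (by omega)] at hE2
    have h1 := hcompare (by
      intro t ht
      have h2 := H.hrel t ht
      rw [hSA2 t (hcopd t ht), hsawy] at h2
      rw [hE2 t (hcopq t ht)]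
      linear_combination h2)
    have h2 := hIH (((A.filter fun a => q ∣ a).map fun a => a / q) + {y})
      (by rw [Multiset.card_add, Multiset.card_singleton]; omega)
      (by
        intro b hb
        rcases Multiset.mem_add.mp hb with hb | hb
        · exact hA2 b hb
        · rw [Multiset.mem_singleton] at hb
          rw [hb]; exact hyd)
      (by
        intro t ht
        rw [SW_add, hSA2 t ht]
        unfold SW
        simp)
    rw [Multiset.map_add, Multiset.sum_add, Multiset.map_singleton,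
      Multiset.sum_singleton] at h2
    -- the relation of level `3 * q`
    have h3 := hK l (q * 3) hlm hgood (E + {q * (3 - w)}) (by
      intro t ht
      rw [SW_add, hE2 t ht]
      have h4 : SW (q * 3) {q * (3 - w)} t = - (q * saw ((t * w : ℕ) : ZMod 3)) := by
        unfold SW
        rw [Multiset.map_singleton, Multiset.sum_singleton]
        have h5 := saw_mul_level (m := q * 3) (d := 3) (q := q)
          (Nat.mul_ne_zero hq.ne_zero (by norm_num)) rfl (t * (3 - w))
        have h6 : t * (q * (3 - w)) = q * (t * (3 - w)) := by ring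
        rw [h6, h5]
        have h7 : ((t * (3 - w) : ℕ) : ZMod 3) = - ((t * w : ℕ) : ZMod 3) := by
          have h8 : ((t * w + t * (3 - w) : ℕ) : ZMod 3) = 0 := by
            rw [ZMod.natCast_eq_zero_iff]
            rcases hw with rfl | rfl
            · exact ⟨t, by norm_num; ring⟩
            · exact ⟨t, by norm_num; ring⟩
          rw [Nat.cast_add] at h8
          exact eq_neg_of_add_eq_zero_right h8
        rw [h7, saw_neg]
        ring
      rw [h4]
      ring)
    rw [Multiset.map_add, Multiset.sum_add, Multiset.map_singleton,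
      Multiset.sum_singleton] at h3
    have h4 : ((2 * (l * (q * (3 - w))) : ℕ) : ZMod (2 * m)) =
        - ((2 * (q * y) : ℕ) : ZMod (2 * m)) := by
      have h5 : q * y ≡ q * (l * w) [MOD m] := by
        have := Nat.ModEq.mul_left' q hyw
        rwa [hqd] at this
      have h6 : ((2 * (q * y) : ℕ) : ZMod (2 * m)) = ((2 * (q * (l * w)) : ℕ) : ZMod (2 * m)) :=
        (ZMod.natCast_eq_natCast_iff _ _ _).mpr (Nat.ModEq.mul_left' 2 h5)
      rw [h6]
      have h7 : ((2 * (l * (q * (3 - w))) + 2 * (q * (l * w)) : ℕ) : ZMod (2 * m)) = 0 := by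
        rw [ZMod.natCast_eq_zero_iff, ← hqd, hl]
        rcases hw with rfl | rfl
        · exact ⟨1, by norm_num; ring⟩
        · exact ⟨1, by norm_num; ring⟩
      rw [Nat.cast_add] at h7
      exact eq_neg_of_add_eq_zero_left h7
    rw [h4, hC.neg] at h3
    have h5 : (E.map fun x : ℕ => C ((2 * (l * x) : ℕ) : ZMod (2 * m))).sum =
        C ((2 * (q * y) : ℕ) : ZMod (2 * m)) := by
      have := h3
      rwa [← sub_eq_add_neg, sub_eq_zero] at this
    rw [h1, h5, add_comm]
    exact h2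

/-- **Hodge characters with at most `N` entries of odd degree.** -/
theorem main_gen {N m : ℕ} (hN : 6 ≤ N) (hodd : m % 2 = 1) (hyp : Hyp N m)
    (s : Multiset (ZMod m)) (hs : IsHodge m s)
    (hcard : Multiset.card s ≤ N) (hne : s ≠ 0) :
    Generated (2 * m) (SurfaceOrCurveProduct (2 * m))
      (s.map fun a => ((2 * a.val : ℕ) : ZMod (2 * m))) := by
  have hm : m ≠ 0 := by rintro rfl; simp at hodd
  have hNe : NeZero m := ⟨hm⟩
  have hN' : NeZero (2 * m) := ⟨by omega⟩
  have hiota : (s.map fun a => ((2 * a.val : ℕ) : ZMod (2 * m))) =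
      s.map (iota 2 : ZMod m → ZMod (2 * m)) := rfl
  have h2s := hs.iota (m := 2 * m) (k := 2) rfl
  have h1 := gen_zero N hN m hodd hyp (s.map ZMod.val) (by rwa [Multiset.card_map]) (by
    intro a ha h
    obtain ⟨b, hb', rfl⟩ := Multiset.mem_map.mp ha
    have h3 := (ZMod.natCast_eq_zero_iff b.val m).mpr h
    rw [ZMod.natCast_zmod_val] at h3
    exact hs.1 (h3 ▸ hb')) (fun t ht => saw_rel s hs t ht) _
    (cQ (2 * m) (SurfaceOrCurveProduct (2 * m))) cQ_oddDist (kills2_cQ hm)
  rw [Multiset.map_map] at h1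
  have h2 : ((s.map fun a => ((2 * a.val : ℕ) : ZMod (2 * m))).map
      (cQ (2 * m) (SurfaceOrCurveProduct (2 * m)))).sum = 0 := by
    rw [Multiset.map_map]
    exact h1
  rw [cQ_sum, QuotientAddGroup.eq_zero_iff] at h2
  rw [hiota] at h2 ⊢
  exact generated_of_mem_LL base_good base_neg h2s.1 h2s.2.1 (by
    intro h
    rw [Multiset.map_eq_zero] at h
    exact hne h) h2

end Pool.Agent.V1161
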