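import Mathlib

/-!
Independence of products of Gauss sums of the additive character, and their conjugates.
-/

set_option linter.unusedSectionVars false

namespace Pool.Agent.V1161

open Finset

section

variable {F : Type} [Field F] [Fintype F]

/-- any nontrivial additive character is a shift of any other one -/
lemma exists_shift {ψ ψ' : AddChar F ℂ} (h : ψ ≠ 1) (h' : ψ' ≠ 1) : ∃ b : Fˣ, ψ' = ψ.mulShift b := by
  classical
  have hp : ψ.IsPrimitive := AddChar.IsPrimitive.of_ne_one h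
  have hinj : Function.Injective (fun b : F => ψ.mulShift b) :=
    AddChar.to_mulShift_inj_of_isPrimitive hp
  have hbij := (Fintype.bijective_iff_injective_and_card _).mpr ⟨hinj, (AddChar.card_eq (α := F)).symm⟩
  obtain ⟨b, hb⟩ := hbij.2 ψ'
  have hb0 : b ≠ 0 := by
    rintro rfl
    apply h'
    rw [← hb]
    ext x
    simp
  exact ⟨Units.mk0 b hb0, hb.symm⟩

/-- the product of the Gauss sums of the entries of `s` -/
noncomputable def gprod {R : Type} [Field R] {m : ℕ} (s : Multiset (ZMod m)) (χ : MulChar F R)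
    (ψ : AddChar F R) : R :=
  (s.map fun a => gaussSum (χ ^ a.val) ψ).prod

lemma gprod_shift {m : ℕ} (s : Multiset (ZMod m)) {χ : MulChar F ℂ} (hχ : χ ^ m = 1)
    (ψ : AddChar F ℂ) (b : Fˣ) : gprod s χ (ψ.mulShift b) ^ m = gprod s χ ψ ^ m := by
  unfold gprod
  rw [← Multiset.prod_map_pow, ← Multiset.prod_map_pow]
  congr 1
  apply Multiset.map_congr rfl
  intro a _
  rw [← gaussSum_mulShift (χ ^ a.val) ψ b, mul_pow]
  have h1 : ((χ ^ a.val) (b : F)) ^ m = 1 := by
    rw [MulChar.pow_apply_coe, ← pow_mul, mul_comm, pow_mul]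
    have h2 : (χ (b : F)) ^ m = 1 := by
      rw [← MulChar.pow_apply_coe, hχ, MulChar.one_apply_coe]
    rw [h2, one_pow]
  rw [h1, one_mul]

lemma gprod_indep {m : ℕ} (s : Multiset (ZMod m)) {χ : MulChar F ℂ} (hχ : χ ^ m = 1)
    {ψ ψ' : AddChar F ℂ} (h : ψ ≠ 1) (h' : ψ' ≠ 1) : gprod s χ ψ' ^ m = gprod s χ ψ ^ m := by
  obtain ⟨b, rfl⟩ := exists_shift h h'
  exact gprod_shift s hχ ψ b

lemma gprod_comp {R R' : Type} [Field R] [Field R'] (f : R →+* R') {m : ℕ} (s : Multiset (ZMod m))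
    (χ : MulChar F R) (ψ : AddChar F R) :
    gprod s (χ.ringHomComp f) (f.toMonoidHom.compAddChar ψ) = f (gprod s χ ψ) := by
  unfold gprod
  rw [map_multiset_prod, Multiset.map_map]
  congr 1
  apply Multiset.map_congr rfl
  intro a _
  rw [MulChar.ringHomComp_pow]
  unfold gaussSum
  rw [Function.comp_apply, map_sum]
  refine sum_congr rfl fun x _ => ?_
  rw [map_mul]
  rfl

lemma exists_lift_mulChar {L : Type} [Field L] [IsAlgClosed L] [CharZero L] (ι : L →+* ℂ)
    (χ : MulChar F ℂ) : ∃ χL : MulChar F L, χL.ringHomComp ι = χ := by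
  classical
  have h1 : Function.Injective (MulChar.ringHomCompHom (R := F) ι) :=
    MulChar.injective_ringHomComp ι.injective
  have hc : Nat.card (MulChar F L) = Nat.card (MulChar F ℂ) := by
    rw [MulChar.card_eq_card_units_of_hasEnoughRootsOfUnity F L,
      MulChar.card_eq_card_units_of_hasEnoughRootsOfUnity F ℂ]
  have : Finite (MulChar F ℂ) := inferInstance
  have h2 := (Nat.bijective_iff_injective_and_card _).mpr ⟨h1, hc⟩
  obtain ⟨χL, h⟩ := h2.2 χ
  exact ⟨χL, h⟩

lemma exists_lift_addChar (F : Type) [Field F] [Fintype F] (L : Type) [Field L] [IsAlgClosed L]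
    [CharZero L] : ∃ ψL : AddChar F L, ψL ≠ 1 := by
  classical
  obtain ⟨p, hp⟩ := CharP.exists F
  have hpp : p.Prime := CharP.char_is_prime F p
  have : Fact p.Prime := ⟨hpp⟩
  have hne : NeZero (p : L) := ⟨by exact_mod_cast hpp.ne_zero⟩
  obtain ⟨ζ, hζ⟩ := HasEnoughRootsOfUnity.exists_primitiveRoot L p
  have halg : Algebra (ZMod p) F := ZMod.algebra F p
  have hprim := AddChar.zmodChar_primitive_of_primitive_root p hζ
  refine ⟨(AddChar.zmodChar p hζ.pow_eq_one).compAddMonoidHom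
    (Algebra.trace (ZMod p) F).toAddMonoidHom, ?_⟩
  obtain ⟨x, hx⟩ := Algebra.trace_surjective (ZMod p) F 1
  apply AddChar.ne_one_iff.2
  refine ⟨x, ?_⟩
  change AddChar.zmodChar p hζ.pow_eq_one (Algebra.trace (ZMod p) F x) ≠ 1
  rw [hx, AddChar.zmodChar_apply]
  have : Fact (1 < p) := ⟨hpp.one_lt⟩
  rw [ZMod.val_one, pow_one]
  exact hζ.ne_one hpp.one_lt

lemma zpowers_eq {G : Type} [CommGroup G] [Finite G] [IsCyclic G] {x y : G}
    (h : orderOf x = orderOf y) : Subgroup.zpowers x = Subgroup.zpowers y := by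
  have key : ∀ z : G, orderOf z = orderOf x →
      Subgroup.zpowers z = (powMonoidHom (orderOf x) : G →* G).ker := by
    intro z hz
    apply Subgroup.eq_of_le_of_card_ge
    · rw [Subgroup.zpowers_le, MonoidHom.mem_ker, powMonoidHom_apply, ← hz, pow_orderOf_eq_one]
    · rw [IsCyclic.card_powMonoidHom_ker, Nat.card_zpowers, hz]
      exact Nat.gcd_le_right _ (orderOf_pos x)
  rw [key x rfl, key y h.symm]

section

/-- **Conjugates.** If for one character `χ` of order `m` a power of the product of the Gauss sums is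
rational, then the same is true for all characters of order `m`. -/
theorem gprod_conj_aux {L : Type} [Field L] [IsAlgClosed L] [CharZero L] (A : Algebra ℚ L)
    (hN : Normal ℚ L) (ι : L →+* ℂ) {m : ℕ} (hm : 0 < m) (s : Multiset (ZMod m)) {χ χ' : MulChar F ℂ}
    (hχ : orderOf χ = m) (hχ' : orderOf χ' = m) {ψ ψ' : AddChar F ℂ} (h : ψ ≠ 1) (h' : ψ' ≠ 1)
    {k n : ℕ} (H : gprod s χ ψ ^ k = (n : ℂ)) :
    gprod s χ' ψ' ^ (m * k) = (n : ℂ) ^ m := by
  classical
  have hA : A = DivisionRing.toRatAlgebra := Subsingleton.elim _ _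
  subst hA
  -- `χ' = χ ^ u`
  obtain ⟨e⟩ := MulChar.mulEquiv_units F ℂ
  have hcyc : IsCyclic (MulChar F ℂ) := isCyclic_of_surjective e.symm e.symm.surjective
  obtain ⟨u, hu⟩ : ∃ u : ℕ, χ ^ u = χ' := by
    have h1 : Subgroup.zpowers χ = Subgroup.zpowers χ' := zpowers_eq (by rw [hχ, hχ'])
    have h2 : χ' ∈ Subgroup.zpowers χ := by rw [h1]; exact Subgroup.mem_zpowers χ'
    exact (IsOfFinOrder.mem_powers_iff_mem_zpowers (isOfFinOrder_of_finite χ)).mpr h2
  have hcop : Nat.Coprime u m := by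
    have h1 : orderOf (χ ^ u) = orderOf χ := by rw [hu, hχ', hχ]
    rw [orderOf_pow, hχ] at h1
    have h2 : Nat.gcd m u = 1 := by
      have h3 := Nat.div_mul_cancel (Nat.gcd_dvd_left m u)
      rw [h1] at h3
      exact Nat.eq_of_mul_eq_mul_left hm (by rw [h3, mul_one])
    rw [Nat.coprime_comm]; exact h2
  obtain ⟨χL, hχL⟩ := exists_lift_mulChar (F := F) ι χ
  obtain ⟨ψL, hψL⟩ := exists_lift_addChar F L
  have hne : NeZero ((m : ℕ) : L) := ⟨by exact_mod_cast hm.ne'⟩
  obtain ⟨ζ, hζ⟩ := HasEnoughRootsOfUnity.exists_primitiveRoot L m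
  -- the automorphism
  have hconj : IsConjRoot ℚ ζ (ζ ^ u) := by
    have h1 := Polynomial.cyclotomic_eq_minpoly_rat hζ hm
    have h2 := Polynomial.cyclotomic_eq_minpoly_rat (hζ.pow_of_coprime u hcop) hm
    unfold IsConjRoot
    rw [← h1, ← h2]
  obtain ⟨σ, hσ⟩ := isConjRoot_iff_exists_algEquiv.mp hconj.symm
  have hordL : orderOf χL = m := by
    rw [← hχ, ← hχL]
    exact (orderOf_injective (MulChar.ringHomCompHom ι)
      (MulChar.injective_ringHomComp ι.injective) χL).symm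
  have hval : χL.ringHomComp (σ : L →+* L) = χL ^ u := by
    ext x
    rw [MulChar.ringHomComp_apply, MulChar.pow_apply_coe]
    have hx : (χL (x : F)) ^ m = 1 := by
      rw [← MulChar.pow_apply_coe, ← hordL, pow_orderOf_eq_one, MulChar.one_apply_coe]
    have hmz : NeZero m := ⟨hm.ne'⟩
    obtain ⟨i, _, hi⟩ := hζ.eq_pow_of_pow_eq_one hx
    rw [← hi, RingHom.coe_coe, map_pow, hσ, ← pow_mul, ← pow_mul, mul_comm i u]
  -- pull back
  have hψι : ι.toMonoidHom.compAddChar ψL ≠ 1 := by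
    intro h1
    apply hψL
    ext x
    apply ι.injective
    have h2 := DFunLike.congr_fun h1 x
    simpa using h2
  have hψσ : (σ : L →+* L).toMonoidHom.compAddChar ψL ≠ 1 := by
    intro h1
    apply hψL
    ext x
    apply σ.injective
    have h2 := DFunLike.congr_fun h1 x
    simpa using h2
  have hψισ : ι.toMonoidHom.compAddChar ((σ : L →+* L).toMonoidHom.compAddChar ψL) ≠ 1 := by
    intro h1
    apply hψσ
    ext x
    apply ι.injective
    have h2 := DFunLike.congr_fun h1 x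
    simpa using h2
  have h1 : ι (gprod s χL ψL ^ (m * k)) = ι ((n : L) ^ m) := by
    rw [map_pow, ← gprod_comp, hχL, pow_mul,
      gprod_indep s (by rw [← hχ]; exact pow_orderOf_eq_one χ) h hψι, ← pow_mul, mul_comm m k,
      pow_mul, H, map_pow, map_natCast]
  have h2 : gprod s χL ψL ^ (m * k) = (n : L) ^ m := ι.injective h1
  have h3 : gprod s (χL ^ u) ((σ : L →+* L).toMonoidHom.compAddChar ψL) ^ (m * k) = (n : L) ^ m := by
    rw [← hval, gprod_comp, ← map_pow, h2, map_pow, map_natCast]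
  have h4 := congrArg ι h3
  rw [map_pow, ← gprod_comp, map_pow, map_natCast] at h4
  have h5 : (χL ^ u).ringHomComp ι = χ' := by
    rw [← MulChar.ringHomComp_pow, hχL, hu]
  rw [h5] at h4
  rw [pow_mul, gprod_indep s (by rw [← hχ']; exact pow_orderOf_eq_one χ') hψισ h', ← pow_mul]
  exact h4

end

theorem gprod_conj {m : ℕ} (hm : 0 < m) (s : Multiset (ZMod m)) {χ χ' : MulChar F ℂ}
    (hχ : orderOf χ = m) (hχ' : orderOf χ' = m) {ψ ψ' : AddChar F ℂ} (h : ψ ≠ 1) (h' : ψ' ≠ 1)
    {k n : ℕ} (H : gprod s χ ψ ^ k = (n : ℂ)) :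
    gprod s χ' ψ' ^ (m * k) = (n : ℂ) ^ m := by
  let A : Algebra ℚ (AlgebraicClosure ℚ) := AlgebraicClosure.instAlgebra ℚ
  have h1 : @Algebra.IsAlgebraic ℚ (AlgebraicClosure ℚ) _ _ A := AlgebraicClosure.isAlgebraic ℚ
  have h2 : @Normal ℚ (AlgebraicClosure ℚ) _ _ A := IsAlgClosure.normal ℚ _
  exact gprod_conj_aux A h2 (IsAlgClosed.lift : AlgebraicClosure ℚ →ₐ[ℚ] ℂ).toRingHom hm s hχ hχ'
    h h' H

end

end Pool.Agent.V1161
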