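import Pool.Agent.Y2.Cases

/-!
An integrality property of the part of a relation which is prime to `q`.
-/

namespace Pool.Agent.V1161

open Finset Pool.Agent.H916R2 Pool.Agent.Y2

section

variable {q d m : ℕ} {A1 A2 : Multiset ℕ}

lemma sum_lifts (hq : q.Prime) (hqd : q * d = m) {C : ℕ → ℤ}
    (hper : ∀ x y, x ≡ y [MOD m] → C x = C y) {a : ℕ} (ha : ¬ q ∣ a) :
    ∑ i ∈ range q, C ((1 + i * d) * a) = ∑ i ∈ range q, C (a + i * d) := by
  have hcop : Nat.Coprime a q :=
    (Nat.coprime_comm).mp ((Nat.Prime.coprime_iff_not_dvd hq).mpr ha)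
  rw [← coset_mul hq.pos hqd hper hcop a]
  refine sum_congr rfl fun i _ => ?_
  congr 1; ring

lemma m_sub_one {m : ℕ} (hm : m ≠ 0) (x : ℕ) : x + (m - 1) * x = m * x := by
  obtain ⟨k, hk⟩ : ∃ k, m = k + 1 := ⟨m - 1, by omega⟩
  rw [hk]
  simp
  ring

lemma coprime_m_sub_one {m : ℕ} (hm : m ≠ 0) : Nat.Coprime (m - 1) m := by
  have h1 := Nat.coprime_self_sub_right (m := 1) (n := m) (Nat.one_le_iff_ne_zero.mpr hm)
  rw [Nat.coprime_comm]
  exact h1.mpr (Nat.coprime_one_right m)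

lemma odd_sub {m : ℕ} (hm : m ≠ 0) {C : ℕ → ℤ} (hper : ∀ x y, x ≡ y [MOD m] → C x = C y) :
    ∀ x y, m ∣ x + y → C y - C ((m - 1) * y) = - (C x - C ((m - 1) * x)) := by
  intro x y hxy
  have h1 : y ≡ (m - 1) * x [MOD m] := by
    apply Nat.ModEq.add_left_cancel' x
    rw [m_sub_one hm]
    exact ((Nat.modEq_zero_iff_dvd).mpr hxy).trans
      ((Nat.modEq_zero_iff_dvd).mpr (Dvd.intro _ rfl)).symm
  have h2 : (m - 1) * y ≡ x [MOD m] := by
    apply Nat.ModEq.add_left_cancel' y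
    rw [m_sub_one hm, add_comm y x]
    exact ((Nat.modEq_zero_iff_dvd).mpr (Dvd.intro _ rfl)).trans
      ((Nat.modEq_zero_iff_dvd).mpr hxy).symm
  rw [hper _ _ h1, hper _ _ h2]
  ring

/-- The sum over the part prime to `q` and the sum over the fibres. -/
lemma inv_sum (H : Setting q d m A1 A2) (hnd : ¬ q ∣ d) {C : ℕ → ℤ} (hC : TD q m (PO q m) C) :
    ((q : ℤ) - 1) * (A1.map fun a => C a - C ((m - 1) * a)).sum =
      (A1.map fun a => (∑ i ∈ range q, C (a + i * d)) -
        ∑ i ∈ range q, C ((m - 1) * a + i * d)).sum := by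
  have hq := H.hq
  have hm := H.hm
  have hqd := H.hqd
  have hPp' : ∀ r ∈ PO q m, r.Prime ∧ r ∣ m := fun r hr =>
    ⟨(PO_prime hr).1, (PO_prime hr).2.1⟩
  have hqm : q ∣ m := Dvd.intro _ hqd
  have hm1q : ¬ q ∣ m - 1 := by
    intro h
    have h1 : q ∣ m - (m - 1) := Nat.dvd_sub hqm h
    have h2 : m - (m - 1) = 1 := by omega
    rw [h2] at h1
    exact hq.one_lt.ne' (Nat.dvd_one.mp h1)
  have hqc : Nat.Coprime q d := (Nat.Prime.coprime_iff_not_dvd hq).mpr hnd
  set Cm : ℕ → ℤ := fun x => C x - C ((m - 1) * x) with hCmdef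
  have hCm : TD q m (PO q m) Cm := hC.sub (hC.mul hPp' (coprime_m_sub_one hm))
  have hCmo : ∀ x y, m ∣ x + y → Cm y = - Cm x := odd_sub hm hC.per
  -- invariance
  have hinv' : ∀ i, ¬ q ∣ 1 + i * d →
      (A1.map fun a => Cm ((1 + i * d) * a)).sum = (A1.map Cm).sum := by
    intro i hi
    have hκd : 1 + i * d ≡ 1 [MOD d] := by
      have : 1 + i * d ≡ 1 + 0 [MOD d] :=
        Nat.ModEq.add_left 1 ((Nat.modEq_zero_iff_dvd).mpr (Dvd.intro_left i rfl))
      exact this
    have hκ : Nat.Coprime (1 + i * d) m := by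
      rw [← hqd]
      apply Nat.Coprime.mul_right
      · exact (Nat.coprime_comm).mp ((Nat.Prime.coprime_iff_not_dvd hq).mpr hi)
      · have : Nat.gcd (1 + i * d) d = Nat.gcd 1 d := hκd.gcd_eq
        rw [Nat.Coprime, this, Nat.gcd_one_left]
    have h1 := star2 hq hm (A1.map fun a => (1 + i * d) * a) A1 (fun _ a ha => by
      obtain ⟨b, hb, rfl⟩ := Multiset.mem_map.mp ha
      intro h
      rcases (Nat.Prime.dvd_mul hq).mp h with h | h
      · exact hi h
      · exact H.hA b hb h) (fun _ => H.hA) (fun j t htc => by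
      have e1 : SW m (A1.map fun a => (1 + i * d) * a) (q ^ j * t) =
          SW m A1 (q ^ j * (t * (1 + i * d))) := by
        unfold SW
        rw [Multiset.map_map]
        congr 1
        apply Multiset.map_congr rfl
        intro a _
        simp only [Function.comp_apply]
        congr 2
        ring
      rw [e1]
      exact H.hinv j t (1 + i * d) htc hκ hκd) hCm hCmo
    rw [Multiset.map_map] at h1
    exact h1
  have hzero : ∀ i, q ∣ 1 + i * d → (A1.map fun a => Cm ((1 + i * d) * a)).sum = 0 := by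
    intro i hi
    apply Multiset.sum_eq_zero
    intro x hx
    obtain ⟨a, _, rfl⟩ := Multiset.mem_map.mp hx
    exact hCm.supp hqm _ (hi.mul_right a)
  have hcount : ∑ i ∈ range q, (A1.map fun a => Cm ((1 + i * d) * a)).sum =
      ((q : ℤ) - 1) * (A1.map Cm).sum := by
    rw [← Finset.sum_filter_add_sum_filter_not (range q) (fun i => ¬ q ∣ 1 + i * d)]
    have e1 : ∑ i ∈ (range q).filter (fun i => ¬ q ∣ 1 + i * d),
        (A1.map fun a => Cm ((1 + i * d) * a)).sum =
        ∑ _i ∈ (range q).filter (fun i => ¬ q ∣ 1 + i * d), (A1.map Cm).sum :=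
      sum_congr rfl fun i hi => hinv' i (mem_filter.mp hi).2
    have e2 : ∑ i ∈ (range q).filter (fun i => ¬ ¬ q ∣ 1 + i * d),
        (A1.map fun a => Cm ((1 + i * d) * a)).sum = 0 := by
      apply sum_eq_zero
      intro i hi
      exact hzero i (not_not.mp (mem_filter.mp hi).2)
    rw [e1, e2, sum_const, card_not_dvd hq hnd, add_zero, nsmul_eq_mul,
      Nat.cast_sub hq.one_le, Nat.cast_one]
  rw [← hcount, ← Multiset.sum_map_sum]
  congr 1
  apply Multiset.map_congr rfl
  intro a ha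
  have h2 : ∀ i, Cm ((1 + i * d) * a) = C ((1 + i * d) * a) - C ((1 + i * d) * ((m - 1) * a)) := by
    intro i
    simp only [hCmdef]
    congr 2
    ring
  rw [Finset.sum_congr rfl fun i _ => h2 i, Finset.sum_sub_distrib,
    sum_lifts hq hqd hC.per (H.hA a ha), sum_lifts hq hqd hC.per]
  intro h
  rcases (Nat.Prime.dvd_mul hq).mp h with h | h
  · exact hm1q h
  · exact H.hA a ha h

/-- Evenness of the odd parts of the integral distributions. -/
lemma even_value (H : Setting q d m A1 A2) (hnd : ¬ q ∣ d) {h : ℕ} (h2 : 2 * h = q - 1) {y : ℕ}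
    (hy : ∀ z, Nat.Coprime z d → SW d A1 z = h * saw ((z * y : ℕ) : ZMod d))
    {C : ℕ → ℤ} (hC : TD q m (PO q m) C) :
    ((∑ i ∈ range q, C (y + i * d)) - ∑ i ∈ range q, C ((m - 1) * y + i * d)) % 2 = 0 := by
  have hq := H.hq
  have hm := H.hm
  have hqd := H.hqd
  have hd0 := H.hd
  set Ψ : ℕ → ℤ := fun n => ∑ i ∈ range q, C (n + i * d) with hΨ
  have hT : TD q d (PO q d) Ψ := push_td hq hqd hm hC
  have hPd : ∀ r ∈ PO q d, r.Prime ∧ r ∣ d := fun r hr => ⟨(PO_prime hr).1, (PO_prime hr).2.1⟩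
  have hdm : d ∣ m := Dvd.intro_left _ hqd
  have hcop : Nat.Coprime (m - 1) d := Nat.Coprime.coprime_dvd_right hdm (coprime_m_sub_one hm)
  have hT' : TD q d (PO q d) (fun n => Ψ n - Ψ ((m - 1) * n)) := hT.sub (hT.mul hPd hcop)
  have hmod : ∀ x, (m - 1) * x ≡ (d - 1) * x [MOD d] := by
    intro x
    apply Nat.ModEq.add_left_cancel' x
    rw [m_sub_one hm, m_sub_one hd0]
    exact ((Nat.modEq_zero_iff_dvd).mpr (hdm.mul_right x)).trans
      ((Nat.modEq_zero_iff_dvd).mpr (Dvd.intro _ rfl)).symm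
  have hodd : ∀ x y, d ∣ x + y → Ψ y - Ψ ((m - 1) * y) = - (Ψ x - Ψ ((m - 1) * x)) := by
    intro x y hxy
    rw [hT.per _ _ (hmod y), hT.per _ _ (hmod x)]
    exact odd_sub hd0 hT.per x y hxy
  have hqc : Nat.Coprime q d := (Nat.Prime.coprime_iff_not_dvd hq).mpr hnd
  have h1 := star2 hq hd0 A1 (Multiset.replicate h y) (fun h => absurd h hnd)
    (fun h => absurd h hnd) (fun j t ht => by
      have hc : Nat.Coprime (q ^ j * t) d := Nat.Coprime.mul_left (hqc.pow_left j) ht
      rw [hy _ hc]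
      unfold SW
      rw [Multiset.map_replicate, Multiset.sum_replicate, nsmul_eq_mul]) hT' hodd
  have h3 := inv_sum H hnd hC
  have h4 : (A1.map fun a => (∑ i ∈ range q, C (a + i * d)) -
        ∑ i ∈ range q, C ((m - 1) * a + i * d)).sum = h * (Ψ y - Ψ ((m - 1) * y)) := by
    have : (A1.map fun a => (∑ i ∈ range q, C (a + i * d)) -
        ∑ i ∈ range q, C ((m - 1) * a + i * d)).sum =
        (A1.map fun n => Ψ n - Ψ ((m - 1) * n)).sum := rfl
    rw [this, h1, Multiset.map_replicate, Multiset.sum_replicate, nsmul_eq_mul]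
  rw [h4] at h3
  have hh : ((q : ℤ) - 1) = 2 * h := by
    have := hq.one_le
    have h5 : ((q - 1 : ℕ) : ℤ) = ((2 * h : ℕ) : ℤ) := by rw [h2]
    rw [Nat.cast_sub this] at h5
    push_cast at h5
    linarith
  rw [hh] at h3
  have hh0 : (h : ℤ) ≠ 0 := by
    have := hq.two_le
    have hqo := H.qodd
    have : h ≠ 0 := by omega
    exact_mod_cast this
  have h6 : 2 * (A1.map fun a => C a - C ((m - 1) * a)).sum = Ψ y - Ψ ((m - 1) * y) := by
    apply mul_left_cancel₀ hh0
    linarith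
  rw [← h6]
  omega

end

end Pool.Agent.V1161
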