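import Pool.Agent.V1161.PeelE

/-!
The uniform statement: all degrees and all numbers of entries.
-/

namespace Pool.Agent.V1161

open Finset Pool.Agent.H916R2 Pool.Agent.Y2 Pool.Agent.Y2.Cv

/-- The bound `c * N + 2`, where `c` is `1`, `2`, `2`, `4` if the greatest common divisor of `m` and
`6` is `1`, `2`, `3`, `6`. -/
def bound (N m : ℕ) : ℕ := (if 2 ∣ m then 2 else 1) * (if 3 ∣ m then 2 else 1) * N + 2

/-- The small primes for the degree `m` and `N` entries: those below the bound; for odd `m` the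
primes `p` with `N + 2 ≤ p ≤ 19` are not counted as small. -/
def SmallPrime (N m p : ℕ) : Prop := p < bound N m ∧ (¬ 2 ∣ m → N + 2 ≤ p → 19 < p)

open Classical in
/-- The part of `m` composed of the small primes. -/
noncomputable def smallPart (N m : ℕ) : ℕ :=
  ∏ p ∈ m.primeFactors.filter (fun p => SmallPrime N m p), p ^ (m.factorization p)

lemma dvd_smallPart {N m e : ℕ} (hm : m ≠ 0) (he : e ∣ m)
    (h : ∀ p : ℕ, p.Prime → p ∣ e → SmallPrime N m p) : e ∣ smallPart N m := by
  classical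
  have he0 : e ≠ 0 := fun h0 => by rw [h0] at he; exact hm (zero_dvd_iff.mp he)
  have h1 : e = ∏ p ∈ e.primeFactors, p ^ (e.factorization p) :=
    (Nat.prod_factorization_pow_eq_self he0).symm
  rw [h1]
  unfold smallPart
  have hsub : e.primeFactors ⊆ m.primeFactors.filter (fun p => SmallPrime N m p) := by
    intro p hp
    have hp1 := Nat.prime_of_mem_primeFactors hp
    have hp2 := Nat.dvd_of_mem_primeFactors hp
    rw [mem_filter, Nat.mem_primeFactors]
    exact ⟨⟨hp1, hp2.trans he, hm⟩, h p hp1 hp2⟩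
  refine dvd_trans (Finset.prod_dvd_prod_of_dvd _ (fun p => p ^ (m.factorization p)) ?_)
    (Finset.prod_dvd_prod_of_subset _ _ _ hsub)
  intro p _
  exact pow_dvd_pow p ((Nat.factorization_le_iff_dvd he0 hm).mpr he p)

lemma good_of_dvd {M e : ℕ} (h : GoodDegree2 M) (he : e ∣ M) : GoodDegree2 e := by
  rcases h with h | h | h | h | h | ⟨h4, h⟩ | ⟨p, k, hp, h⟩
  · exact Or.inl fun p hp hpe => h p hp (hpe.trans he)
  · exact Or.inr (Or.inl fun p hp hpe => h p hp (hpe.trans he))
  · exact Or.inr (Or.inr (Or.inl fun p hp hpe => h p hp (hpe.trans he)))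
  · exact Or.inr (Or.inr (Or.inr (Or.inl fun p hp hpe => h p hp (hpe.trans he))))
  · exact Or.inr (Or.inr (Or.inr (Or.inr (Or.inl fun p hp hpe => h p hp (hpe.trans he)))))
  · refine Or.inr (Or.inr (Or.inr (Or.inr (Or.inr (Or.inl ⟨fun h' => h4 (h'.trans he), ?_⟩)))))
    rcases h with h | h | h
    · exact Or.inl fun p hp hpe => h p hp (hpe.trans he)
    · exact Or.inr (Or.inl fun p hp hpe => h p hp (hpe.trans he))
    · exact Or.inr (Or.inr fun p hp hpe => h p hp (hpe.trans he))
  · refine Or.inr (Or.inr (Or.inr (Or.inr (Or.inr (Or.inr ?_)))))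
    rcases h with h | h
    · rw [h] at he
      obtain ⟨j, _, hj⟩ := (Nat.dvd_prime_pow hp).mp he
      exact ⟨p, j, hp, Or.inl hj⟩
    · rw [h] at he
      obtain ⟨a, b, ha, hb, hab⟩ := (Nat.dvd_mul).mp he
      obtain ⟨j, _, hj⟩ := (Nat.dvd_prime_pow hp).mp hb
      rcases (Nat.dvd_prime Nat.prime_two).mp ha with h1 | h1
      · exact ⟨p, j, hp, Or.inl (by rw [← hab, h1, one_mul, hj])⟩
      · exact ⟨p, j, hp, Or.inr (by rw [← hab, h1, hj])⟩

lemma not_good_six {q : ℕ} (hq : q.Prime) (hq19 : 19 < q) : ¬ GoodDegree2 (2 * (q * 3)) := by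
  have hqd : q ∣ 2 * (q * 3) := (Dvd.intro _ rfl : q ∣ q * 3).mul_left 2
  have h3d : 3 ∣ 2 * (q * 3) := (Dvd.intro_left _ rfl : 3 ∣ q * 3).mul_left 2
  rintro (h | h | h | h | h | ⟨_, h | h | h⟩ | ⟨p, k, hp, h⟩)
  · have := h q hq hqd; omega
  · have := h q hq hqd; omega
  · have := h q hq hqd; omega
  · have := h q hq hqd; omega
  · have := h q hq hqd; omega
  · have := h q hq hqd; omega
  · have := h q hq hqd; omega
  · have := h q hq hqd; omega
  · have key : ∀ r : ℕ, r.Prime → r ≠ 2 → r ∣ 2 * (q * 3) → r = p := by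
      intro r hr hr2 hrd
      rcases h with h | h
      · rw [h] at hrd
        exact (Nat.prime_dvd_prime_iff_eq hr hp).mp (hr.dvd_of_dvd_pow hrd)
      · rw [h] at hrd
        rcases (Nat.Prime.dvd_mul hr).mp hrd with h1 | h1
        · exact absurd ((Nat.prime_dvd_prime_iff_eq hr Nat.prime_two).mp h1) hr2
        · exact (Nat.prime_dvd_prime_iff_eq hr hp).mp (hr.dvd_of_dvd_pow h1)
    have h1 := key q hq (by omega) hqd
    have h2 := key 3 Nat.prime_three (by norm_num) h3d
    omega

lemma good_of_odd_small {e : ℕ} (hodd : e % 2 = 1) (h : ∀ r : ℕ, r.Prime → r ∣ e → r < 11) :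
    GoodDegree2 (2 * e) := by
  by_contra hg
  obtain ⟨q, h1, h2, h3, _⟩ := bad_max hodd hg
  have := h q h1 h2
  omega

lemma good_three {q : ℕ} (hq : q.Prime) (h11 : 11 ≤ q) (h19 : q ≤ 19) :
    GoodDegree2 (2 * (q * 3)) ∧ ∃ h, 2 * h = q - 1 ∧ EData q h := by
  have h1 : q = 11 ∨ q = 13 ∨ q = 17 ∨ q = 19 := by
    interval_cases q
    all_goals first
      | (exfalso; revert hq; norm_num; done)
      | simp
  have hpr : ∀ p : ℕ, p.Prime → p ∣ 2 * (q * 3) → p = 2 ∨ p = 3 ∨ p = q := by
    intro p hp hpm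
    rcases hp.dvd_mul.mp hpm with h | h
    · exact Or.inl ((Nat.prime_dvd_prime_iff_eq hp Nat.prime_two).mp h)
    · rcases hp.dvd_mul.mp h with h | h
      · exact Or.inr (Or.inr ((Nat.prime_dvd_prime_iff_eq hp hq).mp h))
      · exact Or.inr (Or.inl ((Nat.prime_dvd_prime_iff_eq hp Nat.prime_three).mp h))
  rcases h1 with rfl | rfl | rfl | rfl
  · exact ⟨Or.inr (Or.inr (Or.inr (Or.inl hpr))), 5, by norm_num, edata11⟩
  · exact ⟨Or.inr (Or.inr (Or.inr (Or.inr (Or.inl hpr)))), 6, by norm_num, edata13⟩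
  · exact ⟨Or.inr (Or.inr (Or.inr (Or.inr (Or.inr (Or.inl ⟨by norm_num,
      Or.inr (Or.inl hpr)⟩))))), 8, by norm_num, edata17⟩
  · exact ⟨Or.inr (Or.inr (Or.inr (Or.inr (Or.inr (Or.inl ⟨by norm_num,
      Or.inr (Or.inr hpr)⟩))))), 9, by norm_num, edata19⟩

/-- at most eight entries -/
lemma hyp_eight {m : ℕ} (hodd : m % 2 = 1) : Hyp 8 m := by
  refine ⟨?_, ?_⟩
  · intro e he hr
    have hodd' : e % 2 = 1 := by
      obtain ⟨w, hw⟩ := he
      have h1 := hodd
      rw [hw, ← Nat.odd_iff, Nat.odd_mul] at h1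
      exact Nat.odd_iff.mp h1.1
    exact good_of_odd_small hodd' fun r h1 h2 => by have := hr r h1 h2; omega
  · intro _ q hq _ hqN
    by_cases h : q ≤ 19
    · right
      have : q ≠ 10 := by rintro rfl; revert hq; norm_num
      exact good_three hq (by omega) h
    · left; omega

lemma hyp_of_good {N m : ℕ} (hN : 8 ≤ N) (hodd : m % 2 = 1)
    (hgood : GoodDegree2 (2 * smallPart N m)) : Hyp N m := by
  have hm : m ≠ 0 := by rintro rfl; simp at hodd
  have h2m : ¬ 2 ∣ m := by omega
  have hbN : N + 2 ≤ bound N m := by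
    unfold bound
    rw [if_neg h2m]
    split_ifs <;> omega
  refine ⟨?_, ?_⟩
  · intro e he hr
    apply good_of_dvd hgood
    apply Nat.mul_dvd_mul_left
    apply dvd_smallPart hm he
    intro p hp hpe
    have := hr p hp hpe
    exact ⟨by omega, fun _ h => by omega⟩
  · intro h3 q hq hqm hqN
    by_cases h : q ≤ 19
    · right
      have : q ≠ 10 := by rintro rfl; revert hq; norm_num
      exact good_three hq (by omega) h
    · left
      by_contra hcon
      have hb : bound N m = 2 * N + 2 := by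
        unfold bound
        rw [if_neg h2m, if_pos h3]
      apply not_good_six hq (by omega)
      apply good_of_dvd hgood
      apply Nat.mul_dvd_mul_left
      have hq3 : Nat.Coprime q 3 := (Nat.coprime_primes hq Nat.prime_three).mpr (by omega)
      apply dvd_smallPart hm (Nat.Coprime.mul_dvd_of_dvd_of_dvd hq3 hqm h3)
      intro p hp hpe
      rcases (Nat.Prime.dvd_mul hp).mp hpe with h1 | h1
      · have h2 := (Nat.prime_dvd_prime_iff_eq hp hq).mp h1
        subst h2
        exact ⟨by omega, fun _ _ => by omega⟩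
      · have h2 := (Nat.prime_dvd_prime_iff_eq hp Nat.prime_three).mp h1
        subst h2
        exact ⟨by omega, fun _ h => by omega⟩

lemma hypE_of_good {N m : ℕ} (hm : m ≠ 0) (heven : m % 2 = 0)
    (hgood : GoodDegree2 (smallPart N m)) : HypE N m := by
  have h2m : 2 ∣ m := by omega
  by_cases h3 : 3 ∣ m
  · refine ⟨4 * N + 2, Or.inl rfl, ?_⟩
    intro e he _ hr
    apply good_of_dvd hgood
    apply dvd_smallPart hm he
    intro p hp hpe
    refine ⟨?_, fun h => absurd h2m h⟩
    have := hr p hp hpe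
    unfold bound
    rw [if_pos h2m, if_pos h3]
    omega
  · refine ⟨2 * N + 2, Or.inr ⟨rfl, h3⟩, ?_⟩
    intro e he _ hr
    apply good_of_dvd hgood
    apply dvd_smallPart hm he
    intro p hp hpe
    refine ⟨?_, fun h => absurd h2m h⟩
    have := hr p hp hpe
    unfold bound
    rw [if_pos h2m, if_neg h3]
    omega

/-- **The uniform statement.** -/
theorem uniform {N m : ℕ} (hm : m ≠ 0) (hgood : GoodDegree2 (Nat.lcm 2 (smallPart N m)))
    (s : Multiset (ZMod m)) (hs : IsHodge m s) (hcard : Multiset.card s ≤ N) (hne : s ≠ 0) :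
    Generated (Nat.lcm 2 m) (SurfaceOrCurveProduct (Nat.lcm 2 m))
      (s.map fun a => ((Nat.lcm 2 m / m * a.val : ℕ) : ZMod (Nat.lcm 2 m))) := by
  rcases Nat.even_or_odd m with he | ho
  · have heven := Nat.even_iff.mp he
    have h2m : 2 ∣ m := by omega
    have hlcm : Nat.lcm 2 m = m := Nat.lcm_eq_right h2m
    have hg : GoodDegree2 (smallPart N m) := good_of_dvd hgood (Nat.dvd_lcm_right 2 _)
    have h1 := main_genE hm heven (hypE_of_good hm heven hg) s hs hcard hne
    have hN : NeZero m := ⟨hm⟩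
    rw [hlcm, Nat.div_self (Nat.pos_of_ne_zero hm)]
    have h2 : (s.map fun a => ((1 * a.val : ℕ) : ZMod m)) = s := by
      conv_rhs => rw [← Multiset.map_id s]
      apply Multiset.map_congr rfl
      intro a _
      rw [one_mul, ZMod.natCast_zmod_val, id]
    rw [h2]
    exact h1
  · have hodd := Nat.odd_iff.mp ho
    have hc : Nat.Coprime 2 m := Nat.coprime_two_left.mpr ho
    have hlcm : Nat.lcm 2 m = 2 * m := hc.lcm_eq_mul
    have hsp : ¬ 2 ∣ smallPart N m := by
      classical
      intro h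
      unfold smallPart at h
      obtain ⟨p, hp, h1⟩ := (Nat.prime_two.prime.dvd_finsetProd_iff _).mp h
      have h2 := (Nat.prime_dvd_prime_iff_eq Nat.prime_two
        (Nat.prime_of_mem_primeFactors (mem_filter.mp hp).1)).mp
        (Nat.prime_two.dvd_of_dvd_pow h1)
      have h3 := Nat.dvd_of_mem_primeFactors (mem_filter.mp hp).1
      rw [← h2] at h3
      omega
    have hc2 : Nat.Coprime 2 (smallPart N m) :=
      (Nat.Prime.coprime_iff_not_dvd Nat.prime_two).mpr hsp
    rw [hc2.lcm_eq_mul] at hgood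
    rw [hlcm, Nat.mul_div_cancel _ (Nat.pos_of_ne_zero hm)]
    by_cases hN8 : N ≤ 8
    · exact main_gen (by norm_num : 6 ≤ 8) hodd (hyp_eight hodd) s hs (le_trans hcard hN8) hne
    · exact main_gen (by omega : 6 ≤ N) hodd (hyp_of_good (by omega) hodd hgood) s hs hcard hne

end Pool.Agent.V1161
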