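import Pool.Agent.V1161.Main
import Pool.Agent.H916Y.Surf

/-!
Characteristic `p` of odd order modulo the degree.
-/

set_option linter.unusedSectionVars false

namespace Pool.Agent.V1161

open Finset Pool.Agent.H916R2 Pool.Agent.Y2.Cv Pool.Agent.H916Z Pool.Agent.H916Y
open Pool.Agent.H916T (IsTate SurfaceTate Standard W isTate_of_W isUnit_p)

/-- the base in characteristic `p` -/
def PBase (p M : ℕ) (t : Multiset (ZMod M)) : Prop :=
  SurfaceTate p M t ∨ (∃ q : ℕ, q.Prime ∧ q ∣ M ∧ Standard q M t) ∨ CurveProduct M t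

lemma hodge_tate {p m : ℕ} (hpm : p.Coprime m) {s : Multiset (ZMod m)} (hs : IsHodge m s) :
    IsTate p m s := by
  obtain ⟨h0, he, hsum, hH⟩ := hs
  refine ⟨h0, he, hsum, fun t => ?_⟩
  have h1 : ∀ j ∈ range (orderOf (p : ZMod m)),
      2 * (s.map fun a => ((p : ZMod m) ^ j * ((t : ZMod m) * a)).val).sum =
        m * Multiset.card s := by
    intro j _
    have h := hH ((isUnit_p hpm).unit ^ j * t)
    simp only [Units.val_mul, Units.val_pow_eq_pow_val, IsUnit.unit_spec, mul_assoc] at h
    exact h
  rw [mul_sum, sum_congr rfl h1, sum_const, card_range, smul_eq_mul]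

/-- the union of the multiples by the powers of `p` -/
def orb (p f : ℕ) {m : ℕ} (s : Multiset (ZMod m)) : Multiset (ZMod m) :=
  ∑ j ∈ range f, s.map fun a => (p : ZMod m) ^ j * a

lemma card_orb (p f : ℕ) {m : ℕ} (s : Multiset (ZMod m)) :
    Multiset.card (orb p f s) = f * Multiset.card s := by
  induction f with
  | zero => simp [orb]
  | succ f ih =>
    unfold orb at ih ⊢
    rw [sum_range_succ, Multiset.card_add, ih, Multiset.card_map]
    ring

lemma neg_iota {k m0 m : ℕ} [NeZero m0] (h : k * m0 = m) (z : Multiset (ZMod m0)) :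
    (z.map Neg.neg).map (iota k : ZMod m0 → ZMod m) =
      (z.map (iota k : ZMod m0 → ZMod m)).map Neg.neg := by
  rw [Multiset.map_map, Multiset.map_map]
  apply Multiset.map_congr rfl
  intro a _
  rw [Function.comp_apply, Function.comp_apply, iota_neg h]

lemma map_orb {m : ℕ} {B : Type} (p f : ℕ) (s : Multiset (ZMod m)) (g : ZMod m → B) :
    (orb p f s).map g = ∑ j ∈ range f, s.map fun a => g ((p : ZMod m) ^ j * a) := by
  unfold orb
  rw [← Multiset.coe_mapAddMonoidHom, map_sum]
  refine sum_congr rfl fun j _ => ?_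
  rw [Multiset.coe_mapAddMonoidHom, Multiset.map_map]
  rfl

lemma msum_sum {A : Type} [AddCommMonoid A] (f : ℕ) (x : ℕ → Multiset A) :
    (∑ j ∈ range f, x j).sum = ∑ j ∈ range f, (x j).sum := by
  induction f with
  | zero => simp
  | succ f ih => rw [sum_range_succ, Multiset.sum_add, ih, sum_range_succ]

lemma hodge_orb {p m : ℕ} {s : Multiset (ZMod m)} (hpm : p.Coprime m) (hs : IsTate p m s) :
    IsHodge m (orb p (orderOf (p : ZMod m)) s) := by
  obtain ⟨h0, he, hsum, hH⟩ := hs
  refine ⟨?_, ?_, ?_, ?_⟩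
  · unfold orb
    intro h
    rw [Multiset.mem_sum] at h
    obtain ⟨j, _, hj⟩ := h
    obtain ⟨a, ha, ha0⟩ := Multiset.mem_map.mp hj
    rw [((isUnit_p hpm).pow j).mul_right_eq_zero] at ha0
    rw [ha0] at ha
    exact h0 ha
  · rw [card_orb]; exact he.mul_left _
  · unfold orb
    rw [msum_sum]
    apply sum_eq_zero
    intro j _
    rw [Multiset.sum_map_mul_left, Multiset.map_id', hsum, mul_zero]
  · intro t
    rw [map_orb, msum_sum, card_orb]
    have h1 := hH t
    have h2 : ∀ j ∈ range (orderOf (p : ZMod m)),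
        (s.map fun a => ((t : ZMod m) * ((p : ZMod m) ^ j * a)).val).sum =
          (s.map fun a => ((p : ZMod m) ^ j * ((t : ZMod m) * a)).val).sum := by
      intro j _
      congr 1
      apply Multiset.map_congr rfl
      intro a _
      rw [mul_left_comm]
    rw [sum_congr rfl h2, h1]
    ring

/-- raising the degree of the members of the family in characteristic zero -/
lemma gen_raise {p L N M : ℕ} [NeZero L] [NeZero M] (hM : N * L = M) (hpM : p.Coprime M)
    {t : Multiset (ZMod L)} (ht : Generated L (SurfaceOrCurveProduct L) t) :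
    Pool.Agent.H916T.Generated M (PBase p M) (t.map (iota N : ZMod L → ZMod M)) := by
  have hN : 0 < N := Nat.pos_of_ne_zero (by
    rintro rfl
    rw [zero_mul] at hM
    exact NeZero.ne M hM.symm)
  have hpL : p.Coprime L := Nat.Coprime.coprime_dvd_right (Dvd.intro_left _ hM) hpM
  induction ht with
  | ofBase s hs =>
    apply Pool.Agent.H916T.Generated.ofBase
    rcases hs with ⟨h1, h2⟩ | h
    · left
      exact surface_iota hM hpM ⟨hodge_tate hpL h1, h2⟩
    · right; right
      exact h.lift hM
  | pair a ha =>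
    rw [Multiset.insert_eq_cons, Multiset.map_cons, Multiset.map_singleton, iota_neg hM]
    exact Pool.Agent.H916T.Generated.pair _ fun h => ha (iota_eq_zero hM h)
  | standard q hq hq2 hqL a ha =>
    apply Pool.Agent.H916T.Generated.ofBase
    right; left
    obtain ⟨d, hd⟩ := hqL
    have hMd : M = q * (N * d) := by rw [← hM, hd]; ring
    have hMq : M / q = N * d := by rw [hMd, Nat.mul_div_cancel_left _ hq.pos]
    have hLq : L / q = d := by rw [hd, Nat.mul_div_cancel_left _ hq.pos]
    refine ⟨q, hq, ⟨N * d, hMd⟩, hq.odd_of_ne_two hq2, iota N a, ?_, ?_⟩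
    · rw [← iota_natMul hM]
      exact fun h => ha (iota_eq_zero hM h)
    · rw [Multiset.map_cons, iota_neg hM, iota_natMul hM, Multiset.map_map, hMq, hLq]
      congr 1
      apply Multiset.map_congr rfl
      intro i _
      rw [Function.comp_apply, iota_add hM, iota_natMul hM, iota_natCast hM]
  | standardTwo h2 a ha =>
    apply Pool.Agent.H916T.Generated.ofBase
    left
    obtain ⟨d, hd⟩ := h2
    have hMd : 2 * (N * d) = M := by rw [← hM, hd]; ring
    have hLd : L / 2 = d := by rw [hd, Nat.mul_div_cancel_left _ (by norm_num)]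
    have h3 : (2 : ZMod M) * iota N a ≠ 0 := by
      have h4 := iota_natMul hM 2 a
      rw [Nat.cast_ofNat, Nat.cast_ofNat] at h4
      rw [← h4]
      exact fun h => ha (iota_eq_zero hM h)
    have h5 := Pool.Agent.H916T.surface_standardTwo hpM hMd h3
    have h6 : (iota N (2 * a) : ZMod M) = 2 * iota N a := by
      have h4 := iota_natMul hM 2 a
      rw [Nat.cast_ofNat, Nat.cast_ofNat] at h4
      exact h4
    simp only [Multiset.insert_eq_cons, Multiset.map_cons, Multiset.map_singleton, hLd]
    rw [iota_add hM, iota_neg hM, h6, iota_natCast hM]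
    exact h5
  | join s t hs ht ihs iht =>
    rw [Multiset.map_add]
    exact Pool.Agent.H916T.Generated.join _ _ ihs iht
  | cancel a s h ih =>
    rw [Multiset.map_cons, Multiset.map_cons, iota_neg hM] at ih
    exact Pool.Agent.H916T.Generated.cancel _ _ ih

lemma link_unit {p M : ℕ} [NeZero M] (hpM : p.Coprime M) {x : ZMod M} (hx : x ≠ 0) (j : ℕ) :
    Link p x ((p : ZMod M) ^ j * x) := by
  have hu : IsUnit ((p : ZMod M) ^ j) := (isUnit_p hpM).pow j
  refine ⟨hx, fun h => hx (hu.mul_right_eq_zero.mp h), Or.inl ?_⟩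
  congr 1
  apply Nat.dvd_antisymm
  · rw [addOrderOf_dvd_iff_nsmul_eq_zero]
    have h1 := addOrderOf_nsmul_eq_zero ((p : ZMod M) ^ j * x)
    rw [nsmul_eq_mul, mul_left_comm] at h1
    rw [nsmul_eq_mul]
    exact hu.mul_right_eq_zero.mp h1
  · rw [addOrderOf_dvd_iff_nsmul_eq_zero]
    have h1 := addOrderOf_nsmul_eq_zero x
    rw [nsmul_eq_mul] at h1
    rw [nsmul_eq_mul, mul_left_comm, h1, mul_zero]

lemma link_neg {p M : ℕ} {x : ZMod M} (hx : x ≠ 0) : Link p x (-x) :=
  ⟨hx, neg_ne_zero.mpr hx, Or.inl (by rw [addOrderOf_neg])⟩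

open scoped Classical in
/-- **Odd order.** -/
theorem odd_order {p m N : ℕ} (hp : p.Prime) (hp2 : p ≠ 2) (hm : 0 < m) (hpm : p.Coprime m)
    (hf : Odd (orderOf (p : ZMod m)))
    (hgood : GoodDegree2 (Nat.lcm 2 (smallPart (orderOf (p : ZMod m) * N) m)))
    {s : Multiset (ZMod m)} (hs : IsTate p m s) (hcard : Multiset.card s ≤ N) (hne : s ≠ 0) :
    ∃ K : ℕ, 0 < K ∧ p.Coprime K ∧ Pool.Agent.H916T.Generated (K * m) (PBase p (K * m))
      (s.map fun a => ((K * a.val : ℕ) : ZMod (K * m))) := by
  have hmz : NeZero m := ⟨hm.ne'⟩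
  set f := orderOf (p : ZMod m) with hfdef
  have hf0 : 0 < f := hf.pos
  set L := Nat.lcm 2 m with hL
  have hLm : m ∣ L := Nat.dvd_lcm_right 2 m
  have hL0 : 0 < L := Nat.pos_of_ne_zero (Nat.lcm_ne_zero (by norm_num) hm.ne')
  have hLz : NeZero L := ⟨hL0.ne'⟩
  set κ := L / m with hκ
  have hκm : κ * m = L := Nat.div_mul_cancel hLm
  have hp2' : p.Coprime 2 := (Nat.coprime_primes hp Nat.prime_two).mpr hp2
  have hpL : p.Coprime L := by
    have h1 : L ∣ 2 * m := Nat.lcm_dvd_mul 2 m
    exact Nat.Coprime.coprime_dvd_right h1 (Nat.Coprime.mul_right hp2' hpm)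
  have hHodge := hodge_orb hpm hs
  rw [← hfdef] at hHodge
  have hne' : orb p f s ≠ 0 := by
    intro h
    have h1 := card_orb p f s
    rw [h, Multiset.card_zero] at h1
    rcases Nat.mul_eq_zero.mp h1.symm with h2 | h2
    · omega
    · exact hne (Multiset.card_eq_zero.mp h2)
  have hgen := uniform (N := f * N) hm.ne' hgood (orb p f s) hHodge
    (by rw [card_orb]; exact Nat.mul_le_mul_left f hcard) hne'
  -- the combination with the parity property
  set x : Multiset (ZMod L) := s.map (iota κ : ZMod m → ZMod L) with hx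
  set y : Multiset (ZMod L) := (orb p f s).map (iota κ : ZMod m → ZMod L) with hy
  have hx0 : (0 : ZMod L) ∉ x := by
    intro h
    obtain ⟨b, hb, hb0⟩ := Multiset.mem_map.mp h
    rw [iota_eq_zero hκm hb0] at hb
    exact hs.1 hb
  have hxT : IsTate p L x := isTate_iota hκm hpL hs
  have hyT : IsTate p L y := isTate_iota hκm hpL (hodge_tate hpm hHodge)
  have hwT : IsTate p L (x + y.map Neg.neg) := isTate_add hpL hxT (hyT.neg hpL)
  have hyeq : y = ∑ j ∈ range f, x.map fun a => (p : ZMod L) ^ j * a := by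
    rw [hy, map_orb]
    refine sum_congr rfl fun j _ => ?_
    rw [hx, Multiset.map_map]
    apply Multiset.map_congr rfl
    intro a _
    rw [Function.comp_apply]
    have h1 := iota_natMul hκm (p ^ j) a
    rw [Nat.cast_pow, Nat.cast_pow] at h1
    exact h1
  have hpar : ∀ a : ZMod L, Even ((x + y.map Neg.neg).countP
      (fun b => Relation.EqvGen (Link p) a b)) := by
    intro a
    have key : ∀ j, (x.map fun a => (p : ZMod L) ^ j * a).map Neg.neg =
        x.map fun b => -((p : ZMod L) ^ j * b) := by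
      intro j; rw [Multiset.map_map]; rfl
    have h1 : ∀ j, (x.map fun b => -((p : ZMod L) ^ j * b)).countP
        (fun b => Relation.EqvGen (Link p) a b) =
          x.countP (fun b => Relation.EqvGen (Link p) a b) := by
      intro j
      rw [Multiset.countP_map, Multiset.countP_eq_card_filter]
      congr 1
      apply Multiset.filter_congr
      intro b hb
      have hb0 : b ≠ 0 := fun h => hx0 (by rw [← h]; exact hb)
      have h2 : Relation.EqvGen (Link p) b (-((p : ZMod L) ^ j * b)) :=
        Relation.EqvGen.trans _ _ _ (Relation.EqvGen.rel _ _ (link_unit hpL hb0 j))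
          (Relation.EqvGen.rel _ _ (link_neg (link_unit hpL hb0 j).2.1))
      constructor
      · intro h; exact Relation.EqvGen.trans _ _ _ h (Relation.EqvGen.symm _ _ h2)
      · intro h; exact Relation.EqvGen.trans _ _ _ h h2
    have h3 : (y.map Neg.neg).countP (fun b => Relation.EqvGen (Link p) a b) =
        f * x.countP (fun b => Relation.EqvGen (Link p) a b) := by
      rw [hyeq, ← Multiset.coe_mapAddMonoidHom, map_sum, ← Multiset.coe_countPAddMonoidHom,
        map_sum]
      have h4 : ∀ j ∈ range f, Multiset.countPAddMonoidHom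
          (fun b => Relation.EqvGen (Link p) a b)
          (Multiset.mapAddMonoidHom Neg.neg (x.map fun a => (p : ZMod L) ^ j * a)) =
            x.countP (fun b => Relation.EqvGen (Link p) a b) := by
        intro j _
        rw [Multiset.coe_mapAddMonoidHom, Multiset.coe_countPAddMonoidHom, key, h1]
      rw [sum_congr rfl h4, sum_const, card_range, smul_eq_mul]
      rfl
    rw [Multiset.countP_add, h3]
    obtain ⟨g, hg⟩ := hf
    rw [hg]
    exact ⟨(g + 1) * x.countP (fun b => Relation.EqvGen (Link p) a b), by ring⟩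
  have hwne : x + y.map Neg.neg ≠ 0 := by
    intro h
    have h1 := congrArg Multiset.card h
    rw [Multiset.card_add, hx, Multiset.card_map, Multiset.card_zero] at h1
    exact hne (Multiset.card_eq_zero.mp (by omega))
  obtain ⟨N0, hN0, hpN0, H⟩ := parity_main hp hL0 hpL hwT hwne hpar
  set M := N0 * L with hM
  have hM0 : 0 < M := Nat.mul_pos hN0 hL0
  have hMz : NeZero M := ⟨hM0.ne'⟩
  have hpM : p.Coprime M := Nat.Coprime.mul_right hpN0 hpL
  have h1 := H M rfl
  have h2 : Pool.Agent.H916T.Generated M (PBase p M)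
      ((x + y.map Neg.neg).map (iota N0 : ZMod L → ZMod M)) :=
    generated_mono (fun s hs => hs.elim Or.inl fun h => Or.inr (Or.inl h)) h1
  have h3 : Pool.Agent.H916T.Generated M (PBase p M) (y.map (iota N0 : ZMod L → ZMod M)) :=
    gen_raise (p := p) rfl hpM hgen
  have h4 := Pool.Agent.H916T.Generated.join _ _ h2 h3
  have h5 : Pool.Agent.H916T.Generated M (PBase p M) (x.map (iota N0 : ZMod L → ZMod M)) := by
    apply cancel_multi (y.map (iota N0 : ZMod L → ZMod M))
    have e : (y.map Neg.neg).map (iota N0 : ZMod L → ZMod M) =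
        (y.map (iota N0 : ZMod L → ZMod M)).map Neg.neg := neg_iota rfl y
    rw [Multiset.map_add, e] at h4
    have e2 : x.map (iota N0 : ZMod L → ZMod M) + (y.map (iota N0 : ZMod L → ZMod M) +
        (y.map (iota N0 : ZMod L → ZMod M)).map Neg.neg) =
        x.map (iota N0 : ZMod L → ZMod M) + (y.map (iota N0 : ZMod L → ZMod M)).map Neg.neg +
          y.map (iota N0 : ZMod L → ZMod M) := by abel
    rw [e2]
    exact h4
  have hK : N0 * κ * m = M := by rw [hM, ← hκm]; ring
  refine ⟨N0 * κ, ?_, ?_, ?_⟩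
  · apply Nat.pos_of_ne_zero
    intro h
    rw [h, zero_mul] at hK
    omega
  · exact Nat.Coprime.coprime_dvd_right (Dvd.intro _ hK) hpM
  · have e : x.map (iota N0 : ZMod L → ZMod M) = s.map (iota (N0 * κ) : ZMod m → ZMod M) := by
      rw [hx, Multiset.map_map]
      apply Multiset.map_congr rfl
      intro a _
      rw [Function.comp_apply, iota_comp hM.symm]
    rw [e] at h5
    have key : ∀ M' : ℕ, M' = M → Pool.Agent.H916T.Generated M' (PBase p M')
        (s.map (iota (N0 * κ) : ZMod m → ZMod M')) := by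
      rintro _ rfl
      exact h5
    exact key _ hK

end Pool.Agent.V1161
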