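import Pool.Agent.V1161.G2

/-!
Peeling off large primes in all degrees.
-/

namespace Pool.Agent.V1161

open Finset Pool.Agent.H916R2 Pool.Agent.Y2 Pool.Agent.Y2.Cv

/-- two units with difference four -/
lemma exists_kappa {d : ℕ} (hd : d ≠ 0) : ∃ κ, Nat.Coprime κ d ∧ Nat.Coprime (κ + 4) d := by
  have h5 : Nat.Coprime (5 ^ (d.factorization 5)) (d / 5 ^ (d.factorization 5)) := by
    apply Nat.Coprime.pow_left
    rw [Nat.Prime.coprime_iff_not_dvd Nat.prime_five]
    exact Nat.not_dvd_ordCompl Nat.prime_five hd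
  obtain ⟨κ, h1, h2⟩ := Nat.chineseRemainder h5 2 1
  have hdd : d = 5 ^ (d.factorization 5) * (d / 5 ^ (d.factorization 5)) :=
    (Nat.ordProj_mul_ordCompl_eq_self d 5).symm
  have key : ∀ p : ℕ, p.Prime → p ∣ d → ¬ p ∣ κ ∧ ¬ p ∣ κ + 4 := by
    intro p hp hpd
    by_cases hp5 : p = 5
    · subst hp5
      have h3 : 5 ∣ 5 ^ (d.factorization 5) :=
        dvd_pow_self 5 (hp.factorization_pos_of_dvd hd hpd).ne'
      have h4 : κ % 5 = 2 % 5 := h1.of_dvd h3
      omega
    · have h3 : p ∣ d / 5 ^ (d.factorization 5) := by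
        rw [hdd] at hpd
        rcases (Nat.Prime.dvd_mul hp).mp hpd with h | h
        · exact absurd ((Nat.prime_dvd_prime_iff_eq hp Nat.prime_five).mp
            (hp.dvd_of_dvd_pow h)) hp5
        · exact h
      have h4 : κ ≡ 1 [MOD p] := h2.of_dvd h3
      constructor
      · intro h
        have h5 : p ∣ 1 := (h4.dvd_iff dvd_rfl).mp h
        exact hp.one_lt.ne' (Nat.dvd_one.mp h5)
      · intro h
        have h6 : κ + 4 ≡ 1 + 4 [MOD p] := h4.add_right 4
        have h5 : p ∣ 5 := (h6.dvd_iff dvd_rfl).mp h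
        exact hp5 ((Nat.prime_dvd_prime_iff_eq hp Nat.prime_five).mp h5)
  refine ⟨κ, ?_, ?_⟩
  · apply Nat.coprime_of_dvd
    intro p hp h3 h4
    exact (key p hp h4).1 h3
  · apply Nat.coprime_of_dvd
    intro p hp h3 h4
    exact (key p hp h4).2 h3

/-- the bounded combination of sawtooth functions -/
lemma lam_bound {d : ℕ} (hd : d ≠ 0) {κ e : ℕ} (hκ : Nat.Coprime κ d)
    (hκe : Nat.Coprime (κ + 2 * e) d) (x : ℕ) : ∃ Y : ℤ, (2 * d : ℤ) * Y =
      saw (((κ + 2 * e) * x : ℕ) : ZMod d) + (-1 : ℤ) * saw ((κ * x : ℕ) : ZMod d) +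
        (-(2 * e : ℤ)) * saw ((x : ℕ) : ZMod d) ∧ |Y| ≤ e := by
  have hN : NeZero d := ⟨hd⟩
  by_cases hx : d ∣ x
  · refine ⟨0, ?_, by simp⟩
    rw [(ZMod.natCast_eq_zero_iff _ d).mpr (hx.mul_left _),
      (ZMod.natCast_eq_zero_iff _ d).mpr (hx.mul_left _), (ZMod.natCast_eq_zero_iff _ d).mpr hx,
      saw_zero]
    ring
  · have h1 : ¬ d ∣ κ * x := by rwa [dvd_coprime_mul hκ]
    have h2 : ¬ d ∣ (κ + 2 * e) * x := by rwa [dvd_coprime_mul hκe]
    rw [saw_val _ h2, saw_val _ h1, saw_val _ hx]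
    have hd0 : 0 < d := Nat.pos_of_ne_zero hd
    have m1 : (κ + 2 * e) * x % d = (κ + 2 * e) * (x % d) % d :=
      ((Nat.mod_modEq x d).symm.mul_left (κ + 2 * e))
    have m2 : κ * x % d = κ * (x % d) % d := ((Nat.mod_modEq x d).symm.mul_left κ)
    rw [m1, m2]
    set v := x % d with hv
    have hvd : v < d := Nat.mod_lt _ hd0
    have e1 := Nat.div_add_mod ((κ + 2 * e) * v) d
    have e2 := Nat.div_add_mod (κ * v) d
    have l1 := Nat.mod_lt ((κ + 2 * e) * v) hd0
    have l2 := Nat.mod_lt (κ * v) hd0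
    generalize (κ + 2 * e) * v % d = r1 at *
    generalize κ * v % d = r2 at *
    generalize (κ + 2 * e) * v / d = a at *
    generalize κ * v / d = b at *
    have e1' : (d : ℤ) * a + r1 = (κ + 2 * e) * v := by exact_mod_cast e1
    have e2' : (d : ℤ) * b + r2 = κ * v := by exact_mod_cast e2
    have l1' : (r1 : ℤ) < d := by exact_mod_cast l1
    have l2' : (r2 : ℤ) < d := by exact_mod_cast l2
    have p1 : (0 : ℤ) ≤ r1 := by positivity
    have p2 : (0 : ℤ) ≤ r2 := by positivity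
    have hvz : (v : ℤ) < d := by exact_mod_cast hvd
    have hv0 : (0 : ℤ) ≤ v := by positivity
    have hez : (0 : ℤ) ≤ e := by positivity
    have hdz : (0 : ℤ) < d := by exact_mod_cast hd0
    refine ⟨e - (a - b), ?_, ?_⟩
    · linear_combination (-2 : ℤ) * e1' + 2 * e2'
    · have h3 : (d : ℤ) * (a - b) = 2 * e * v - (r1 - r2) := by linear_combination e1' - e2'
      have h4 : -(d : ℤ) < d * (a - b) := by
        rw [h3]
        have : (0 : ℤ) ≤ 2 * e * v := by positivity
        linarith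
      have h5 : (d : ℤ) * (a - b) < d * (2 * e + 1) := by
        rw [h3]
        nlinarith
      have h6 : (a : ℤ) - b < 2 * e + 1 := lt_of_mul_lt_mul_left h5 hdz.le
      have h7 : (-1 : ℤ) < a - b := by
        have : (d : ℤ) * (-1) < d * (a - b) := by linarith
        exact lt_of_mul_lt_mul_left this hdz.le
      rw [abs_le]
      constructor <;> omega

/-- a bounded family that grows is zero -/
lemma zero_of_double {d : ℕ} {f : ℕ → ℤ} {K : ℤ} (hK : ∀ z, Nat.Coprime z d → |f z| ≤ K)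
    (h : ∀ B : ℤ, (∀ z, Nat.Coprime z d → |f z| ≤ B) → ∀ z, Nat.Coprime z d → 2 * |f z| ≤ B) :
    ∀ z, Nat.Coprime z d → f z = 0 := by
  intro z hz
  by_contra hne
  have h1 : (1 : ℤ) ≤ |f z| := Int.one_le_abs hne
  have hex : ∃ B : ℕ, ∀ z, Nat.Coprime z d → |f z| ≤ B := by
    refine ⟨K.toNat, fun z' hz' => ?_⟩
    have h2 := hK z' hz'
    have h3 := Int.self_le_toNat K
    linarith
  classical
  have hB := Nat.find_spec hex
  have h4 := h _ hB
  have h5 : Nat.find hex / 2 < Nat.find hex := by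
    have h6 := hB z hz
    have h7 : 0 < Nat.find hex := by
      by_contra hcon
      have : Nat.find hex = 0 := by omega
      rw [this] at h6
      push_cast at h6
      linarith
    omega
  apply Nat.find_min hex h5
  intro z' hz'
  have h6 := h4 z' hz'
  omega

/-- the vanishing of the sums over the part prime to `q` -/
lemma zero_of_div {P : Finset ℕ} {d : ℕ} (hd : d ≠ 0) (hP : ∀ r ∈ P, r.Prime ∧ r ∣ d)
    (A : Multiset ℕ) (H : ℕ) (hdiv : ∀ Ψ : ℕ → ℤ, LD P d Ψ → ∃ V : ℤ, (H : ℤ) * V =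
      2 * (A.map Ψ).sum)
    (hbig : 4 * Multiset.card A < H ∨ (2 * Multiset.card A < H ∧ ¬ 3 ∣ d)) :
    ∀ z, Nat.Coprime z d → SW d A z = 0 := by
  have hdz : (2 * d : ℤ) ≠ 0 := by
    have : (d : ℤ) ≠ 0 := by exact_mod_cast hd
    simpa using this
  have hH0 : (0 : ℤ) < H := by
    have : 0 < H := by omega
    exact_mod_cast this
  have main : ∀ κ e : ℕ, Nat.Coprime κ d → Nat.Coprime (κ + 2 * e) d →
      2 * (e * Multiset.card A) < H → ∀ z, Nat.Coprime z d →
      SW d A ((κ + 2 * e) * z) = SW d A (κ * z) + 2 * e * SW d A z := by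
    intro κ e hκ hκe hlt z hz
    have h1 : ∀ x : ℕ, ∃ Y : ℤ, (2 * d : ℤ) * Y =
      saw (((κ + 2 * e) * (z * x) : ℕ) : ZMod d) + (-1 : ℤ) * saw ((κ * (z * x) : ℕ) : ZMod d) +
        (-(2 * e : ℤ)) * saw (((z * x) : ℕ) : ZMod d) ∧ |Y| ≤ e := fun x =>
      lam_bound hd hκ hκe (z * x)
    choose Y hY hYb using h1
    have hLD : LD P d Y := by
      apply LD.of_smul hdz
      have h2 : (fun x => (2 * d : ℤ) * Y x) = fun x =>
          saw ((((κ + 2 * e) * z) * x : ℕ) : ZMod d) +
            (-1 : ℤ) * saw (((κ * z) * x : ℕ) : ZMod d) +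
            (-(2 * e : ℤ)) * saw ((z * x : ℕ) : ZMod d) := by
        funext x
        rw [hY x, mul_assoc (κ + 2 * e) z x, mul_assoc κ z x]
      rw [h2]
      exact ((ld_saw hd hP (Nat.Coprime.mul_left hκe hz)).add
        ((ld_saw hd hP (Nat.Coprime.mul_left hκ hz)).smul (-1))).add
        ((ld_saw hd hP hz).smul _)
    obtain ⟨V, hV⟩ := hdiv Y hLD
    have hb := abs_sum_le A Y e (fun a _ => hYb a)
    have hV0 : V = 0 := by
      by_contra hne
      have h10 : (1 : ℤ) ≤ |V| := Int.one_le_abs hne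
      have h11 : (H : ℤ) * |V| = 2 * |(A.map Y).sum| := by
        have := congrArg abs hV
        rw [abs_mul, abs_mul, Nat.abs_cast] at this
        simpa using this
      have h12 : (2 * (e * Multiset.card A) : ℤ) < H := by exact_mod_cast hlt
      nlinarith
    rw [hV0, mul_zero] at hV
    have hs0 : (A.map Y).sum = 0 := by linarith
    have h5 : (2 * d : ℤ) * (A.map Y).sum =
        SW d A ((κ + 2 * e) * z) - SW d A (κ * z) - 2 * e * SW d A z := by
      unfold SW
      rw [← Multiset.sum_map_mul_left, ← Multiset.sum_map_mul_left, ← Multiset.sum_map_sub,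
        ← Multiset.sum_map_sub]
      congr 1
      apply Multiset.map_congr rfl
      intro x _
      rw [hY x, mul_assoc (κ + 2 * e) z x, mul_assoc κ z x]
      ring
    rw [hs0, mul_zero] at h5
    linarith
  have hK : ∀ z, Nat.Coprime z d → |SW d A z| ≤ Multiset.card A * ((d : ℤ) - 1) :=
    fun z _ => SW_abs hd A z
  rcases hbig with hbig | ⟨hbig, h3⟩
  · obtain ⟨κ, hκ, hκ4⟩ := exists_kappa hd
    apply zero_of_double hK
    intro B hB z hz
    have h1 := main κ 2 hκ hκ4 (by omega) z hz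
    have h2 := hB _ (Nat.Coprime.mul_left hκ hz)
    have h3 := hB _ (Nat.Coprime.mul_left hκ4 hz)
    have h4 : (4 : ℤ) * SW d A z = SW d A ((κ + 4) * z) - SW d A (κ * z) := by
      have : κ + 2 * 2 = κ + 4 := by ring
      rw [this] at h1
      push_cast at h1
      linarith
    have h5 : (4 : ℤ) * |SW d A z| ≤ B + B := by
      have h6 : |(4 : ℤ) * SW d A z| = 4 * |SW d A z| := by rw [abs_mul]; norm_num
      rw [← h6, h4]
      exact le_trans (abs_sub _ _) (add_le_add h3 h2)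
    linarith
  · have h3c : Nat.Coprime 3 d := (Nat.Prime.coprime_iff_not_dvd Nat.prime_three).mpr h3
    apply zero_of_double hK
    intro B hB z hz
    have h1 := main 1 1 (Nat.coprime_one_left d) h3c (by omega) z hz
    have h2 := hB _ (Nat.Coprime.mul_left h3c hz)
    have h4 : (3 : ℤ) * SW d A z = SW d A (3 * z) := by
      have : 1 + 2 * 1 = 3 := by norm_num
      rw [this, one_mul] at h1
      push_cast at h1
      linarith
    have h5 : (3 : ℤ) * |SW d A z| ≤ B := by
      have h6 : |(3 : ℤ) * SW d A z| = 3 * |SW d A z| := by rw [abs_mul]; norm_num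
      rw [← h6, h4]
      exact h2
    have h7 := abs_nonneg (SW d A z)
    linarith

/-- the setting: a relation of level `q * d` -/
structure SettingE (q d m : ℕ) (A1 A2 : Multiset ℕ) : Prop where
  hq : q.Prime
  hq3 : 3 ≤ q
  hqd : q * d = m
  hm : m ≠ 0
  hA : ∀ a ∈ A1, ¬ q ∣ a
  hrel : ∀ t, Nat.Coprime t m → SW m A1 t + q * SW d A2 t = 0

namespace SettingE

variable {q d m : ℕ} {A1 A2 : Multiset ℕ} (H : SettingE q d m A1 A2)

include H

lemma hd : d ≠ 0 := by
  have h1 := H.hqd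
  have h2 := H.hm
  rintro rfl
  rw [mul_zero] at h1
  exact h2 h1.symm

lemma hinv : ∀ i t κ, Nat.Coprime t m → Nat.Coprime κ m → κ ≡ 1 [MOD d] →
    SW m A1 (q ^ i * (t * κ)) = SW m A1 (q ^ i * t) := by
  intro i t κ ht hκ hκd
  rcases Nat.eq_zero_or_pos i with rfl | hi
  · simp only [pow_zero, one_mul]
    have h1 := H.hrel t ht
    have h2 := H.hrel (t * κ) (Nat.Coprime.mul_left ht hκ)
    have h3 : SW d A2 (t * κ) = SW d A2 t := by
      apply SW_congr
      have := hκd.mul_left t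
      rwa [mul_one] at this
    rw [h3] at h2
    linarith
  · apply SW_congr
    obtain ⟨j, rfl⟩ : ∃ j, i = j + 1 := ⟨i - 1, by omega⟩
    have h1 := hκd.mul_left t
    have h2 := Nat.ModEq.mul_left' q h1
    rw [H.hqd] at h2
    have h3 := h2.mul_left (q ^ j)
    have e1 : q ^ (j + 1) * (t * κ) = q ^ j * (q * (t * κ)) := by ring
    have e2 : q ^ (j + 1) * t = q ^ j * (q * (t * 1)) := by ring
    rw [e1, e2]
    exact h3

lemma PO_dvd : ∀ r ∈ PO q m, r.Prime ∧ r ∣ d := by
  intro r hr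
  obtain ⟨h1, h2, h3⟩ := PO_prime ((PO_level H.hq H.hm H.hqd).mp hr)
  exact ⟨h1, h2⟩

/-- the relation when `q` does not divide `d` -/
lemma rel1 (hnd : ¬ q ∣ d) {u : ℕ} (hu : Nat.Coprime u d) :
    SW d A1 (q * u) - SW d A1 u + (q - 1) * SW d A2 (q * u) = 0 := by
  have hq := H.hq
  have hqc : Nat.Coprime q d := (Nat.Prime.coprime_iff_not_dvd hq).mpr hnd
  have h1 := SW_sum_shift hq H.hqd H.hm H.hA (q * u)
  obtain ⟨k, hk⟩ : ∃ k, q = k + 1 := ⟨q - 1, by have := hq.pos; omega⟩
  have h2 : ∑ i ∈ range q, SW m A1 (q * u + i * d) =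
      ∑ i ∈ range k, SW m A1 (q * u + (i + 1) * d) + SW m A1 (q * u) := by
    conv_lhs => rw [hk]
    rw [sum_range_succ']
    rw [← hk]
    simp
  have h3 : ∀ i ∈ range k, SW m A1 (q * u + (i + 1) * d) = - (q * SW d A2 (q * u)) := by
    intro i hi
    have hi' : i + 1 < q := by have := mem_range.mp hi; omega
    have hc1 : Nat.Coprime (q * u + (i + 1) * d) d := by
      rw [Nat.coprime_add_mul_right_left]
      exact Nat.Coprime.mul_left hqc hu
    have hc2 : Nat.Coprime (q * u + (i + 1) * d) q := by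
      rw [Nat.coprime_comm, Nat.Prime.coprime_iff_not_dvd hq]
      intro h
      have h4 : q ∣ (i + 1) * d := (Nat.dvd_add_right (Dvd.intro _ rfl)).mp h
      rcases (Nat.Prime.dvd_mul hq).mp h4 with h5 | h5
      · have := Nat.le_of_dvd (Nat.succ_pos i) h5
        omega
      · exact hnd h5
    have h4 := H.hrel _ (by rw [← H.hqd]; exact Nat.Coprime.mul_right hc2 hc1)
    have h5 : SW d A2 (q * u + (i + 1) * d) = SW d A2 (q * u) := by
      apply SW_congr
      exact Nat.ModEq.add_left (q * u) ((Nat.modEq_zero_iff_dvd).mpr (Dvd.intro_left _ rfl))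
    rw [h5] at h4
    linarith
  rw [h2, sum_congr rfl h3, sum_const, card_range, SW_level H.hm H.hqd, nsmul_eq_mul] at h1
  have hq0 : (q : ℤ) ≠ 0 := by exact_mod_cast hq.ne_zero
  have hk' : (k : ℤ) = q - 1 := by rw [hk]; push_cast; ring
  rw [hk'] at h1
  apply mul_left_cancel₀ hq0
  linear_combination (-1) * h1

/-- the relation when `q` divides `d` -/
lemma rel2 (hd : q ∣ d) {t : ℕ} (ht : Nat.Coprime t d) : SW d A1 t + q * SW d A2 t = 0 := by
  have hq := H.hq
  have h1 := SW_sum_shift hq H.hqd H.hm H.hA t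
  have h3 : ∀ i ∈ range q, SW m A1 (t + i * d) = - (q * SW d A2 t) := by
    intro i _
    have hc1 : Nat.Coprime (t + i * d) d := by
      rw [Nat.coprime_add_mul_right_left]; exact ht
    have h4 := H.hrel _ (by
      rw [← H.hqd]; exact Nat.Coprime.mul_right (Nat.Coprime.coprime_dvd_right hd hc1) hc1)
    have h5 : SW d A2 (t + i * d) = SW d A2 t := by
      apply SW_congr
      exact Nat.ModEq.add_left t ((Nat.modEq_zero_iff_dvd).mpr (Dvd.intro_left _ rfl))
    rw [h5] at h4
    linarith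
  rw [sum_congr rfl h3, sum_const, card_range, nsmul_eq_mul] at h1
  have hq0 : (q : ℤ) ≠ 0 := by exact_mod_cast hq.ne_zero
  apply mul_left_cancel₀ hq0
  linear_combination (-1) * h1

/-- **Removal of the part prime to a large prime.** -/
theorem peel
    (hbig : 4 * Multiset.card A1 < q - 1 ∨ (2 * Multiset.card A1 < q - 1 ∧ ¬ 3 ∣ d)) :
    (∀ t, Nat.Coprime t d → SW d A2 t = 0) ∧
    ∀ (Q : Type) [AddCommGroup Q] (c : ZMod m → Q), OddDist c →
      (A1.map fun a : ℕ => c (a : ZMod m)).sum = 0 := by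
  have hq := H.hq
  have hm := H.hm
  have hd0 := H.hd
  have hq3 := H.hq3
  have hqz : (3 : ℤ) ≤ q := by exact_mod_cast hq3
  obtain ⟨e, m', he, hmu, hqm', _⟩ := decomp hm hq (Dvd.intro d H.hqd)
  have hqm : q ^ (e + 1) * m' = m := hmu.symm
  have hqd' : q ^ e * m' = d := by
    have h1 : q * (q ^ e * m') = q * d := by rw [H.hqd, ← hqm]; ring
    exact Nat.eq_of_mul_eq_mul_left hq.pos h1
  have hm'0 : m' ≠ 0 := by rintro rfl; rw [mul_zero] at hqm; exact hm hqm.symm
  have hm'm : m' ∣ m := Dvd.intro_left _ hqm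
  have hm'd : m' ∣ d := Dvd.intro_left _ hqd'
  -- the vanishing at the level `d`
  have hS : ∀ z, Nat.Coprime z d → SW d A1 z = 0 := by
    apply zero_of_div hd0 H.PO_dvd A1 (KS q (e + 1) e).card
      (fun Ψ hΨ => div_lemma hq (Nat.lt_succ_self e) hqm hqd' hm hqm' H.hA H.hinv hΨ)
    have h1 : q - 1 ≤ (KS q (e + 1) e).card := by
      rcases Nat.eq_zero_or_pos e with h0 | h0
      · subst h0
        rw [card_KS_zero hq Nat.one_pos, pow_one, Nat.totient_prime hq]
      · rw [card_KS_succ hq h0]; omega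
    rcases hbig with h | ⟨h, h3⟩
    · left; omega
    · right; exact ⟨by omega, h3⟩
  have h2 : ∀ t, Nat.Coprime t d → SW d A2 t = 0 := by
    intro t ht
    by_cases hqd : q ∣ d
    · have h1 := H.rel2 hqd ht
      rw [hS t ht, zero_add] at h1
      exact (mul_eq_zero.mp h1).resolve_left (by omega)
    · have hqc : Nat.Coprime q d := (Nat.Prime.coprime_iff_not_dvd hq).mpr hqd
      obtain ⟨u, hu, hu'⟩ : ∃ u, Nat.Coprime u d ∧ q * u ≡ t [MOD d] := by
        by_cases hd1 : d = 1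
        · exact ⟨t, ht, by rw [hd1]; exact Nat.modEq_one⟩
        · obtain ⟨u, _, hu⟩ := Nat.exists_mul_mod_eq_of_coprime t hqc hd0
          have hu' : q * u ≡ t [MOD d] := hu
          refine ⟨u, ?_, hu'⟩
          have h3 : Nat.Coprime (q * u) d := by
            have : Nat.gcd (q * u) d = Nat.gcd t d := hu'.gcd_eq
            rw [Nat.Coprime, this]; exact ht
          exact Nat.Coprime.coprime_mul_left h3
      have h1 := H.rel1 hqd hu
      rw [hS _ (Nat.Coprime.mul_left hqc hu), hS u hu, SW_congr A2 hu'] at h1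
      have h4 : ((q : ℤ) - 1) * SW d A2 t = 0 := by linarith
      exact (mul_eq_zero.mp h4).resolve_left (by omega)
  refine ⟨h2, ?_⟩
  have hrel0 : ∀ t, Nat.Coprime t m → SW m A1 t = 0 := by
    intro t ht
    have h3 := H.hrel t ht
    rw [h2 t (Nat.Coprime.coprime_dvd_right (Dvd.intro_left q H.hqd) ht)] at h3
    linarith
  have htow := tower hq hqm hm H.hA hrel0
  have hhi : ∀ i t κ, κ ≡ 1 [MOD m'] → e + 1 ≤ i →
      q ^ i * (t * κ) ≡ q ^ i * t [MOD m] := by
    intro i t κ hκ hi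
    obtain ⟨l, rfl⟩ := Nat.exists_eq_add_of_le hi
    have h5 := Nat.ModEq.mul_left' (q ^ (e + 1)) (hκ.mul_left (q ^ l * t))
    rw [hqm] at h5
    have e2 : q ^ (e + 1 + l) * (t * κ) = q ^ (e + 1) * (q ^ l * t * κ) := by rw [pow_add]; ring
    have e3 : q ^ (e + 1 + l) * t = q ^ (e + 1) * (q ^ l * t * 1) := by rw [pow_add]; ring
    rw [e2, e3]
    exact h5
  have hun : ∀ z, Nat.Coprime z m' → SW m' A1 z = 0 := by
    have hP : ∀ r ∈ PO q m, r.Prime ∧ r ∣ m' := by
      intro r hr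
      obtain ⟨hr1, hr2, hr3⟩ := PO_prime hr
      refine ⟨hr1, ?_⟩
      rw [← hqm] at hr2
      rcases (Nat.Prime.dvd_mul hr1).mp hr2 with h | h
      · exact absurd ((Nat.prime_dvd_prime_iff_eq hr1 hq).mp (hr1.dvd_of_dvd_pow h)) hr3
      · exact h
    apply zero_of_div hm'0 hP A1 (KS q (e + 1) 0).card
      (fun Ψ hΨ => div_lemma hq (Nat.succ_pos e) hqm (by simp : q ^ 0 * m' = m') hm hqm' H.hA
        (by
          intro i t κ ht hκ hκ1
          rcases lt_or_ge i (e + 1) with hi | hi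
          · rw [htow i hi t ht, htow i hi _ (Nat.Coprime.mul_left ht hκ)]
          · exact SW_congr _ (hhi i t κ hκ1 hi)) hΨ)
    rw [card_KS_zero hq (show 0 < e + 1 by omega)]
    have h7 : q - 1 ≤ Nat.totient (q ^ (e + 1)) := by
      rw [Nat.totient_prime_pow_succ hq]
      exact Nat.le_mul_of_pos_left _ (pow_pos hq.pos e)
    rcases hbig with h | ⟨h, h3⟩
    · left; omega
    · right; exact ⟨by omega, fun h' => h3 (h'.trans hm'd)⟩
  have hall : ∀ j t, Nat.Coprime t m → SW m A1 (q ^ j * t) = 0 := by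
    intro j t ht
    rcases lt_or_ge j (e + 1) with hj | hj
    · exact htow j hj t ht
    · obtain ⟨l, rfl⟩ := Nat.exists_eq_add_of_le hj
      have h1 : q ^ (e + 1 + l) * t = q ^ (e + 1) * (q ^ l * t) := by rw [pow_add]; ring
      rw [h1, SW_level hm hqm, hun, mul_zero]
      apply Nat.Coprime.mul_left
      · exact Nat.Coprime.pow_left _ ((Nat.Prime.coprime_iff_not_dvd hq).mpr hqm')
      · exact Nat.Coprime.coprime_dvd_right hm'm ht
  intro Q _ c hc
  refine kill hq (Dvd.intro d H.hqd) hm ?_ H.hA hall Q c hc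
  rw [he]
  calc 2 < q := by omega
    _ = q ^ 1 := (pow_one q).symm
    _ ≤ q ^ (e + 1) := Nat.pow_le_pow_right hq.pos (by omega)

end SettingE

/-- the condition on an even degree -/
def HypE (N m : ℕ) : Prop :=
  ∃ B, (B = 4 * N + 2 ∨ (B = 2 * N + 2 ∧ ¬ 3 ∣ m)) ∧
    ∀ e, e ∣ m → e % 2 = 0 → (∀ r : ℕ, r.Prime → r ∣ e → r < B) → GoodDegree2 e

lemma HypE.of_dvd {N m d : ℕ} (h : HypE N m) (hd : d ∣ m) : HypE N d := by
  obtain ⟨B, h1, h2⟩ := h
  refine ⟨B, ?_, fun e he he2 hr => h2 e (he.trans hd) he2 hr⟩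
  rcases h1 with h1 | ⟨h1, h3⟩
  · exact Or.inl h1
  · exact Or.inr ⟨h1, fun h => h3 (h.trans hd)⟩

theorem even_zero (N : ℕ) : ∀ m : ℕ, m ≠ 0 → m % 2 = 0 → HypE N m → ∀ A : Multiset ℕ,
    Multiset.card A ≤ N → (∀ t, Nat.Coprime t m → SW m A t = 0) →
    ∀ (Q : Type) [AddCommGroup Q] (C : ZMod m → Q), OddDist C → KillsC m C →
      (A.map fun a : ℕ => C ((a : ℕ) : ZMod m)).sum = 0 := by
  intro m
  induction m using Nat.strong_induction_on with
  | _ m ih =>
  intro hm heven hyp A hcard hrel Q _ C hC hK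
  by_cases hg : GoodDegree2 m
  · have h1 := hK 1 m (one_mul m) heven hg A hrel
    simpa only [one_mul] using h1
  have hyp' := hyp
  obtain ⟨B, hB1, hB2⟩ := hyp
  obtain ⟨q, hq, ⟨d, hd'⟩, hqB⟩ : ∃ q : ℕ, q.Prime ∧ q ∣ m ∧ B ≤ q := by
    by_contra hcon
    push Not at hcon
    exact hg (hB2 m dvd_rfl heven hcon)
  have hqd : q * d = m := hd'.symm
  have hq2 := hq.two_le
  by_cases hA0 : A = 0
  · rw [hA0]; simp
  have hc0 : 0 < Multiset.card A := Multiset.card_pos.mpr hA0
  have hd0 : d ≠ 0 := by rintro rfl; rw [mul_zero] at hqd; exact hm hqd.symm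
  have hdm : d < m := by
    rw [← hqd]
    have h4 : 0 < d := Nat.pos_of_ne_zero hd0
    nlinarith
  have hqo : q % 2 = 1 := by
    rcases hq.eq_two_or_odd with h | h
    · exfalso; rcases hB1 with h1 | ⟨h1, _⟩ <;> omega
    · exact h
  have hde : d % 2 = 0 := by
    have h1 : 2 ∣ q * d := by rw [hqd]; omega
    rcases (Nat.Prime.dvd_mul Nat.prime_two).mp h1 with h | h
    · omega
    · omega
  have hNd : NeZero d := ⟨hd0⟩
  have hc1 := card_split q A
  have H : SettingE q d m (A.filter fun a => ¬ q ∣ a)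
      ((A.filter fun a => q ∣ a).map fun a => a / q) := by
    refine ⟨hq, by rcases hB1 with h1 | ⟨h1, _⟩ <;> omega, hqd, hm,
      fun a ha => (Multiset.mem_filter.mp ha).2, fun t ht => ?_⟩
    have h1 := SW_decomp hqd hm A (fun a => q ∣ a) (fun a _ h => h) t
    rw [hrel t ht] at h1
    exact h1.symm
  obtain ⟨h1, h2⟩ := H.peel (by
    rcases hB1 with h1 | ⟨h1, h3⟩
    · left; omega
    · right
      exact ⟨by omega, fun h => h3 (h.trans (Dvd.intro_left q hqd))⟩)
  rw [split_sumE (q := q), h2 Q C hC, zero_add]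
  have h5 := ih d hdm hd0 hde (hyp'.of_dvd (Dvd.intro_left q hqd)) _ (by omega) h1 Q
    (fun b : ZMod d => C (iota q b)) (hC.comp_iota hqd) (hK.comp hqd)
  rw [← h5]
  congr 1
  apply Multiset.map_congr rfl
  intro b _
  rw [iota_natCast hqd]

/-- **Hodge characters with at most `N` entries of even degree.** -/
theorem main_genE {N m : ℕ} (hm : m ≠ 0) (heven : m % 2 = 0) (hyp : HypE N m)
    (s : Multiset (ZMod m)) (hs : IsHodge m s)
    (hcard : Multiset.card s ≤ N) (hne : s ≠ 0) : Generated m (SurfaceOrCurveProduct m) s := by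
  have hN : NeZero m := ⟨hm⟩
  have h1 := even_zero N m hm heven hyp (s.map ZMod.val) (by rwa [Multiset.card_map])
    (fun t ht => saw_rel s hs t ht) _ (cQ m (SurfaceOrCurveProduct m)) cQ_oddDist (killsC_cQ hm)
  rw [Multiset.map_map] at h1
  have h2 : (s.map (cQ m (SurfaceOrCurveProduct m))).sum = 0 := by
    rw [← h1]
    congr 1
    apply Multiset.map_congr rfl
    intro a _
    simp only [Function.comp_apply]
    rw [ZMod.natCast_zmod_val]
  rw [cQ_sum, QuotientAddGroup.eq_zero_iff] at h2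
  exact generated_of_mem_LL base_good base_neg hs.1 hs.2.1 hne h2

end Pool.Agent.V1161
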