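import Pool.Agent.V1161.Integr

/-!
An integral distribution whose odd part is odd at a given element of prime order.
-/

namespace Pool.Agent.V1161

open Finset Pool.Agent.H916R2 Pool.Agent.Y2

lemma exists_inv_mod {p e : ℕ} (hp : p.Prime) (h : ¬ p ∣ e) : ∃ g, g * e ≡ 1 [MOD p] ∧
    Nat.Coprime g p := by
  have hc : Nat.Coprime e p := (Nat.coprime_comm).mp ((Nat.Prime.coprime_iff_not_dvd hp).mpr h)
  obtain ⟨g, _, hg⟩ := Nat.exists_mul_mod_eq_of_coprime 1 hc hp.ne_zero
  have hg' : g * e ≡ 1 [MOD p] := by rw [mul_comm]; exact hg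
  refine ⟨g, hg', ?_⟩
  rw [Nat.coprime_comm, Nat.Prime.coprime_iff_not_dvd hp]
  intro h1
  have h2 : p ∣ 1 := (hg'.dvd_iff dvd_rfl).mp (h1.mul_right e)
  exact hp.one_lt.ne' (Nat.dvd_one.mp h2)

theorem exists_psi {q d m p y : ℕ} (hq : q.Prime) (hqd : q * d = m) (hm : m ≠ 0) (hnd : ¬ q ∣ d)
    (hp : p.Prime) (hp5 : 5 ≤ p) (hpy : d ∣ p * y) (hdy : ¬ d ∣ y) :
    ∃ C : ℕ → ℤ, TD q m (PO q m) C ∧
      ((∑ i ∈ range q, C (y + i * d)) - ∑ i ∈ range q, C ((m - 1) * y + i * d)) % 2 = 1 := by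
  have hd0 : d ≠ 0 := by rintro rfl; rw [mul_zero] at hqd; exact hm hqd.symm
  have hdm : d ∣ m := Dvd.intro_left _ hqd
  have hqm : q ∣ m := Dvd.intro _ hqd
  -- `p` divides `d`
  have hpd : p ∣ d := by
    by_contra h
    have h1 : Nat.Coprime d p := by
      rw [Nat.coprime_comm, Nat.Prime.coprime_iff_not_dvd hp]; exact h
    exact hdy (h1.dvd_of_dvd_mul_left hpy)
  have hpq : p ≠ q := by rintro rfl; exact hnd hpd
  have hpm : p ∣ m := hpd.trans hdm
  obtain ⟨f, u, hf, hmu, hpu, _⟩ := decomp hm hp hpm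
  -- `d = p ^ (f + 1) * u'`
  have hqu : q ∣ u := by
    have h1 : q ∣ p ^ (f + 1) * u := by rw [← hmu]; exact hqm
    rcases (Nat.Prime.dvd_mul hq).mp h1 with h2 | h2
    · exact absurd ((Nat.prime_dvd_prime_iff_eq hq hp).mp (hq.dvd_of_dvd_pow h2)).symm hpq
    · exact h2
  obtain ⟨u', hu'⟩ := hqu
  have hdu : d = p ^ (f + 1) * u' := by
    have h1 : q * d = q * (p ^ (f + 1) * u') := by rw [hqd, hmu, hu']; ring
    exact Nat.eq_of_mul_eq_mul_left hq.pos h1
  have hpu' : ¬ p ∣ u' := fun h => hpu (by rw [hu']; exact h.mul_left q)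
  set e := p ^ f * u' with he
  have hde : d = p * e := by rw [hdu, he]; ring
  have he0 : 0 < e := Nat.pos_of_ne_zero (by rintro h; rw [h, mul_zero] at hde; exact hd0 hde)
  obtain ⟨g, hg, hgp⟩ := exists_inv_mod hp hpu'
  -- the elements of order `p`
  set n : ℕ → ℕ := fun k => k * g * e with hn
  have hnmod : ∀ k j, (n k + j * d) % p ^ (f + 1) = p ^ f * (k % p) := by
    intro k j
    have h1 : n k + j * d ≡ p ^ f * (k * (g * u')) [MOD p ^ (f + 1)] := by
      have h2 : n k + j * d = p ^ f * (k * (g * u')) + p ^ (f + 1) * (j * u') := by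
        rw [hn, he, hdu]; ring
      rw [h2]
      have : p ^ f * (k * (g * u')) + p ^ (f + 1) * (j * u') ≡
          p ^ f * (k * (g * u')) + 0 [MOD p ^ (f + 1)] :=
        Nat.ModEq.add_left _ ((Nat.modEq_zero_iff_dvd).mpr (Dvd.intro _ rfl))
      exact this
    have h3 : p ^ f * (k * (g * u')) ≡ p ^ f * k [MOD p ^ (f + 1)] := by
      have h4 : k * (g * u') ≡ k * 1 [MOD p] := hg.mul_left k
      rw [mul_one] at h4
      exact Nat.ModEq.mul_left' (p ^ f) h4
    have h5 : p ^ f * k ≡ p ^ f * (k % p) [MOD p ^ (f + 1)] := by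
      exact Nat.ModEq.mul_left' (p ^ f) (Nat.mod_modEq k p).symm
    have h6 : (n k + j * d) % p ^ (f + 1) = (p ^ f * (k % p)) % p ^ (f + 1) :=
      (h1.trans h3).trans h5
    rw [h6, Nat.mod_eq_of_lt]
    rw [pow_succ]
    exact Nat.mul_lt_mul_of_pos_left (Nat.mod_lt _ hp.pos) (pow_pos hp.pos f)
  have hTT : ∀ k j, k < p → k ≠ 1 → ∀ r ∈ PO q m, TT r m (n k + j * d) := by
    intro k j hk hk1 r hr
    obtain ⟨hr1, hr2, hr3⟩ := PO_prime hr
    by_cases hrp : r = p
    · subst hrp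
      unfold TT
      rw [hf, Nat.add_sub_cancel, hnmod, Nat.mod_eq_of_lt hk]
      rcases Nat.eq_zero_or_pos k with h0 | h0
      · left; rw [h0, mul_zero]
      · right
        calc r ^ f = r ^ f * 1 := (mul_one _).symm
          _ < r ^ f * k := Nat.mul_lt_mul_of_pos_left (by omega) (pow_pos hr1.pos f)
    · left
      have h1 : r ^ (m.factorization r) ∣ m := Nat.ordProj_dvd m r
      have h2 : r ^ (m.factorization r) ∣ u' := by
        have h3 : m = (p ^ (f + 1) * q) * u' := by rw [hmu, hu']; ring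
        have h6 : r ^ (m.factorization r) ∣ (p ^ (f + 1) * q) * u' := h1.trans (dvd_of_eq h3)
        apply Nat.Coprime.dvd_of_dvd_mul_left _ h6
        have h4 : Nat.Coprime (r ^ (m.factorization r)) (p ^ (f + 1)) :=
          Nat.Coprime.pow _ _ ((Nat.coprime_primes hr1 hp).mpr hrp)
        have h5 : Nat.Coprime (r ^ (m.factorization r)) q :=
          Nat.Coprime.pow_left _ ((Nat.coprime_primes hr1 hq).mpr hr3)
        exact Nat.Coprime.mul_right h4 h5
      have h3 : r ^ (m.factorization r) ∣ n k + j * d := by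
        apply dvd_add
        · rw [hn, he]
          exact (h2.mul_left (p ^ f)).mul_left (k * g)
        · rw [hdu]
          exact (h2.mul_left (p ^ (f + 1))).mul_left j
      exact Nat.mod_eq_zero_of_dvd h3
  -- the class of `y`
  obtain ⟨w, hw⟩ : e ∣ y := by
    rw [hde] at hpy
    exact Nat.dvd_of_mul_dvd_mul_left hp.pos hpy
  obtain ⟨ky, hky, hyk⟩ : ∃ k, k < p ∧ y ≡ n k [MOD d] := by
    refine ⟨(w * u') % p, Nat.mod_lt _ hp.pos, ?_⟩
    have h1 : w ≡ ((w * u') % p) * g [MOD p] := by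
      have h2 : ((w * u') % p) * g ≡ (w * u') * g [MOD p] := (Nat.mod_modEq _ p).mul_right g
      have h3 : (w * u') * g ≡ w * 1 [MOD p] := by
        have : (w * u') * g = w * (g * u') := by ring
        rw [this]
        exact hg.mul_left w
      rw [mul_one] at h3
      exact (h2.trans h3).symm
    have h4 := Nat.ModEq.mul_left' e h1
    rw [hw, hde, mul_comm p e]
    have h5 : n ((w * u') % p) = e * (((w * u') % p) * g) := by rw [hn]; ring
    rw [h5]
    exact h4
  have hky0 : ky ≠ 0 := by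
    rintro rfl
    apply hdy
    have : n 0 = 0 := by rw [hn]; ring
    rw [this] at hyk
    exact (Nat.modEq_zero_iff_dvd).mp hyk
  -- the class of `- y`
  have hyneg : (m - 1) * y ≡ n (p - ky) [MOD d] := by
    apply Nat.ModEq.add_left_cancel' y
    rw [m_sub_one hm]
    have h1 : y + n (p - ky) ≡ n ky + n (p - ky) [MOD d] := hyk.add_right _
    have h2 : n ky + n (p - ky) = d * g := by
      have h3 : n ky + n (p - ky) = (ky + (p - ky)) * g * e := by rw [hn]; ring
      rw [h3, Nat.add_sub_cancel' hky.le, hde]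
      ring
    rw [h2] at h1
    exact ((Nat.modEq_zero_iff_dvd).mpr (hdm.mul_right y)).trans
      (h1.trans ((Nat.modEq_zero_iff_dvd).mpr (Dvd.intro _ rfl))).symm
  -- the chosen index
  obtain ⟨k0, hk0p, hk02, hk0⟩ : ∃ k0, k0 < p ∧ 2 ≤ k0 ∧
      ((ky ≠ 1 ∧ ky ≠ p - 1 ∧ k0 = ky) ∨ ((ky = 1 ∨ ky = p - 1) ∧ k0 = 2)) := by
    by_cases h : ky = 1 ∨ ky = p - 1
    · exact ⟨2, by omega, le_refl _, Or.inr ⟨h, rfl⟩⟩
    · push Not at h
      exact ⟨ky, hky, by omega, Or.inl ⟨h.1, h.2, rfl⟩⟩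
  -- the chosen lift
  obtain ⟨j0, hj0, hj0q⟩ : ∃ j0 < q, ¬ q ∣ n k0 + j0 * d := by
    have h1 := card_not_dvd hq hnd (n k0)
    have h2 : 0 < ((range q).filter (fun i => ¬ q ∣ n k0 + i * d)).card := by
      rw [h1]; have := hq.two_le; omega
    obtain ⟨j, hj⟩ := Finset.card_pos.mp h2
    rw [mem_filter, mem_range] at hj
    exact ⟨j, hj.1, hj.2⟩
  obtain ⟨C, hC, hCv⟩ := exists_td hq hqm hm
    (fun x => if x = (n k0 + j0 * d) % m then 1 else 0)
  refine ⟨C, hC, ?_⟩
  set Ψ : ℕ → ℤ := fun n => ∑ i ∈ range q, C (n + i * d) with hΨ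
  have hT : TD q d (PO q d) Ψ := push_td hq hqd hm hC
  -- values
  have hval : ∀ k j, k < p → k ≠ 1 → j < q →
      C (n k + j * d) = if k = k0 ∧ j = j0 then 1 else 0 := by
    intro k j hk hk1 hj
    by_cases hqx : q ∣ n k + j * d
    · rw [hC.supp hqm _ hqx, if_neg]
      rintro ⟨rfl, rfl⟩
      exact hj0q hqx
    · rw [hCv _ hqx (hTT k j hk hk1)]
      by_cases hkj : k = k0 ∧ j = j0
      · rw [if_pos hkj, hkj.1, hkj.2, if_pos rfl]
      · rw [if_neg hkj, if_neg]
        intro h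
        have h1 : n k + j * d ≡ n k0 + j0 * d [MOD m] := h
        apply hkj
        have h2 : k = k0 := by
          have h3 := h1.of_dvd (show p ^ (f + 1) ∣ m from Dvd.intro u hmu.symm)
          have h4 : (n k + j * d) % p ^ (f + 1) = (n k0 + j0 * d) % p ^ (f + 1) := h3
          rw [hnmod, hnmod, Nat.mod_eq_of_lt hk, Nat.mod_eq_of_lt hk0p] at h4
          exact Nat.eq_of_mul_eq_mul_left (pow_pos hp.pos f) h4
        refine ⟨h2, ?_⟩
        rw [h2] at h1
        have h5 : j * d ≡ j0 * d [MOD q * d] := by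
          rw [hqd]
          exact Nat.ModEq.add_left_cancel' _ h1
        have h6 : j ≡ j0 [MOD q] := Nat.ModEq.mul_right_cancel' hd0 h5
        exact Nat.ModEq.eq_of_lt_of_lt h6 hj hj0
  have hP : ∀ k, k < p → k ≠ 1 → Ψ (n k) = if k = k0 then 1 else 0 := by
    intro k hk hk1
    have h1 : Ψ (n k) = ∑ j ∈ range q, if k = k0 ∧ j = j0 then (1 : ℤ) else 0 :=
      sum_congr rfl fun j hj => hval k j hk hk1 (mem_range.mp hj)
    rw [h1]
    by_cases hk2 : k = k0
    · simp only [hk2, true_and, if_true]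
      rw [Finset.sum_ite_eq' (range q) j0 (fun _ => (1 : ℤ)), if_pos (mem_range.mpr hj0)]
    · simp [hk2]
  -- the sum over the elements of order `p`
  have hsum : ∑ k ∈ range p, Ψ (n k) = Ψ 0 := by
    have hpPO : p ∈ PO q d := by
      rw [PO, Finset.mem_erase]
      exact ⟨hpq, Nat.mem_primeFactors.mpr ⟨hp, hpd, hd0⟩⟩
    have h1 := hT.dist p hpPO 0
    rw [mul_zero] at h1
    rw [← h1]
    have hdp : d / p = e := by rw [hde]; exact Nat.mul_div_cancel_left _ hp.pos
    rw [hdp]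
    have h2 := coset_mul hp.pos (show p * e = d from hde.symm) hT.per hgp 0
    rw [← h2]
    refine sum_congr rfl fun k _ => ?_
    congr 1
    rw [hn]
    ring
  have h00 : Ψ 0 = 0 := by
    have h1 := hP 0 hp.pos (by norm_num)
    have h2 : n 0 = 0 := by rw [hn]; ring
    rw [h2] at h1
    rw [h1, if_neg (by omega)]
  have hP1 : Ψ (n 1) = -1 := by
    rw [h00] at hsum
    have h1p : 1 ∈ range p := mem_range.mpr (by omega)
    rw [← Finset.add_sum_erase _ _ h1p] at hsum
    have h2 : ∑ k ∈ (range p).erase 1, Ψ (n k) = ∑ k ∈ (range p).erase 1,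
        if k = k0 then (1 : ℤ) else 0 :=
      sum_congr rfl fun k hk => hP k (mem_range.mp (mem_of_mem_erase hk)) (ne_of_mem_erase hk)
    rw [h2, Finset.sum_ite_eq', if_pos] at hsum
    · linarith
    · rw [Finset.mem_erase]
      exact ⟨by omega, mem_range.mpr hk0p⟩
  change (Ψ y - Ψ ((m - 1) * y)) % 2 = 1
  rw [hT.per _ _ hyk, hT.per _ _ hyneg]
  rcases hk0 with ⟨h1, h2, h3⟩ | ⟨h1 | h1, h3⟩
  · rw [hP ky hky h1, if_pos h3.symm, hP (p - ky) (by omega) (by omega), if_neg]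
    · norm_num
    · intro h4
      -- `p - ky = ky` is impossible for odd `p`
      have h5 : p = 2 * ky := by omega
      rcases hp.eq_two_or_odd with h6 | h6
      · omega
      · omega
  · rw [h1, hP1, hP (p - 1) (by omega) (by omega), if_neg (by omega)]
    norm_num
  · rw [h1, hP (p - 1) (by omega) (by omega), if_neg (by omega)]
    have h4 : p - (p - 1) = 1 := by omega
    rw [h4, hP1]
    norm_num

/-- **Integrality.** -/
theorem integrality {q d m : ℕ} {A1 A2 : Multiset ℕ} (H : Setting q d m A1 A2) (hnd : ¬ q ∣ d)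
    {h : ℕ} (h2 : 2 * h = q - 1) {y : ℕ}
    (hy : ∀ z, Nat.Coprime z d → SW d A1 z = h * saw ((z * y : ℕ) : ZMod d)) {p : ℕ}
    (hp : p.Prime) (hp5 : 5 ≤ p) (hpy : d ∣ p * y) : d ∣ y := by
  by_contra hdy
  obtain ⟨C, hC, hodd⟩ := exists_psi H.hq H.hqd H.hm hnd hp hp5 hpy hdy
  have := even_value H hnd h2 hy hC
  omega

end Pool.Agent.V1161
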