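import Pool.Agent.V1161.Gal
import Pool.Agent.V1161.Main
import Pool.Agent.H916K.Stick
import Pool.Agent.Y145.DW.HD

/-!
One Frobenius element of residue characteristic congruent to one modulo the degree determines the
Hodge type of an eigenline.
-/

set_option linter.unusedSectionVars false

namespace Pool.Agent.V1161

open Finset Pool.Agent.H916K Pool.Agent.H916R2

/-- Stickelberger's theorem for prime fields: if for all characters of order `m` some power of the
product of the Gauss sums is the power of `ℓ ^ (card s / 2)`, then `s` is a Hodge character. -/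
theorem hodge_prime {m : ℕ} (hm : 2 ≤ m) {s : Multiset (ZMod m)} (h0 : (0 : ZMod m) ∉ s)
    (heven : Even (Multiset.card s)) (hsum : s.sum = 0) {ℓ : ℕ} [hF : Fact ℓ.Prime]
    (hℓm : (ℓ : ZMod m) = 1)
    (H : ∀ (χ : MulChar (ZMod ℓ) ℂ) (ψ : AddChar (ZMod ℓ) ℂ), orderOf χ = m → ψ ≠ 1 →
      ∃ k : ℕ, 0 < k ∧ gprod s χ ψ ^ k = ((ℓ : ℂ) ^ (Multiset.card s / 2)) ^ k) :
    IsHodge m s := by
  classical
  have hmz : NeZero m := ⟨by omega⟩
  have hℓ : ℓ.Prime := hF.out
  refine ⟨h0, heven, hsum, ?_⟩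
  intro t
  have hmdvd : m ∣ ℓ - 1 := by
    have h1 : ((ℓ - 1 : ℕ) : ZMod m) = 0 := by
      rw [Nat.cast_sub hℓ.one_le, hℓm]; simp
    exact (ZMod.natCast_eq_zero_iff _ _).mp h1
  have hℓ3 : 3 ≤ ℓ := by
    have := Nat.le_of_dvd (by have := hℓ.two_le; omega) hmdvd
    omega
  obtain ⟨k, _, _, φ, Γ, _, v, hv1, hv2, hv3⟩ := exists_val hℓ
  have hv : Above φ v := ⟨hv1, hv2, hv3⟩
  obtain ⟨χ1, hχ1, hχφ⟩ := exists_teich (ℓ := ℓ) φ
  obtain ⟨ζ, hζ⟩ : ∃ ζ : AI, IsPrimitiveRoot ζ ℓ := by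
    have h1 := Complex.isPrimitiveRoot_exp ℓ hℓ.ne_zero
    have h2 : IsIntegral ℤ (Complex.exp (2 * Real.pi * Complex.I / ((ℓ : ℕ) : ℂ))) :=
      h1.isIntegral hℓ.pos
    exact ⟨⟨_, h2⟩, IsPrimitiveRoot.of_map_of_injective (f := algebraMap AI ℂ) h1
      Subtype.val_injective⟩
  have hinj : Function.Injective (algebraMap AI ℂ) := Subtype.val_injective
  obtain ⟨e, he⟩ := hmdvd
  have he0 : 0 < e := Nat.pos_of_ne_zero (by rintro rfl; rw [mul_zero] at he; omega)
  set τ : ℕ := (t : ZMod m).val with hτ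
  have hτcop : τ.Coprime m := ZMod.val_coe_unit_coprime t
  set χ : MulChar (ZMod ℓ) AI := (χ1 ^ e) ^ τ with hχ
  have hord1 : orderOf (χ1 ^ e) = m := by
    rw [orderOf_pow_of_dvd he0.ne' (by rw [hχ1, he]; exact dvd_mul_left e m), hχ1, he,
      Nat.mul_div_cancel _ he0]
  have hordχ : orderOf χ = m := by
    rw [hχ, Nat.Coprime.orderOf_pow (by rw [hord1]; exact hτcop.symm), hord1]
  set ψ := AddChar.zmodChar ℓ hζ.pow_eq_one with hψdef
  set χ' : MulChar (ZMod ℓ) ℂ := χ.ringHomComp (algebraMap AI ℂ) with hχ'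
  set ψ' : AddChar (ZMod ℓ) ℂ := (algebraMap AI ℂ).toMonoidHom.compAddChar ψ with hψ'
  have hordχ' : orderOf χ' = m := by
    rw [← hordχ]
    exact orderOf_injective (MulChar.ringHomCompHom (algebraMap AI ℂ))
      (MulChar.injective_ringHomComp hinj) χ
  have hψ1 : ψ' ≠ 1 := by
    intro h
    have h1 : ψ' 1 = 1 := by rw [h]; rfl
    have h2 : algebraMap AI ℂ (ψ 1) = 1 := h1
    rw [hψdef, AddChar.zmodChar_apply] at h2
    have : Fact (1 < ℓ) := ⟨hℓ.one_lt⟩
    rw [ZMod.val_one, pow_one] at h2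
    exact hζ.ne_one hℓ.one_lt (hinj (by rw [h2, map_one]))
  obtain ⟨K, hK, h1⟩ := H χ' ψ' hordχ' hψ1
  unfold gprod at h1
  have h2 := congrArg v h1
  rw [map_pow, map_pow, map_pow, map_multiset_prod, Multiset.map_map] at h2
  set π := v (((ζ - 1 : AI)) : ℂ) with hπ
  have hg : ∀ a ∈ s, v (gaussSum (χ' ^ a.val) ψ') = π ^ (e * ((t : ZMod m) * a).val) := by
    intro a ha
    have e1 : gaussSum (χ' ^ a.val) ψ' = ((gaussSum (χ ^ a.val) ψ : AI) : ℂ) := by
      have : gaussSum (χ' ^ a.val) ψ' = algebraMap AI ℂ (gaussSum (χ ^ a.val) ψ) := by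
        unfold gaussSum
        rw [map_sum]
        refine sum_congr rfl fun x _ => ?_
        rw [map_mul, hχ', MulChar.ringHomComp_pow, MulChar.ringHomComp_apply]
        rfl
      rw [this]; rfl
    have e2 : χ ^ a.val = χ1 ^ (e * ((t : ZMod m) * a).val) := by
      rw [hχ, ← pow_mul, ← pow_mul, pow_eq_pow_iff_modEq, hχ1, he, ZMod.val_mul, mul_comm m e]
      exact (Nat.ModEq.mul_left' e (Nat.mod_modEq _ _)).symm
    have e3 : (t : ZMod m) * a ≠ 0 := by
      intro h
      have h3 := (t.isUnit.mul_right_eq_zero).mp h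
      rw [h3] at ha
      exact h0 ha
    have e4 : 0 < ((t : ZMod m) * a).val := Nat.pos_of_ne_zero
      (fun h => e3 ((ZMod.val_eq_zero _).mp h))
    have e5 := ZMod.val_lt ((t : ZMod m) * a)
    have e6 : e * ((t : ZMod m) * a).val ≤ e * (m - 1) := Nat.mul_le_mul_left e (by omega)
    have e7 : e * (m - 1) = ℓ - 1 - e := by
      rw [he, Nat.mul_sub, mul_one, mul_comm]
    rw [e1, e2]
    exact v_gauss hv hζ hχ1 hχφ hℓ3 _ (Nat.mul_pos he0 e4) (by omega)
  have e1 : (s.map (v ∘ fun a => gaussSum (χ' ^ a.val) ψ')) =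
      s.map fun a => π ^ (e * ((t : ZMod m) * a).val) := Multiset.map_congr rfl hg
  rw [e1] at h2
  have hprodpow : ∀ s : Multiset (ZMod m),
      (s.map fun a => π ^ (e * ((t : ZMod m) * a).val)).prod =
        π ^ (e * (s.map fun a => ((t : ZMod m) * a).val).sum) := by
    intro s
    induction s using Multiset.induction_on with
    | empty => simp
    | cons a s ih =>
      rw [Multiset.map_cons, Multiset.prod_cons, ih, Multiset.map_cons, Multiset.sum_cons,
        ← pow_add, mul_add]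
  rw [hprodpow] at h2
  -- the valuation of `ℓ`
  have hπ0 : π ≠ 0 := by
    rw [hπ, Valuation.ne_zero_iff]
    intro h0
    have h7 : (ζ : ℂ) = 1 := by
      have : ((ζ - 1 : AI) : ℂ) = (ζ : ℂ) - 1 := by push_cast; ring
      rw [this] at h0
      exact sub_eq_zero.mp h0
    exact hζ.ne_one hℓ.one_lt (Subtype.ext h7)
  have hπ1 : π < 1 := v_pi hv hζ
  have hvℓ : v ((ℓ : ℂ)) = π ^ (ℓ - 1) := by
    refine le_antisymm (v_ell hv hζ) ?_
    have hprim : (AddChar.zmodChar ℓ hζ.pow_eq_one).IsPrimitive :=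
      AddChar.zmodChar_primitive_of_primitive_root ℓ hζ
    have hne : χ1 ≠ 1 := by
      intro h; rw [h, orderOf_one] at hχ1; omega
    have h3 := gaussSum_mul_gaussSum_pow_orderOf_sub_one hne hprim
    rw [hχ1] at h3
    have h4 := congrArg (fun z : AI => v (z : ℂ)) h3
    push_cast at h4
    rw [map_mul, map_mul] at h4
    have hneg : v ((χ1 (-1) : AI) : ℂ) = 1 := by
      apply hv.root (n := 2) (by norm_num)
      rw [← map_pow]
      have : ((-1 : ZMod ℓ)) ^ 2 = 1 := by ring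
      rw [this, MulChar.map_one]
    rw [hneg, one_mul, ZMod.card, v_gauss_one hv hζ hχ1 hχφ hℓ3, show ℓ - 1 - 1 = ℓ - 2 by omega,
      v_gauss hv hζ hχ1 hχφ hℓ3 (ℓ - 2) (by omega) le_rfl, ← pow_succ',
      show ℓ - 2 + 1 = ℓ - 1 by omega] at h4
    exact h4.le
  rw [hvℓ, ← pow_mul, ← pow_mul, ← pow_mul] at h2
  have h3 := pow_right_injective₀ (zero_lt_iff.mpr hπ0) hπ1.ne h2
  obtain ⟨c, hcard⟩ := heven
  rw [hcard, show (c + c) / 2 = c by omega, he] at h3
  have h4 : (s.map fun a => ((t : ZMod m) * a).val).sum = m * c := by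
    have : (e * K) * (s.map fun a => ((t : ZMod m) * a).val).sum = (e * K) * (m * c) := by
      calc (e * K) * (s.map fun a => ((t : ZMod m) * a).val).sum
          = e * (s.map fun a => ((t : ZMod m) * a).val).sum * K := by ring
        _ = m * e * (c * K) := h3
        _ = (e * K) * (m * c) := by ring
    exact Nat.eq_of_mul_eq_mul_left (Nat.mul_pos he0 hK) this
  rw [h4, hcard]; ring

section

variable (F : Type) [Field F] [Fintype F] {ℓ : ℕ} [hF : Fact ℓ.Prime] [Algebra (ZMod ℓ) F]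

/-- the composite with the norm -/
noncomputable def nch (χ : MulChar (ZMod ℓ) ℂ) : MulChar F ℂ where
  toFun := fun s => χ (Algebra.norm (ZMod ℓ) s)
  map_one' := by simp
  map_mul' := fun x y => by simp
  map_nonunit' := fun a ha => by
    have h : a = 0 := by
      by_contra h
      exact ha (isUnit_iff_ne_zero.2 h)
    have : Module.Finite (ZMod ℓ) F := Module.Finite.of_finite
    have h2 : Algebra.norm (ZMod ℓ) a = 0 := by rw [h]; exact Algebra.norm_zero
    change χ (Algebra.norm (ZMod ℓ) a) = 0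
    rw [h2]
    exact χ.map_zero

lemma nch_apply (χ : MulChar (ZMod ℓ) ℂ) (s : F) : nch F χ s = χ (Algebra.norm (ZMod ℓ) s) := rfl

noncomputable def nchHom : MulChar (ZMod ℓ) ℂ →* MulChar F ℂ where
  toFun := nch F
  map_one' := by
    ext x
    have hx : Algebra.norm (ZMod ℓ) (x : F) ≠ 0 := by
      have : Module.Finite (ZMod ℓ) F := Module.Finite.of_finite
      exact Algebra.norm_ne_zero_iff.mpr x.ne_zero
    rw [nch_apply, MulChar.one_apply_coe, MulChar.one_apply (isUnit_iff_ne_zero.2 hx)]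
  map_mul' := fun χ χ' => by
    ext x
    rfl

lemma nchHom_injective : Function.Injective (nchHom F (ℓ := ℓ)) := by
  intro χ χ' h
  ext a
  obtain ⟨x, hx⟩ := FiniteField.norm_surjective (ZMod ℓ) F (a : ZMod ℓ)
  have h1 := DFunLike.congr_fun h x
  change χ (Algebra.norm (ZMod ℓ) x) = χ' (Algebra.norm (ZMod ℓ) x) at h1
  rwa [hx] at h1

end

open Pool.Agent.Y145.KS in
/-- **One Frobenius element.** -/
theorem hodge_field {m : ℕ} (hm : 2 ≤ m) {s : Multiset (ZMod m)} (h0 : (0 : ZMod m) ∉ s)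
    (heven : Even (Multiset.card s)) (hsum : s.sum = 0) {ℓ : ℕ} (hℓ : ℓ.Prime)
    (hℓm : (ℓ : ZMod m) = 1) {F : Type} [Field F] [Fintype F] [CharP F ℓ]
    {χ : MulChar F ℂ} {ψ : AddChar F ℂ} (hχ : orderOf χ = m) (hψ : ψ ≠ 1)
    {k : ℕ} (hk : 0 < k)
    (H : gprod s χ ψ ^ k = ((Fintype.card F : ℂ) ^ (Multiset.card s / 2)) ^ k) :
    IsHodge m s := by
  classical
  have hF : Fact ℓ.Prime := ⟨hℓ⟩
  let A : Algebra (ZMod ℓ) F := ZMod.algebra F ℓ
  set c := Multiset.card s / 2 with hc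
  set r := Module.finrank (ZMod ℓ) F with hr
  have hfin : Module.Finite (ZMod ℓ) F := Module.Finite.of_finite
  have hr0 : 0 < r := Module.finrank_pos
  have hcardF : Fintype.card F = ℓ ^ r := by
    have h1 := Module.card_eq_pow_finrank (K := ZMod ℓ) (V := F)
    rw [ZMod.card] at h1
    exact h1
  apply hodge_prime hm h0 heven hsum hℓm
  intro χ0 ψ0 hχ0 hψ0
  have hord : orderOf (nchHom F χ0) = m := by
    rw [orderOf_injective (nchHom F) (nchHom_injective F), hχ0]
  have h1 := gprod_conj (by omega : 0 < m) s hχ hord hψ (psi_ne_one hψ0 F) (k := k)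
    (n := (Fintype.card F ^ c) ^ k) (by rw [H]; push_cast; rfl)
  have h2 : gprod s (nchHom F χ0) (psi ψ0 F) ^ 2 = (gprod s χ0 ψ0 ^ r) ^ 2 := by
    unfold gprod
    rw [← Multiset.prod_map_pow, ← Multiset.prod_map_pow, ← Multiset.prod_map_pow]
    congr 1
    apply Multiset.map_congr rfl
    intro a _
    have h3 := Pool.Agent.Y145.DW.hasse_davenport (E := F) (χ0 ^ a.val) hψ0
    have h4 : gaussSum (nchHom F χ0 ^ a.val) (psi ψ0 F) =
        (-1) ^ (r - 1) * gaussSum (χ0 ^ a.val) ψ0 ^ r := by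
      rw [← map_pow]
      exact h3
    rw [h4, mul_pow, ← pow_mul, mul_comm (r - 1) 2, pow_mul, neg_one_sq, one_pow, one_mul]
  refine ⟨r * 2 * (m * k), by positivity, ?_⟩
  calc gprod s χ0 ψ0 ^ (r * 2 * (m * k)) = ((gprod s χ0 ψ0 ^ r) ^ 2) ^ (m * k) := by
        rw [← pow_mul, ← pow_mul, mul_assoc]
    _ = (gprod s (nchHom F χ0) (psi ψ0 F) ^ (m * k)) ^ 2 := by
        rw [← h2, ← pow_mul, ← pow_mul, mul_comm 2 (m * k)]
    _ = _ := by
        rw [h1, hcardF]
        push_cast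
        rw [← pow_mul, ← pow_mul, ← pow_mul, ← pow_mul, ← pow_mul]
        congr 1
        ring

end Pool.Agent.V1161
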