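import Pool.Agent.V1161.Psi

/-!
If all the sums of signs of the part prime to `q` are `± h` then this part behaves like `h` times
one element, or like `± h * d`.
-/

namespace Pool.Agent.V1161

open Finset Pool.Agent.H916R2 Pool.Agent.Y2

section

variable {q d m : ℕ} {A1 A2 : Multiset ℕ}

/-- The data of the part prime to `q`. -/
structure Data (q d : ℕ) (A1 : Multiset ℕ) (h : ℕ) (s T : ℕ → ℤ) : Prop where
  hh : h = q ∧ q ∣ d ∨ 2 * h = q - 1 ∧ ¬ q ∣ d
  hT : ∀ z, Nat.Coprime z d → (h : ℤ) * T z = ST d A1 z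
  hs : ∀ z, Nat.Coprime z d → (h : ℤ) * s z = SW d A1 z
  hpar : ∀ z, Nat.Coprime z d → (T z - T 1) % 2 = 0
  hlin : ∀ z, Nat.Coprime z d → (d : ℤ) ∣ s z - z * s 1
  hdT : ∀ z, Nat.Coprime z d → (d : ℤ) * T z = 2 * s z - s (2 * z)

lemma exists_data (H : Setting q d m A1 A2) : ∃ h s T, Data q d A1 h s T := by
  obtain ⟨h, hh, hdiv⟩ := H.div_general
  obtain ⟨h', hh', T, hT, hpar, hlin⟩ := H.theta_div
  have hq2 := H.hq.two_le
  have hqo := H.qodd
  have hhh : h' = h := by
    rcases hh with ⟨e1, e2⟩ | ⟨e1, e2⟩ <;> rcases hh' with ⟨e3, e4⟩ | ⟨e3, e4⟩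
    · rw [e1, e3]
    · exact absurd e2 e4
    · exact absurd e4 e2
    · omega
  subst hhh
  have hh0 : (h' : ℤ) ≠ 0 := by
    have : h' ≠ 0 := by
      rcases hh with ⟨h1, _⟩ | ⟨h1, _⟩ <;> omega
    exact_mod_cast this
  have hP := H.PO_dvd
  have h1 : ∀ z, ∃ s : ℤ, Nat.Coprime z d → (h' : ℤ) * s = SW d A1 z := by
    intro z
    by_cases hz : Nat.Coprime z d
    · obtain ⟨V, hV⟩ := hdiv _ (ld_saw H.hd hP hz)
      exact ⟨V, fun _ => hV⟩
    · exact ⟨0, fun h => absurd h hz⟩
  choose s hs using h1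
  refine ⟨h', s, T, hh, hT, fun z hz => hs z hz, hpar, ?_, ?_⟩
  · intro z hz
    have h2 := hlin z hz
    rw [← hs z hz, ← hs 1 (Nat.coprime_one_left d)] at h2
    have h3 : (h' : ℤ) * s z - z * (h' * s 1) = h' * (s z - z * s 1) := by ring
    rw [h3] at h2
    exact (mul_dvd_mul_iff_left hh0).mp h2
  · intro z hz
    apply mul_left_cancel₀ hh0
    have h2 := ST_SW H.dodd A1 z
    rw [← hT z hz, ← hs z hz, ← hs (2 * z) (Nat.Coprime.mul_left (two_coprime H.dodd) hz)] at h2
    linear_combination h2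

lemma Data.hpos {h : ℕ} {s T : ℕ → ℤ} (H : Setting q d m A1 A2) (D : Data q d A1 h s T) :
    0 < h := by
  have hq2 := H.hq.two_le
  have hqo := H.qodd
  rcases D.hh with ⟨h1, _⟩ | ⟨h1, _⟩ <;> omega

/-- The odd case. -/
lemma trick (H : Setting q d m A1 A2) {h : ℕ} {s T : ℕ → ℤ} (D : Data q d A1 h s T)
    (hT1 : ∀ z, Nat.Coprime z d → T z = 1 ∨ T z = -1) :
    (∃ y, ¬ d ∣ y ∧ (∀ z, Nat.Coprime z d → s z = saw ((z * y : ℕ) : ZMod d)) ∧
      ∀ z, Nat.Coprime z d → T z = th d (z * y)) ∨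
    (∀ z, Nat.Coprime z d → s z = d * T z) := by
  have hdo := H.dodd
  have hd0 := H.hd
  have hdz : (d : ℤ) ≠ 0 := by exact_mod_cast hd0
  have hdpos : (0 : ℤ) < d := by exact_mod_cast Nat.pos_of_ne_zero hd0
  have hN : NeZero d := ⟨hd0⟩
  have hh := D.hpos H
  have hhz : (0 : ℤ) < h := by exact_mod_cast hh
  have h2c : ∀ {z}, Nat.Coprime z d → Nat.Coprime (2 * z) d := fun hz =>
    Nat.Coprime.mul_left (two_coprime hdo) hz
  have hz1 := Nat.coprime_one_left d
  -- the size
  have hsize : ∀ z, Nat.Coprime z d → |s z| ≤ d := by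
    intro z hz
    by_contra hcon
    push Not at hcon
    have hgrow : ∀ n : ℕ, (d : ℤ) + 2 ^ n ≤ |s (2 ^ n * z)| := by
      intro n
      induction n with
      | zero =>
        rw [pow_zero, pow_zero, one_mul]
        linarith
      | succ n ih =>
        have hc : Nat.Coprime (2 ^ n * z) d :=
          Nat.Coprime.mul_left ((two_coprime hdo).pow_left n) hz
        have h1 := D.hdT _ hc
        have h2 : s (2 ^ (n + 1) * z) = 2 * s (2 ^ n * z) - d * T (2 ^ n * z) := by
          rw [show 2 ^ (n + 1) * z = 2 * (2 ^ n * z) by ring]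
          linarith
        rw [h2]
        have h3 : |(d : ℤ) * T (2 ^ n * z)| = d := by
          rcases hT1 _ hc with h | h <;> rw [h] <;> simp
        have h4 := abs_sub_abs_le_abs_sub (2 * s (2 ^ n * z)) (d * T (2 ^ n * z))
        rw [h3, abs_mul] at h4
        have h5 : |(2 : ℤ)| = 2 := by norm_num
        rw [h5] at h4
        rw [pow_succ]
        linarith
    have hbd : ∀ n : ℕ, (2 : ℤ) ^ n ≤ Multiset.card A1 * ((d : ℤ) - 1) := by
      intro n
      have hc : Nat.Coprime (2 ^ n * z) d :=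
        Nat.Coprime.mul_left ((two_coprime hdo).pow_left n) hz
      have h1 := SW_abs hd0 A1 (2 ^ n * z)
      rw [← D.hs _ hc, abs_mul, Nat.abs_cast] at h1
      have h2 := hgrow n
      have h3 : (1 : ℤ) ≤ h := by exact_mod_cast hh
      have h4 : (0 : ℤ) ≤ |s (2 ^ n * z)| := abs_nonneg _
      nlinarith
    obtain ⟨n, hn⟩ : ∃ n : ℕ, (Multiset.card A1 * ((d : ℤ) - 1)) < 2 ^ n := by
      have h10 : (0 : ℤ) ≤ Multiset.card A1 * ((d : ℤ) - 1) :=
        le_trans (by positivity) (hbd 0)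
      refine ⟨(Multiset.card A1 * ((d : ℤ) - 1)).toNat, ?_⟩
      have h11 := @Nat.lt_two_pow_self (Multiset.card A1 * ((d : ℤ) - 1)).toNat
      have h12 : ((Multiset.card A1 * ((d : ℤ) - 1)).toNat : ℤ) =
        Multiset.card A1 * ((d : ℤ) - 1) := Int.toNat_of_nonneg h10
      calc (Multiset.card A1 * ((d : ℤ) - 1)) =
          ((Multiset.card A1 * ((d : ℤ) - 1)).toNat : ℤ) := h12.symm
        _ < 2 ^ (Multiset.card A1 * ((d : ℤ) - 1)).toNat := by exact_mod_cast h11
    exact absurd (hbd n) (not_le.mpr hn)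
  -- periodicity
  have hsper : ∀ z z', Nat.Coprime z d → Nat.Coprime z' d → z ≡ z' [MOD d] → s z = s z' := by
    intro z z' hz hz' hzz
    apply mul_left_cancel₀ hhz.ne'
    rw [D.hs z hz, D.hs z' hz', SW_congr A1 hzz]
  -- oddness
  have hodd : ∀ z, Nat.Coprime z d → s z % 2 = 1 := by
    intro z hz
    obtain ⟨e, he⟩ : ∃ e, d = 2 * e + 1 := ⟨d / 2, by omega⟩
    have hc : Nat.Coprime (e + 1) d := by
      have h1 : Nat.Coprime (2 * (e + 1)) d := by
        have h2 : 2 * (e + 1) = 1 + 1 * d := by omega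
        rw [h2, Nat.coprime_add_mul_right_left]
        exact Nat.coprime_one_left d
      exact Nat.Coprime.coprime_mul_left h1
    have hc2 := Nat.Coprime.mul_left hc hz
    have h1 := D.hdT _ hc2
    have h3 : 2 * ((e + 1) * z) ≡ z [MOD d] := by
      have h4 : 2 * ((e + 1) * z) = z + d * z := by rw [he]; ring
      rw [h4]
      have : z + d * z ≡ z + 0 [MOD d] :=
        Nat.ModEq.add_left z ((Nat.modEq_zero_iff_dvd).mpr (Dvd.intro _ rfl))
      exact this
    rw [hsper _ z (h2c hc2) hz h3] at h1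
    have h5 : (d : ℤ) * T ((e + 1) * z) % 2 = 1 := by
      have h6 : (d : ℤ) % 2 = 1 := by exact_mod_cast hdo
      rcases hT1 _ hc2 with h | h <;> rw [h] <;> omega
    omega
  by_cases hA : ∃ z0, Nat.Coprime z0 d ∧ |s z0| = d
  · right
    obtain ⟨z0, hz0, hs0⟩ := hA
    have h1 : (d : ℤ) ∣ s z0 := by
      rw [← dvd_abs, hs0]
    have h2 : (d : ℤ) ∣ s 1 := by
      have h3 := D.hlin z0 hz0
      have h4 : (d : ℤ) ∣ z0 * s 1 := by
        have := dvd_sub h1 h3
        have e : s z0 - (s z0 - z0 * s 1) = z0 * s 1 := by ring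
        rwa [e] at this
      have h5 : IsCoprime (d : ℤ) (z0 : ℤ) := by
        rw [Int.isCoprime_iff_gcd_eq_one, Int.gcd_natCast_natCast]
        exact Nat.coprime_comm.mp hz0
      exact h5.dvd_of_dvd_mul_left h4
    have h3 : ∀ z, Nat.Coprime z d → s z = d ∨ s z = -d := by
      intro z hz
      have h4 : (d : ℤ) ∣ s z := by
        have h5 := D.hlin z hz
        have h6 := dvd_add h5 (h2.mul_left (z : ℤ))
        have e : s z - z * s 1 + z * s 1 = s z := by ring
        rwa [e] at h6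
      obtain ⟨w, hw⟩ := h4
      have h5 := hsize z hz
      have h6 := hodd z hz
      have hw1 : |w| ≤ 1 := by
        rw [hw, abs_mul, Nat.abs_cast] at h5
        by_contra hcon
        push Not at hcon
        nlinarith
      have hw0 : w ≠ 0 := by
        rintro rfl
        rw [mul_zero] at hw
        omega
      rw [abs_le] at hw1
      have hw2 : w = 1 ∨ w = -1 := by omega
      rcases hw2 with h | h
      · left; rw [hw, h, mul_one]
      · right; rw [hw, h]; ring
    intro z hz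
    have h4 := D.hdT z hz
    rcases h3 z hz with h5 | h5 <;> rcases h3 _ (h2c hz) with h6 | h6 <;>
      rcases hT1 z hz with h7 | h7 <;> rw [h5, h6, h7] at h4 <;> rw [h5, h7] <;> linarith
  · left
    push Not at hA
    have hlt : ∀ z, Nat.Coprime z d → |s z| < d := fun z hz =>
      lt_of_le_of_ne (hsize z hz) (hA z hz)
    have h1 := hlt 1 hz1
    rw [abs_lt] at h1
    have ho1 := hodd 1 hz1
    have hdo' : (d : ℤ) % 2 = 1 := by exact_mod_cast hdo
    obtain ⟨y', hy'⟩ : ∃ y' : ℤ, s 1 + d = 2 * y' := ⟨(s 1 + d) / 2, by omega⟩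
    have hy0 : 0 ≤ y' := by omega
    obtain ⟨y, rfl⟩ := Int.eq_ofNat_of_zero_le hy0
    have hyd : ¬ d ∣ y := by
      intro h
      have h2 : 0 < y := by omega
      have h3 := Nat.le_of_dvd h2 h
      omega
    have hsz : ∀ z, Nat.Coprime z d → s z = saw ((z * y : ℕ) : ZMod d) := by
      intro z hz
      have hzy : ¬ d ∣ z * y := by rwa [dvd_coprime_mul hz]
      rw [saw_val _ hzy]
      have h2 := D.hlin z hz
      have h3 : (d : ℤ) ∣ s z - (2 * (((z * y) % d : ℕ) : ℤ) - d) := by
        have h4 : (d : ℤ) ∣ ((z * y : ℕ) : ℤ) - (((z * y) % d : ℕ) : ℤ) := by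
          refine ⟨((z * y / d : ℕ) : ℤ), ?_⟩
          have h41 : ((z * y : ℕ) : ℤ) =
              (d : ℤ) * ((z * y / d : ℕ) : ℤ) + ((z * y % d : ℕ) : ℤ) := by
            exact_mod_cast (Nat.div_add_mod (z * y) d).symm
          linarith
        have h5 : s z - (2 * (((z * y) % d : ℕ) : ℤ) - d) =
            (s z - z * s 1) + 2 * (((z * y : ℕ) : ℤ) - (((z * y) % d : ℕ) : ℤ)) +
              d * (1 - z) := by
          push_cast
          have : (z : ℤ) * s 1 = z * (2 * y - d) := by
            rw [← hy']; ring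
          rw [this]
          ring
        rw [h5]
        exact dvd_add (dvd_add h2 (h4.mul_left 2)) (Dvd.intro _ rfl)
      obtain ⟨w, hw⟩ := h3
      have h4 := hlt z hz
      rw [abs_lt] at h4
      have h5 : (z * y) % d < d := Nat.mod_lt _ (Nat.pos_of_ne_zero hd0)
      have h5' : 0 < (z * y) % d := Nat.pos_of_ne_zero fun h => hzy (Nat.dvd_of_mod_eq_zero h)
      have h6 : |(d : ℤ) * w| < 2 * d := by
        rw [← hw, abs_lt]
        constructor <;> omega
      rw [abs_mul, Nat.abs_cast] at h6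
      have h7 : |w| < 2 := by
        by_contra hcon
        push Not at hcon
        nlinarith
      have h8 : w % 2 = 0 := by
        have h9 := hodd z hz
        by_contra hcon
        have h10 : w % 2 = 1 := by omega
        have h11 : ((d : ℤ) * w) % 2 = 1 := by
          rw [Int.mul_emod, hdo', h10]; norm_num
        omega
      rw [abs_lt] at h7
      have h9 : w = 0 := by omega
      rw [h9, mul_zero] at hw
      linarith
    refine ⟨y, hyd, hsz, ?_⟩
    intro z hz
    apply mul_left_cancel₀ hdz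
    rw [D.hdT z hz, hsz z hz, hsz _ (h2c hz), th_saw hdo, mul_assoc]

end

end Pool.Agent.V1161
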