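import Pool.Agent.V1161.Tate

/-!
Abelian varieties of Fermat type: tensor products of the lines of the first cohomology groups of
Fermat curves.
-/

namespace Pool.Agent.V1161

open Finset Pool.Agent.H916R2 Pool.Agent.Y2.Cv

/-- A character of the Fermat curve of degree `m`: three nonzero residues with sum zero. -/
def IsTriple (m : ℕ) (b : Multiset (ZMod m)) : Prop :=
  Multiset.card b = 3 ∧ (0 : ZMod m) ∉ b ∧ b.sum = 0

lemma triple_sum {m : ℕ} (hm : 2 ≤ m) {b : Multiset (ZMod m)} (hb : IsTriple m b)
    (u : (ZMod m)ˣ) : (b.map fun a => ((u : ZMod m) * a).val).sum = m ∨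
      (b.map fun a => ((u : ZMod m) * a).val).sum = 2 * m := by
  have hmz : NeZero m := ⟨by omega⟩
  obtain ⟨h3, h0, hsum⟩ := hb
  obtain ⟨x, y, z, rfl⟩ := Multiset.card_eq_three.mp h3
  simp only [Multiset.insert_eq_cons, Multiset.map_cons, Multiset.map_singleton,
    Multiset.sum_cons, Multiset.sum_singleton, Multiset.mem_cons, Multiset.mem_singleton,
    not_or] at hsum h0 ⊢
  obtain ⟨hx, hy, hz⟩ := h0
  have pos : ∀ w : ZMod m, (0 : ZMod m) ≠ w → 0 < ((u : ZMod m) * w).val := by
    intro w hw
    apply Nat.pos_of_ne_zero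
    intro h
    exact hw ((u.isUnit.mul_right_eq_zero).mp ((ZMod.val_eq_zero _).mp h)).symm
  have h1 := pos x hx
  have h2 := pos y hy
  have h3 := pos z hz
  have h4 := ZMod.val_lt ((u : ZMod m) * x)
  have h5 := ZMod.val_lt ((u : ZMod m) * y)
  have h6 := ZMod.val_lt ((u : ZMod m) * z)
  have hdvd : m ∣ ((u : ZMod m) * x).val + (((u : ZMod m) * y).val + ((u : ZMod m) * z).val) := by
    rw [← ZMod.natCast_eq_zero_iff]
    push_cast
    rw [ZMod.natCast_zmod_val, ZMod.natCast_zmod_val, ZMod.natCast_zmod_val, ← mul_add, ← mul_add,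
      hsum, mul_zero]
  obtain ⟨j, hj⟩ := hdvd
  have hj1 : 0 < j := Nat.pos_of_ne_zero (by rintro rfl; omega)
  have hj3 : j < 3 := by
    by_contra hlt
    have : m * 3 ≤ m * j := Nat.mul_le_mul_left m (by omega)
    omega
  have hj' : j = 1 ∨ j = 2 := by omega
  rcases hj' with rfl | rfl
  · left; omega
  · right; omega

lemma join_sum {m : ℕ} (T : Multiset (Multiset (ZMod m))) (f : ZMod m → ℕ) :
    (T.join.map f).sum = (T.map fun b => (b.map f).sum).sum := by
  induction T using Multiset.induction_on with
  | empty => simp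
  | cons b T ih =>
    rw [Multiset.join_cons, Multiset.map_add, Multiset.sum_add, ih, Multiset.map_cons,
      Multiset.sum_cons]

lemma join_props {m : ℕ} {T : Multiset (Multiset (ZMod m))} (hT : ∀ b ∈ T, IsTriple m b) :
    (0 : ZMod m) ∉ T.join ∧ Multiset.card T.join = 3 * Multiset.card T ∧ T.join.sum = 0 := by
  induction T using Multiset.induction_on with
  | empty => simp
  | cons b T ih =>
    obtain ⟨h1, h2, h3⟩ := ih fun b hb => hT b (Multiset.mem_cons_of_mem hb)
    obtain ⟨g1, g2, g3⟩ := hT b (Multiset.mem_cons_self b T)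
    refine ⟨?_, ?_, ?_⟩
    · rw [Multiset.join_cons, Multiset.mem_add, not_or]
      exact ⟨g2, h1⟩
    · rw [Multiset.join_cons, Multiset.card_add, h2, g1, Multiset.card_cons]; ring
    · rw [Multiset.join_cons, Multiset.sum_add, g3, h3, add_zero]

/-- The Hodge type of a tensor product of lines of triples. -/
lemma hodge_join {m p : ℕ} (hm : 2 ≤ m) {T : Multiset (Multiset (ZMod m))}
    (hcard : Multiset.card T = 2 * p) (hT : ∀ b ∈ T, IsTriple m b)
    (hH : ∀ u : (ZMod m)ˣ,
      T.countP (fun b => (b.map fun a => ((u : ZMod m) * a).val).sum = m) = p) :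
    IsHodge m T.join := by
  obtain ⟨h0, hc, hs⟩ := join_props hT
  refine ⟨h0, ?_, hs, ?_⟩
  · rw [hc, hcard]
    exact ⟨3 * p, by ring⟩
  intro u
  rw [join_sum, hc, hcard]
  have key : ∀ T : Multiset (Multiset (ZMod m)), (∀ b ∈ T, IsTriple m b) →
      (T.map fun b => (b.map fun a => ((u : ZMod m) * a).val).sum).sum +
        m * T.countP (fun b => (b.map fun a => ((u : ZMod m) * a).val).sum = m) =
        2 * m * Multiset.card T := by
    intro T
    induction T using Multiset.induction_on with
    | empty => simp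
    | cons b T ih =>
      intro hT
      have ih' := ih fun b hb => hT b (Multiset.mem_cons_of_mem hb)
      have hb := triple_sum hm (hT b (Multiset.mem_cons_self b T)) u
      rw [Multiset.map_cons, Multiset.sum_cons, Multiset.countP_cons, Multiset.card_cons]
      rcases hb with hb | hb
      · rw [if_pos hb, hb]
        linarith
      · rw [if_neg (by rw [hb]; omega), hb]
        linarith
  have h1 := key T hT
  rw [hH u, hcard] at h1
  have h2 : (T.map fun b => (b.map fun a => ((u : ZMod m) * a).val).sum).sum = 3 * (m * p) := by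
    have h3 : 2 * m * (2 * p) = 3 * (m * p) + m * p := by ring
    omega
  rw [h2]; ring

end Pool.Agent.V1161
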