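import Pool.Agent.V1161.Excl

/-!
A weight function with large averages on the cosets of the subgroups of prime order.
-/

namespace Pool.Agent.V1161

open Finset Pool.Agent.H916R2 Pool.Agent.Y2

/-- the weight -/
def Wn (d v : ℕ) : ℕ := min (3 * min (v % d) (d - v % d)) (2 * d - 3 * min (v % d) (d - v % d))

lemma Wn_le (d v : ℕ) : Wn d v ≤ d := by
  unfold Wn
  omega

lemma Wn_mod (d v : ℕ) : Wn d (v % d) = Wn d v := by
  unfold Wn
  rw [Nat.mod_mod]

lemma Wn_congr {d v w : ℕ} (h : v ≡ w [MOD d]) : Wn d v = Wn d w := by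
  rw [← Wn_mod, h, Wn_mod]

lemma Wn_r1 {d v : ℕ} (h : v < d) (h1 : 3 * v ≤ d) : Wn d v = 3 * v := by
  unfold Wn
  rw [Nat.mod_eq_of_lt h, min_eq_left (by omega : v ≤ d - v), min_eq_left (by omega)]

lemma Wn_r2 {d v : ℕ} (h : v < d) (h1 : d ≤ 3 * v) (h2 : 2 * v ≤ d) :
    Wn d v = 2 * d - 3 * v := by
  unfold Wn
  rw [Nat.mod_eq_of_lt h, min_eq_left (by omega : v ≤ d - v), min_eq_right (by omega)]

lemma Wn_r3 {d v : ℕ} (h : v < d) (h1 : d ≤ 2 * v) (h2 : 3 * v ≤ 2 * d) :
    Wn d v = 3 * v - d := by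
  unfold Wn
  rw [Nat.mod_eq_of_lt h, min_eq_right (by omega : d - v ≤ v), min_eq_right (by omega)]
  omega

lemma Wn_r4 {d v : ℕ} (h : v < d) (h1 : 2 * d ≤ 3 * v) : Wn d v = 3 * (d - v) := by
  unfold Wn
  rw [Nat.mod_eq_of_lt h, min_eq_right (by omega : d - v ≤ v), min_eq_left (by omega)]

lemma sum_lin (α β : ℤ) (n : ℕ) :
    2 * ∑ t ∈ range n, (α + β * t) = n * (2 * α + β * (n - 1)) := by
  induction n with
  | zero => simp
  | succ n ih =>
    rw [sum_range_succ, mul_add, ih]
    push_cast
    ring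

lemma sum_W (g x t1 t2 t3 t4 r d : ℕ) (hr : t1 + t2 + t3 + t4 = r) (hd : d = r * g) (hx : x < g)
    (h1 : 3 * (x + t1 * g) ≤ d + 3 * g) (h2 : d ≤ 3 * (x + t1 * g))
    (h2' : 2 * (x + (t1 + t2) * g) ≤ d + 2 * g) (h3 : d ≤ 2 * (x + (t1 + t2) * g))
    (h3' : 3 * (x + (t1 + t2 + t3) * g) ≤ 2 * d + 3 * g)
    (h4 : 2 * d ≤ 3 * (x + (t1 + t2 + t3) * g)) :
    2 * ∑ t ∈ range r, (Wn d (x + t * g) : ℤ) =
      (t1 : ℤ) * (2 * (3 * x) + 3 * g * (t1 - 1)) +
      t2 * (2 * (2 * d - 3 * (x + t1 * g)) + (-(3 * g)) * (t2 - 1)) +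
      t3 * (2 * (3 * (x + (t1 + t2) * g) - d) + 3 * g * (t3 - 1)) +
      t4 * (2 * (3 * d - 3 * (x + (t1 + t2 + t3) * g)) + (-(3 * g)) * (t4 - 1)) := by
  have hlt : ∀ t, t < r → x + t * g < d := by
    intro t ht
    have h5 : (t + 1) * g ≤ r * g := Nat.mul_le_mul_right g (by omega)
    rw [hd]
    have h6 : (t + 1) * g = t * g + g := by ring
    omega
  have e1 : ∀ t ∈ range t1, (Wn d (x + t * g) : ℤ) = 3 * (x : ℤ) + 3 * g * t := by
    intro t ht
    have ht' := mem_range.mp ht
    have h5 : (t + 1) * g ≤ t1 * g := Nat.mul_le_mul_right g (by omega)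
    have h6 : (t + 1) * g = t * g + g := by ring
    have h7 := hlt t (by omega)
    have h8 : Wn d (x + t * g) = 3 * (x + t * g) := by
      unfold Wn
      rw [Nat.mod_eq_of_lt h7]
      omega
    rw [h8]; push_cast; ring
  have e2 : ∀ t ∈ range t2, (Wn d (x + (t1 + t) * g) : ℤ) =
      (2 * d - 3 * (x + t1 * g)) + (-(3 * g)) * t := by
    intro t ht
    have ht' := mem_range.mp ht
    have h5 : (t1 + t + 1) * g ≤ (t1 + t2) * g := Nat.mul_le_mul_right g (by omega)
    have h6 : (t1 + t + 1) * g = (t1 + t) * g + g := by ring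
    have h9 : t1 * g ≤ (t1 + t) * g := Nat.mul_le_mul_right g (by omega)
    have h7 := hlt (t1 + t) (by omega)
    have h8 : Wn d (x + (t1 + t) * g) = 2 * d - 3 * (x + (t1 + t) * g) := by
      unfold Wn
      rw [Nat.mod_eq_of_lt h7]
      omega
    have h10 : 3 * (x + (t1 + t) * g) ≤ 2 * d := by omega
    rw [h8, Nat.cast_sub h10]; push_cast; ring
  have e3 : ∀ t ∈ range t3, (Wn d (x + (t1 + t2 + t) * g) : ℤ) =
      (3 * (x + (t1 + t2) * g) - d) + 3 * g * t := by
    intro t ht
    have ht' := mem_range.mp ht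
    have h5 : (t1 + t2 + t + 1) * g ≤ (t1 + t2 + t3) * g := Nat.mul_le_mul_right g (by omega)
    have h6 : (t1 + t2 + t + 1) * g = (t1 + t2 + t) * g + g := by ring
    have h9 : (t1 + t2) * g ≤ (t1 + t2 + t) * g := Nat.mul_le_mul_right g (by omega)
    have h7 := hlt (t1 + t2 + t) (by omega)
    have h8 : Wn d (x + (t1 + t2 + t) * g) = 3 * (x + (t1 + t2 + t) * g) - d := by
      unfold Wn
      rw [Nat.mod_eq_of_lt h7]
      omega
    have h10 : d ≤ 3 * (x + (t1 + t2 + t) * g) := by omega
    rw [h8, Nat.cast_sub h10]; push_cast; ring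
  have e4 : ∀ t ∈ range t4, (Wn d (x + (t1 + t2 + t3 + t) * g) : ℤ) =
      (3 * d - 3 * (x + (t1 + t2 + t3) * g)) + (-(3 * g)) * t := by
    intro t ht
    have ht' := mem_range.mp ht
    have h9 : (t1 + t2 + t3) * g ≤ (t1 + t2 + t3 + t) * g := Nat.mul_le_mul_right g (by omega)
    have h7 := hlt (t1 + t2 + t3 + t) (by omega)
    have h8 : Wn d (x + (t1 + t2 + t3 + t) * g) = 3 * d - 3 * (x + (t1 + t2 + t3 + t) * g) := by
      unfold Wn
      rw [Nat.mod_eq_of_lt h7]
      omega
    have h10 : 3 * (x + (t1 + t2 + t3 + t) * g) ≤ 3 * d := by omega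
    rw [h8, Nat.cast_sub h10]; push_cast; ring
  rw [← hr, sum_range_add, sum_range_add, sum_range_add, sum_congr rfl e1, sum_congr rfl e2,
    sum_congr rfl e3, sum_congr rfl e4, mul_add, mul_add, mul_add, sum_lin, sum_lin, sum_lin,
    sum_lin]

/-- the sum over a coset -/
lemma sum_W_ge {g x r : ℕ} (hr : r % 6 = 1 ∨ r % 6 = 5) (hx : x < g) :
    7 * ((r : ℤ) ^ 2 - 1) * g ≤ 12 * ∑ t ∈ range r, (Wn (r * g) (x + t * g) : ℤ) := by
  obtain ⟨k, hk⟩ : ∃ k, r = 6 * k + r % 6 := ⟨r / 6, by omega⟩
  have hxz : (x : ℤ) < g := by exact_mod_cast hx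
  have hx0 : (0 : ℤ) ≤ x := by positivity
  rcases hr with hr | hr
  · rw [hr] at hk
    have hrg : r * g = 6 * (k * g) + g := by rw [hk]; ring
    rcases le_total (3 * x) g with c1 | c1
    · have := sum_W g x (2 * k + 1) k k (2 * k) r (r * g) (by omega) rfl hx
        (by linarith) (by linarith)
        (by linarith) (by linarith)
        (by linarith) (by linarith)
      have h12 : 12 * ∑ t ∈ range r, (Wn (r * g) (x + t * g) : ℤ) =
        6 * (2 * ∑ t ∈ range r, (Wn (r * g) (x + t * g) : ℤ)) := by ring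
      rw [h12, this, hk]
      push_cast
      have c1' : 3 * (x : ℤ) ≤ g := by exact_mod_cast c1
      linarith
    · rcases le_total (2 * x) g with c2 | c2
      · have := sum_W g x (2 * k) (k + 1) k (2 * k) r (r * g) (by omega) rfl hx
          (by linarith) (by linarith)
          (by linarith) (by linarith)
          (by linarith) (by linarith)
        have h12 : 12 * ∑ t ∈ range r, (Wn (r * g) (x + t * g) : ℤ) =
          6 * (2 * ∑ t ∈ range r, (Wn (r * g) (x + t * g) : ℤ)) := by ring
        rw [h12, this, hk]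
        push_cast
        have c1' : (g : ℤ) ≤ 3 * x := by exact_mod_cast c1
        have c2' : 2 * (x : ℤ) ≤ g := by exact_mod_cast c2
        linarith
      · rcases le_total (3 * x) (2 * g) with c3 | c3
        · have := sum_W g x (2 * k) k (k + 1) (2 * k) r (r * g) (by omega) rfl hx
            (by linarith) (by linarith)
            (by linarith) (by linarith)
            (by linarith) (by linarith)
          have h12 : 12 * ∑ t ∈ range r, (Wn (r * g) (x + t * g) : ℤ) =
            6 * (2 * ∑ t ∈ range r, (Wn (r * g) (x + t * g) : ℤ)) := by ring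
          rw [h12, this, hk]
          push_cast
          have c2' : (g : ℤ) ≤ 2 * x := by exact_mod_cast c2
          have c3' : 3 * (x : ℤ) ≤ 2 * g := by exact_mod_cast c3
          linarith
        · have := sum_W g x (2 * k) k k (2 * k + 1) r (r * g) (by omega) rfl hx
            (by linarith) (by linarith)
            (by linarith) (by linarith)
            (by linarith) (by linarith)
          have h12 : 12 * ∑ t ∈ range r, (Wn (r * g) (x + t * g) : ℤ) =
            6 * (2 * ∑ t ∈ range r, (Wn (r * g) (x + t * g) : ℤ)) := by ring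
          rw [h12, this, hk]
          push_cast
          have c3' : 2 * (g : ℤ) ≤ 3 * x := by exact_mod_cast c3
          linarith
  · rw [hr] at hk
    have hrg : r * g = 6 * (k * g) + 5 * g := by rw [hk]; ring
    rcases le_total (3 * x) g with c1 | c1
    · have := sum_W g x (2 * k + 2) (k + 1) (k + 1) (2 * k + 1) r (r * g) (by omega) rfl hx
        (by linarith) (by linarith)
        (by linarith) (by linarith)
        (by linarith) (by linarith)
      have h12 : 12 * ∑ t ∈ range r, (Wn (r * g) (x + t * g) : ℤ) =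
        6 * (2 * ∑ t ∈ range r, (Wn (r * g) (x + t * g) : ℤ)) := by ring
      rw [h12, this, hk]
      push_cast
      have c1' : 3 * (x : ℤ) ≤ g := by exact_mod_cast c1
      linarith
    · rcases le_total (2 * x) g with c2 | c2
      · have := sum_W g x (2 * k + 2) (k + 1) k (2 * k + 2) r (r * g) (by omega) rfl hx
          (by linarith) (by linarith)
          (by linarith) (by linarith)
          (by linarith) (by linarith)
        have h12 : 12 * ∑ t ∈ range r, (Wn (r * g) (x + t * g) : ℤ) =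
          6 * (2 * ∑ t ∈ range r, (Wn (r * g) (x + t * g) : ℤ)) := by ring
        rw [h12, this, hk]
        push_cast
        have c1' : (g : ℤ) ≤ 3 * x := by exact_mod_cast c1
        have c2' : 2 * (x : ℤ) ≤ g := by exact_mod_cast c2
        linarith
      · rcases le_total (3 * x) (2 * g) with c3 | c3
        · have := sum_W g x (2 * k + 2) k (k + 1) (2 * k + 2) r (r * g) (by omega) rfl hx
            (by linarith) (by linarith)
            (by linarith) (by linarith)
            (by linarith) (by linarith)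
          have h12 : 12 * ∑ t ∈ range r, (Wn (r * g) (x + t * g) : ℤ) =
            6 * (2 * ∑ t ∈ range r, (Wn (r * g) (x + t * g) : ℤ)) := by ring
          rw [h12, this, hk]
          push_cast
          have c2' : (g : ℤ) ≤ 2 * x := by exact_mod_cast c2
          have c3' : 3 * (x : ℤ) ≤ 2 * g := by exact_mod_cast c3
          linarith
        · have := sum_W g x (2 * k + 1) (k + 1) (k + 1) (2 * k + 2) r (r * g) (by omega) rfl hx
            (by linarith) (by linarith)
            (by linarith) (by linarith)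
            (by linarith) (by linarith)
          have h12 : 12 * ∑ t ∈ range r, (Wn (r * g) (x + t * g) : ℤ) =
            6 * (2 * ∑ t ∈ range r, (Wn (r * g) (x + t * g) : ℤ)) := by ring
          rw [h12, this, hk]
          push_cast
          have c3' : 2 * (g : ℤ) ≤ 3 * x := by exact_mod_cast c3
          linarith

lemma Wn_coset {g r : ℕ} (hr : 0 < r) (x j : ℕ) :
    ∑ t ∈ range r, (Wn (r * g) (x + j * g + t * g) : ℤ) =
      ∑ t ∈ range r, (Wn (r * g) (x + t * g) : ℤ) :=
  coset_shift_mul (C := fun v => (Wn (r * g) v : ℤ)) hr rfl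
    (fun _ _ h => by simp only [Wn_congr h]) x j

/-- the sum over a coset without one of its elements -/
lemma W_all_but_one {g r : ℕ} (hg : 0 < g) (hr3 : 3 ≤ r)
    (hr : r = 3 ∨ r % 6 = 1 ∨ r % 6 = 5) (x : ℕ) :
    ((r : ℤ) - 1) * (r * g : ℕ) + 2 * (Wn (r * g) x : ℤ) ≤
      2 * ∑ t ∈ range r, (Wn (r * g) (x + t * g) : ℤ) := by
  -- the representative
  set y := x % (r * g) with hy
  have hrg : 0 < r * g := Nat.mul_pos (by omega) hg
  have hyl : y < r * g := Nat.mod_lt _ hrg
  obtain ⟨x0, s, hx0, hs, hys⟩ : ∃ x0 s, x0 < g ∧ s < r ∧ y = x0 + s * g := by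
    refine ⟨y % g, y / g, Nat.mod_lt _ hg, ?_, ?_⟩
    · exact Nat.div_lt_of_lt_mul (by rwa [mul_comm])
    · rw [mul_comm]; exact (Nat.mod_add_div y g).symm
  have hxy : x ≡ x0 + s * g [MOD r * g] := by
    rw [← hys]; exact (Nat.mod_modEq x _).symm
  have e1 : ∑ t ∈ range r, (Wn (r * g) (x + t * g) : ℤ) =
      ∑ t ∈ range r, (Wn (r * g) (x0 + t * g) : ℤ) := by
    rw [← Wn_coset (by omega) x0 s]
    refine sum_congr rfl fun t _ => ?_
    rw [Wn_congr (hxy.add_right (t * g))]
  rw [e1, Wn_congr hxy]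
  have hmod : ∀ j, j < r → (x0 + j * g) % (r * g) = x0 + j * g := by
    intro j hj
    apply Nat.mod_eq_of_lt
    have h5 : (j + 1) * g ≤ r * g := Nat.mul_le_mul_right g (by omega)
    have h6 : (j + 1) * g = j * g + g := by ring
    omega
  rcases hr with rfl | hr
  · have h0 := hmod 0 (by norm_num)
    have h1 := hmod 1 (by norm_num)
    have h2 := hmod 2 (by norm_num)
    have h3 := hmod s hs
    simp only [sum_range_succ, sum_range_zero]
    unfold Wn
    rw [h0, h1, h2, h3]
    interval_cases s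
    · push_cast; omega
    · push_cast; omega
    · push_cast; omega
  · by_cases hr5 : r = 5
    · subst hr5
      have h0 := hmod 0 (by norm_num)
      have h1 := hmod 1 (by norm_num)
      have h2 := hmod 2 (by norm_num)
      have h3 := hmod 3 (by norm_num)
      have h4 := hmod 4 (by norm_num)
      have v0 : Wn (5 * g) (x0 + 0 * g) = 3 * x0 := by
        rw [Wn_r1 (by omega) (by omega)]; omega
      have v1 : Wn (5 * g) (x0 + 1 * g) = 3 * x0 + 3 * g ∧ 3 * x0 ≤ 2 * g ∨
          Wn (5 * g) (x0 + 1 * g) = 7 * g - 3 * x0 ∧ 2 * g ≤ 3 * x0 := by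
        rcases le_total (3 * x0) (2 * g) with h | h
        · left
          rw [Wn_r1 (by omega) (by omega)]
          exact ⟨by omega, h⟩
        · right
          rw [Wn_r2 (by omega) (by omega) (by omega)]
          exact ⟨by omega, h⟩
      have v2 : Wn (5 * g) (x0 + 2 * g) = 4 * g - 3 * x0 ∧ 2 * x0 ≤ g ∨
          Wn (5 * g) (x0 + 2 * g) = g + 3 * x0 ∧ g ≤ 2 * x0 := by
        rcases le_total (2 * x0) g with h | h
        · left
          rw [Wn_r2 (by omega) (by omega) (by omega)]
          exact ⟨by omega, h⟩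
        · right
          rw [Wn_r3 (by omega) (by omega) (by omega)]
          exact ⟨by omega, h⟩
      have v3 : Wn (5 * g) (x0 + 3 * g) = 4 * g + 3 * x0 ∧ 3 * x0 ≤ g ∨
          Wn (5 * g) (x0 + 3 * g) = 6 * g - 3 * x0 ∧ g ≤ 3 * x0 := by
        rcases le_total (3 * x0) g with h | h
        · left
          rw [Wn_r3 (by omega) (by omega) (by omega)]
          exact ⟨by omega, h⟩
        · right
          rw [Wn_r4 (by omega) (by omega)]
          exact ⟨by omega, h⟩
      have v4 : Wn (5 * g) (x0 + 4 * g) = 3 * g - 3 * x0 := by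
        rw [Wn_r4 (by omega) (by omega)]; omega
      clear h0 h1 h2 h3 h4 hmod e1 hxy hys hyl hy hrg
      simp only [sum_range_succ, sum_range_zero]
      interval_cases s
      · push_cast; omega
      · push_cast; omega
      · push_cast; omega
      · push_cast; omega
      · push_cast; omega
    · have hr7 : 7 ≤ r := by omega
      have h1 := sum_W_ge hr hx0
      have h2 := Wn_le (r * g) (x0 + s * g)
      have h3 : (Wn (r * g) (x0 + s * g) : ℤ) ≤ r * g := by exact_mod_cast h2
      have h4 : (0 : ℤ) ≤ ((r : ℤ) - 7) * (r + 1) * g := by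
        have : (7 : ℤ) ≤ r := by exact_mod_cast hr7
        have hg' : (0 : ℤ) ≤ g := by positivity
        have h7 : (0 : ℤ) ≤ ((r : ℤ) - 7) * (r + 1) := by nlinarith
        positivity
      push_cast
      nlinarith

end Pool.Agent.V1161
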