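import Pool.Agent.V1161.WAv

/-!
The average of the weight over the multiples by units, and the exclusion of the exceptional case.
-/

namespace Pool.Agent.V1161

open Finset Pool.Agent.H916R2 Pool.Agent.Y2

lemma W_unit_mul {d : ℕ} [NeZero d] {κ : ℕ} (hκ : Nat.Coprime κ d) (b : ℕ) :
    ∑ u : (ZMod d)ˣ, Wn d (κ * ((u : ZMod d).val * b)) =
      ∑ u : (ZMod d)ˣ, Wn d ((u : ZMod d).val * b) := by
  refine Fintype.sum_equiv (Equiv.mulLeft (ZMod.unitOfCoprime κ hκ)) _ _ fun u => ?_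
  apply Wn_congr
  rw [← ZMod.natCast_eq_natCast_iff, Equiv.coe_mulLeft, Units.val_mul, ZMod.coe_unitOfCoprime]
  push_cast
  rw [ZMod.natCast_zmod_val, ZMod.natCast_zmod_val]
  ring

/-- **The average of the weight.** -/
theorem W_aver {d : ℕ} [NeZero d] (hd : d % 2 = 1) {b : ℕ} (hb : ¬ d ∣ b) :
    d * Nat.totient d ≤ 2 * ∑ u : (ZMod d)ˣ, Wn d ((u : ZMod d).val * b) := by
  have hd0 : d ≠ 0 := NeZero.ne d
  -- the order
  obtain ⟨D, hDd, hDb, hDmin⟩ : ∃ D, D ∣ d ∧ d ∣ D * b ∧ ∀ n, d ∣ n * b → D ∣ n := by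
    refine ⟨d / Nat.gcd d b, Nat.div_dvd_of_dvd (Nat.gcd_dvd_left d b), ?_, ?_⟩
    · obtain ⟨w, hw⟩ := Nat.gcd_dvd_right d b
      have h1 : d / Nat.gcd d b * b = d * w := by
        calc d / Nat.gcd d b * b = d / Nat.gcd d b * (Nat.gcd d b * w) := by rw [← hw]
          _ = (d / Nat.gcd d b * Nat.gcd d b) * w := by ring
          _ = d * w := by rw [Nat.div_mul_cancel (Nat.gcd_dvd_left d b)]
      exact ⟨w, h1⟩
    · intro n hn
      have hg : 0 < Nat.gcd d b := Nat.gcd_pos_of_pos_left b (Nat.pos_of_ne_zero hd0)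
      have h1 : Nat.Coprime (d / Nat.gcd d b) (b / Nat.gcd d b) := Nat.coprime_div_gcd_div_gcd hg
      apply h1.dvd_of_dvd_mul_right
      have h2 : Nat.gcd d b * (d / Nat.gcd d b) ∣ Nat.gcd d b * (n * (b / Nat.gcd d b)) := by
        rw [Nat.mul_div_cancel' (Nat.gcd_dvd_left d b)]
        have h3 : Nat.gcd d b * (n * (b / Nat.gcd d b)) = n * b := by
          calc Nat.gcd d b * (n * (b / Nat.gcd d b)) = n * (Nat.gcd d b * (b / Nat.gcd d b)) := by
                ring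
            _ = n * b := by rw [Nat.mul_div_cancel' (Nat.gcd_dvd_right d b)]
        rw [h3]
        exact hn
      exact Nat.dvd_of_mul_dvd_mul_left hg h2
  have hD1 : D ≠ 1 := by
    rintro rfl
    rw [one_mul] at hDb
    exact hb hDb
  have hD0 : D ≠ 0 := fun h => by rw [h] at hDd; exact hd0 (zero_dvd_iff.mp hDd)
  obtain ⟨r, hr, hrD⟩ := Nat.exists_prime_and_dvd hD1
  obtain ⟨e, he⟩ := hrD
  have he0 : 0 < e := Nat.pos_of_ne_zero (by rintro rfl; rw [mul_zero] at he; exact hD0 he)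
  have hrd : r ∣ d := (Dvd.intro e he.symm).trans hDd
  obtain ⟨g, hg⟩ := hrd
  have hg0 : 0 < g := Nat.pos_of_ne_zero (by rintro rfl; rw [mul_zero] at hg; exact hd0 hg)
  have hr2 := hr.two_le
  have hrodd : r % 2 = 1 := by
    have h1 := hd
    rw [hg, ← Nat.odd_iff, Nat.odd_mul] at h1
    exact Nat.odd_iff.mp h1.1
  have hr6 : r = 3 ∨ r % 6 = 1 ∨ r % 6 = 5 := by
    by_cases h3 : r = 3
    · exact Or.inl h3
    · right
      have h4 : ¬ 3 ∣ r := fun h => h3 ((Nat.prime_dvd_prime_iff_eq Nat.prime_three hr).mp h).symm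
      omega
  -- the multipliers
  obtain ⟨ε0, hε0, hε⟩ : ∃ ε0 ∈ range r, ∀ ε ∈ range r, ε ≠ ε0 → Nat.Coprime (1 + ε * e) D := by
    have hcop : ∀ ε, ¬ r ∣ 1 + ε * e → Nat.Coprime (1 + ε * e) D := by
      intro ε h1
      apply Nat.coprime_of_dvd
      intro p hp h2 h3
      rw [he] at h3
      rcases (Nat.Prime.dvd_mul hp).mp h3 with h4 | h4
      · have h5 : p = r := (Nat.prime_dvd_prime_iff_eq hp hr).mp h4
        subst h5
        exact h1 h2
      · have h5 : p ∣ 1 := (Nat.dvd_add_left (h4.mul_left ε)).mp h2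
        exact hp.one_lt.ne' (Nat.dvd_one.mp h5)
    by_cases h : ∃ ε0 ∈ range r, r ∣ 1 + ε0 * e
    · obtain ⟨ε0, h1, h2⟩ := h
      refine ⟨ε0, h1, fun ε h3 h4 => hcop ε fun h5 => h4 ?_⟩
      have hre : ¬ r ∣ e := by
        intro h6
        have h7 : r ∣ 1 := (Nat.dvd_add_left (h6.mul_left ε0)).mp h2
        exact hr.one_lt.ne' (Nat.dvd_one.mp h7)
      have h6 : 1 + ε * e ≡ 1 + ε0 * e [MOD r] :=
        ((Nat.modEq_zero_iff_dvd).mpr h5).trans ((Nat.modEq_zero_iff_dvd).mpr h2).symm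
      have h7 : ε * e ≡ ε0 * e [MOD r] := Nat.ModEq.add_left_cancel' 1 h6
      have h8 : ε ≡ ε0 [MOD r] :=
        Nat.ModEq.cancel_right_of_coprime ((Nat.Prime.coprime_iff_not_dvd hr).mpr hre) h7
      exact Nat.ModEq.eq_of_lt_of_lt h8 (mem_range.mp h3) (mem_range.mp h1)
    · push Not at h
      exact ⟨0, mem_range.mpr hr.pos, fun ε h3 _ => hcop ε (h ε h3)⟩
  set S := ∑ u : (ZMod d)ˣ, Wn d ((u : ZMod d).val * b) with hS
  have hrow : ∀ ε ∈ (range r).erase ε0,
      ∑ u : (ZMod d)ˣ, Wn d ((1 + ε * e) * ((u : ZMod d).val * b)) = S := by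
    intro ε h1
    obtain ⟨κ, hκ, hκD⟩ := lift_coprime hDd hd0 (hε ε (mem_of_mem_erase h1) (ne_of_mem_erase h1))
    rw [hS, ← W_unit_mul hκ b]
    refine sum_congr rfl fun u _ => ?_
    apply Wn_congr
    have h2 : κ * b ≡ (1 + ε * e) * b [MOD d] := by
      have h3 : κ * b ≡ (1 + ε * e) * b [MOD D * b] := Nat.ModEq.mul_right' b hκD
      exact h3.of_dvd hDb
    have h3 := h2.symm.mul_left ((u : ZMod d).val)
    have e1 : (u : ZMod d).val * ((1 + ε * e) * b) = (1 + ε * e) * ((u : ZMod d).val * b) := by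
      ring
    have e2 : (u : ZMod d).val * (κ * b) = κ * ((u : ZMod d).val * b) := by ring
    rw [e1, e2] at h3
    exact h3
  -- the inequality for one unit
  have hcol : ∀ u : (ZMod d)ˣ, ((r : ℤ) - 1) * d ≤
      2 * ∑ ε ∈ (range r).erase ε0, (Wn d ((1 + ε * e) * ((u : ZMod d).val * b)) : ℤ) := by
    intro u
    set v := (u : ZMod d).val * b with hv
    have hub : Nat.Coprime (u : ZMod d).val d := ZMod.val_coe_unit_coprime u
    obtain ⟨k, hk⟩ : g ∣ e * v := by
      have h1 : d ∣ r * (e * v) := by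
        have : r * (e * v) = (u : ZMod d).val * (D * b) := by rw [hv, he]; ring
        rw [this]
        exact hDb.mul_left _
      rw [hg] at h1
      exact Nat.dvd_of_mul_dvd_mul_left hr.pos h1
    have hkr : Nat.Coprime k r := by
      rw [Nat.coprime_comm, Nat.Prime.coprime_iff_not_dvd hr]
      rintro ⟨w, hw⟩
      have h1 : d ∣ e * v := by rw [hk, hw, hg]; exact ⟨w, by ring⟩
      have h2 : d ∣ (u : ZMod d).val * (e * b) := by
        have : (u : ZMod d).val * (e * b) = e * v := by rw [hv]; ring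
        rw [this]; exact h1
      have h3 : d ∣ e * b := (Nat.coprime_comm.mp hub).dvd_of_dvd_mul_left h2
      have h4 := hDmin e h3
      have h5 := Nat.le_of_dvd he0 h4
      rw [he] at h5
      nlinarith
    have e1 : ∀ ε, (1 + ε * e) * v = v + k * ε * g := by
      intro ε
      have : (1 + ε * e) * v = v + ε * (e * v) := by ring
      rw [this, hk]; ring
    have hper : ∀ x y, x ≡ y [MOD d] → (Wn d x : ℤ) = (Wn d y : ℤ) := fun x y h => by
      rw [Wn_congr h]
    have h1 : ∑ ε ∈ range r, (Wn d ((1 + ε * e) * v) : ℤ) =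
        ∑ t ∈ range r, (Wn d ((1 + ε0 * e) * v + t * g) : ℤ) := by
      have h2 := coset_mul (C := fun x => (Wn d x : ℤ)) hr.pos hg.symm hper hkr v
      have h3 := coset_shift_mul (C := fun x => (Wn d x : ℤ)) hr.pos hg.symm hper v (k * ε0)
      rw [e1 ε0, h3, ← h2]
      refine sum_congr rfl fun ε _ => ?_
      rw [e1]
    have h2 := W_all_but_one hg0 (by omega : 3 ≤ r) hr6 ((1 + ε0 * e) * v)
    rw [← hg, ← h1, ← Finset.add_sum_erase _ _ hε0] at h2
    linarith
  have htot : ((r : ℤ) - 1) * (d * Nat.totient d) ≤ ((r : ℤ) - 1) * (2 * (S : ℤ)) := by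
    have h1 : ∑ _u : (ZMod d)ˣ, ((r : ℤ) - 1) * d ≤
        ∑ u : (ZMod d)ˣ, 2 * ∑ ε ∈ (range r).erase ε0,
          (Wn d ((1 + ε * e) * ((u : ZMod d).val * b)) : ℤ) := sum_le_sum fun u _ => hcol u
    rw [← mul_sum, ← mul_sum, sum_comm] at h1
    have h2 : ∑ ε ∈ (range r).erase ε0, ∑ u : (ZMod d)ˣ,
        (Wn d ((1 + ε * e) * ((u : ZMod d).val * b)) : ℤ) = ((r : ℤ) - 1) * S := by
      have h3 : ∀ ε ∈ (range r).erase ε0, ∑ u : (ZMod d)ˣ,
          (Wn d ((1 + ε * e) * ((u : ZMod d).val * b)) : ℤ) = (S : ℤ) := by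
        intro ε hε
        rw [← hrow ε hε]
        push_cast
        rfl
      rw [sum_congr rfl h3, sum_const, Finset.card_erase_of_mem hε0, card_range, nsmul_eq_mul,
        Nat.cast_sub hr.one_le, Nat.cast_one]
    rw [h2, sum_const, Finset.card_univ, ZMod.card_units_eq_totient, nsmul_eq_mul] at h1
    linarith
  have hr1 : (0 : ℤ) < (r : ℤ) - 1 := by
    have : (2 : ℤ) ≤ r := by exact_mod_cast hr2
    linarith
  have h5 := le_of_mul_le_mul_left htot hr1
  exact_mod_cast h5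

lemma W_aver_sum {d : ℕ} [NeZero d] (hd : d % 2 = 1) (B : Multiset ℕ) (hB : ∀ b ∈ B, ¬ d ∣ b) :
    Multiset.card B * (d * Nat.totient d) ≤
      2 * ∑ u : (ZMod d)ˣ, (B.map fun b : ℕ => Wn d ((u : ZMod d).val * b)).sum := by
  induction B using Multiset.induction_on with
  | empty => simp
  | cons b B ih =>
    have h1 := ih fun x hx => hB x (Multiset.mem_cons_of_mem hx)
    have h2 := W_aver hd (hB b (Multiset.mem_cons_self b B))
    have h5 : ∑ u : (ZMod d)ˣ, ((b ::ₘ B).map fun b : ℕ => Wn d ((u : ZMod d).val * b)).sum =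
        ∑ u : (ZMod d)ˣ, Wn d ((u : ZMod d).val * b) +
          ∑ u : (ZMod d)ˣ, (B.map fun b : ℕ => Wn d ((u : ZMod d).val * b)).sum := by
      rw [← sum_add_distrib]
      refine sum_congr rfl fun u _ => ?_
      rw [Multiset.map_cons, Multiset.sum_cons]
    rw [h5, Multiset.card_cons, mul_add, add_mul, one_mul]
    omega

lemma Wn_nd {d : ℕ} [NeZero d] (x : ℕ) :
    Wn d x = min (3 * nd d (x : ZMod d)) (2 * d - 3 * nd d (x : ZMod d)) := by
  rw [nd_eq, ZMod.val_natCast]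
  rfl

lemma sum_Wn_le {d : ℕ} [NeZero d] (e : ℤ) (he : e = 1 ∨ e = -1)
    (B : Multiset ℕ) (z : ℕ) (hB : ∀ b ∈ B, ¬ d ∣ z * b) :
    (B.map fun b => (Wn d (z * b) : ℤ)).sum ≤
      3 * (e * (B.map fun b => th d (z * b) * (nd d ((z * b : ℕ) : ZMod d) : ℤ)).sum) +
      d * (Multiset.card B - e * Pool.Agent.Y2.ST d B z) := by
  unfold Pool.Agent.Y2.ST
  induction B using Multiset.induction_on with
  | empty => simp
  | cons b B ih =>
    have h1 := ih fun x hx => hB x (Multiset.mem_cons_of_mem hx)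
    simp only [Multiset.map_cons, Multiset.sum_cons, Multiset.card_cons]
    have h2 := th_cases (hB b (Multiset.mem_cons_self b B))
    have h3 := Wn_nd (d := d) (z * b)
    have h4 : (Wn d (z * b) : ℤ) ≤ 3 * (nd d ((z * b : ℕ) : ZMod d) : ℤ) := by
      have : Wn d (z * b) ≤ 3 * nd d ((z * b : ℕ) : ZMod d) := by
        rw [h3]; exact min_le_left _ _
      exact_mod_cast this
    have h5 : (Wn d (z * b) : ℤ) ≤ 2 * d - 3 * (nd d ((z * b : ℕ) : ZMod d) : ℤ) := by
      have h6 : 3 * nd d ((z * b : ℕ) : ZMod d) ≤ 2 * d := by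
        rw [nd_eq]; omega
      have : Wn d (z * b) ≤ 2 * d - 3 * nd d ((z * b : ℕ) : ZMod d) := by
        rw [h3]; exact min_le_right _ _
      have h7 : ((Wn d (z * b) : ℕ) : ℤ) ≤ ((2 * d - 3 * nd d ((z * b : ℕ) : ZMod d) : ℕ) : ℤ) := by
        exact_mod_cast this
      rw [Nat.cast_sub h6] at h7
      exact_mod_cast h7
    push_cast at h1 h4 h5 ⊢
    rcases he with rfl | rfl <;> rcases h2 with h2 | h2 <;> rw [h2] <;> linarith

/-- The exceptional case is impossible for fewer than `2 * h` entries. -/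
lemma no_exc' {q d m : ℕ} {A1 A2 : Multiset ℕ} (H : Setting q d m A1 A2) {h : ℕ} {s T : ℕ → ℤ}
    (D : Data q d A1 h s T) (hT1 : ∀ z, Nat.Coprime z d → T z = 1 ∨ T z = -1)
    (hII : ∀ z, Nat.Coprime z d → s z = d * T z) (hn : nz d A1 < 2 * h) : False := by
  have hd0 := H.hd
  have hN : NeZero d := ⟨hd0⟩
  have hdo := H.dodd
  have hdz : (0 : ℤ) < d := by exact_mod_cast Nat.pos_of_ne_zero hd0
  set B := A1.filter fun a => ¬ d ∣ a with hBdef
  have hcB : Multiset.card B = nz d A1 := rfl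
  have hB : ∀ b ∈ B, ¬ d ∣ b := fun b hb => (Multiset.mem_filter.mp hb).2
  have hSTB : ∀ z, Pool.Agent.Y2.ST d B z = Pool.Agent.Y2.ST d A1 z :=
    fun z => (ST_filter d A1).symm
  have hSWB : ∀ z, SW d B z = SW d A1 z := fun z => (SW_filt d A1 z).symm
  have hmain : ∀ z, Nat.Coprime z d →
      (((B.map fun b => Wn d (z * b)).sum : ℕ) : ℤ) ≤ d * (nz d A1 - h) := by
    intro z hz
    have h1 : (B.map fun b => th d (z * b) * (nd d ((z * b : ℕ) : ZMod d) : ℤ)).sum = 0 := by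
      have h2 := SW_nd hdo B z
      rw [hSWB, hSTB, ← D.hs z hz, ← D.hT z hz, hII z hz] at h2
      linarith
    have h2 := sum_Wn_le (T z) (hT1 z hz) B z (fun b hb => by
      rw [dvd_coprime_mul hz]; exact hB b hb)
    rw [h1, mul_zero, mul_zero, zero_add, hSTB, ← D.hT z hz, hcB] at h2
    have h3 : T z * (h * T z) = h := by
      rcases hT1 z hz with h | h <;> rw [h] <;> ring
    rw [h3] at h2
    rw [Nat.cast_multiset_sum, Multiset.map_map]
    exact h2
  have h1 := W_aver_sum hdo B hB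
  have h2 : ((2 * ∑ u : (ZMod d)ˣ,
      (B.map fun b : ℕ => Wn d ((u : ZMod d).val * b)).sum : ℕ) : ℤ) ≤
      2 * (Nat.totient d * (d * (nz d A1 - h))) := by
    push_cast
    have h3 : ∑ u : (ZMod d)ˣ, (((B.map fun b : ℕ => Wn d ((u : ZMod d).val * b)).sum : ℕ) : ℤ) ≤
        ∑ _u : (ZMod d)ˣ, (d : ℤ) * (nz d A1 - h) :=
      sum_le_sum fun u _ => hmain _ (ZMod.val_coe_unit_coprime u)
    rw [sum_const, Finset.card_univ, ZMod.card_units_eq_totient, nsmul_eq_mul] at h3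
    have h4 : ∑ u : (ZMod d)ˣ, (((B.map fun b : ℕ => Wn d ((u : ZMod d).val * b)).sum : ℕ) : ℤ) =
        ∑ u : (ZMod d)ˣ, ((B.map fun b : ℕ => Wn d ((u : ZMod d).val * b)).map
          (Nat.cast : ℕ → ℤ)).sum := sum_congr rfl fun u _ => Nat.cast_multiset_sum _
    linarith
  have h3 : ((Multiset.card B * (d * Nat.totient d) : ℕ) : ℤ) ≤
      2 * (Nat.totient d * (d * (nz d A1 - h))) := le_trans (by exact_mod_cast h1) h2
  have h4 : (0 : ℤ) < d * Nat.totient d := by
    have : 0 < Nat.totient d := Nat.totient_pos.mpr (Nat.pos_of_ne_zero hd0)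
    have h5 : (0 : ℤ) < Nat.totient d := by exact_mod_cast this
    positivity
  have h5 : ((d : ℤ) * Nat.totient d) * (nz d A1) ≤
      (d * Nat.totient d) * (2 * (nz d A1 - h)) := by
    rw [hcB] at h3
    push_cast at h3
    linarith
  have h6 := le_of_mul_le_mul_left h5 h4
  omega

end Pool.Agent.V1161
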